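import Pool.Agent.Lib.P2f7dfd.Limit

/-!
# A computable run of the stack machine
-/

namespace Pool.Agent.Lib.P2f7dfd

open Nat.Partrec (Code)
open Nat.Partrec.Code
open Encodable Denumerable

section PrimrecTools

variable {α : Type*} [Primcodable α]

theorem prim_exists_lt {f : α → ℕ} {R : ℕ → α → Prop} (hf : Primrec f) (hR : PrimrecRel R) :
    PrimrecPred fun a => ∃ x < f a, R x a :=
  (hR.exists_mem_list.comp (Primrec.list_range.comp hf) Primrec.id).of_eq (by simp)

theorem prim_forall_lt {f : α → ℕ} {R : ℕ → α → Prop} (hf : Primrec f) (hR : PrimrecRel R) :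
    PrimrecPred fun a => ∀ x < f a, R x a :=
  (hR.forall_mem_list.comp (Primrec.list_range.comp hf) Primrec.id).of_eq (by simp)

/-- The least element below `f a` satisfying `R`, if any. -/
theorem prim_find {f : α → ℕ} {R : ℕ → α → Prop} [DecidableRel R] (hf : Primrec f)
    (hR : PrimrecRel R) :
    Primrec fun a => ((List.range (f a)).filter fun x => decide (R x a)).head? :=
  Primrec.list_head?.comp (hR.listFilter.comp (Primrec.list_range.comp hf) Primrec.id)

theorem prim_imp {p q : α → Prop} (hp : PrimrecPred p) (hq : PrimrecPred q) :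
    PrimrecPred fun a => p a → q a :=
  (hp.not.or hq).of_eq fun a => by tauto

end PrimrecTools

/-- The computation number `e` with some initial segment of `σ` as an additional input halts on `n`
within `s` stages. -/
def conv (e n : ℕ) (σ : Str) (s : ℕ) : Bool :=
  decide (∃ k < σ.length + 1, (evaln s (ofNat Code e) (encode (σ.take k, n))).isSome = true)

theorem conv_iff {e n : ℕ} {σ : Str} {s : ℕ} : conv e n σ s = true ↔
    ∃ k ≤ σ.length, (evaln s (ofNat Code e) (encode (σ.take k, n))).isSome = true := by
  simp [conv]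

theorem conv_mono : ConvMono conv := by
  intro e n σ τ s t hσ hs h
  rw [conv_iff] at h ⊢
  obtain ⟨k, hk, h⟩ := h
  refine ⟨k, hk.trans hσ.length_le, ?_⟩
  have h1 : τ.take k = σ.take k := by
    obtain ⟨ρ, rfl⟩ := hσ
    rw [List.take_append_of_le_length hk]
  rw [h1]
  obtain ⟨x, hx⟩ := Option.isSome_iff_exists.1 h
  rw [Option.isSome_iff_exists]
  exact ⟨x, evaln_mono hs hx⟩

theorem conv_never : IsRun.Never conv := by
  obtain ⟨c, hc⟩ := Code.exists_code.1 Nat.Partrec.none
  intro N
  have hinj : Function.Injective fun k => encode (Code.curry c k) := by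
    intro k l h
    exact (Code.curry_inj (encode_injective h)).2
  obtain ⟨e, ⟨k, hk⟩, he⟩ := (Set.infinite_range_of_injective hinj).exists_gt N
  refine ⟨e, he.le, fun n σ s => ?_⟩
  rw [← Bool.not_eq_true, conv_iff]
  rintro ⟨j, hj, h⟩
  obtain ⟨x, hx⟩ := Option.isSome_iff_exists.1 h
  have h2 := evaln_sound (Option.mem_def.2 hx)
  have h3 : ofNat Code e = Code.curry c k := by
    rw [← hk]
    simp
  rw [h3, eval_curry, hc] at h2
  simp at h2

theorem primrec_conv : Primrec fun a : (ℕ × ℕ) × (Str × ℕ) => conv a.1.1 a.1.2 a.2.1 a.2.2 := by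
  have h1 : PrimrecRel fun (k : ℕ) (a : (ℕ × ℕ) × (Str × ℕ)) =>
      (evaln a.2.2 (ofNat Code a.1.1) (encode (a.2.1.take k, a.1.2))).isSome = true := by
    refine Primrec.eq.comp (Primrec.option_isSome.comp ?_) (Primrec.const true)
    refine Code.primrec_evaln.comp (Primrec.pair (Primrec.pair ?_ ?_) ?_)
    · exact Primrec.snd.comp (Primrec.snd.comp Primrec.snd)
    · exact (Primrec.ofNat Code).comp (Primrec.fst.comp (Primrec.fst.comp Primrec.snd))
    · exact Primrec.encode.comp (Primrec.pair (Primrec.list_take.comp Primrec.fst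
        (Primrec.fst.comp (Primrec.snd.comp Primrec.snd)))
        (Primrec.snd.comp (Primrec.fst.comp Primrec.snd)))
  have h3 : PrimrecPred fun a : (ℕ × ℕ) × (Str × ℕ) =>
      ∃ k < a.2.1.length + 1,
        (evaln a.2.2 (ofNat Code a.1.1) (encode (a.2.1.take k, a.1.2))).isSome = true :=
    prim_exists_lt (Primrec.succ.comp (Primrec.list_length.comp (Primrec.fst.comp Primrec.snd))) h1
  exact h3.decide

/-! ## Primitive recursive versions of the components of a state -/

theorem primrec_at : Primrec₂ at' := Primrec.list_getD []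

theorem primrec_fr : Primrec₂ fr := Primrec.list_getD _

theorem primrec_fe : Primrec₂ fe := Primrec.fst.comp₂ primrec_fr

theorem primrec_fi : Primrec₂ fi := Primrec.fst.comp₂ (Primrec.snd.comp₂ primrec_fr)

theorem primrec_fv : Primrec₂ fv := Primrec.snd.comp₂ (Primrec.snd.comp₂ primrec_fr)

theorem primrec_ext : Primrec ext :=
  Primrec.list_map Primrec.id ((Primrec.list_append.comp Primrec.snd (Primrec.const _)).to₂)

section

variable {α : Type*} [Primcodable α]

theorem prim_active {st : α → List Frame} {p : α → ℕ} (hst : Primrec st) (hp : Primrec p) :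
    PrimrecPred fun a => Active (st a) (p a) := by
  refine prim_forall_lt (Primrec.list_length.comp hst) ?_
  refine prim_imp (Primrec.nat_lt.comp (hp.comp Primrec.snd) Primrec.fst) ?_
  exact Primrec.nat_lt.comp (primrec_fe.comp (hst.comp Primrec.snd) (hp.comp Primrec.snd))
    (primrec_fe.comp (hst.comp Primrec.snd) Primrec.fst)

theorem prim_topFor {st : α → List Frame} {e p : α → ℕ} (hst : Primrec st) (he : Primrec e)
    (hp : Primrec p) : PrimrecPred fun a => TopFor (st a) (e a) (p a) := by
  refine PrimrecPred.and (Primrec.nat_le.comp (primrec_fe.comp hst hp) he) ?_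
  refine prim_forall_lt (Primrec.list_length.comp hst) ?_
  refine prim_imp (Primrec.nat_lt.comp (hp.comp Primrec.snd) Primrec.fst) ?_
  exact Primrec.nat_lt.comp (he.comp Primrec.snd)
    (primrec_fe.comp (hst.comp Primrec.snd) Primrec.fst)

theorem prim_inCtx {st : α → List Frame} {p i : α → ℕ} (hst : Primrec st) (hp : Primrec p)
    (hi : Primrec i) : PrimrecPred fun a => InCtx (st a) (p a) (i a) := by
  refine PrimrecPred.or (Primrec.eq.comp hi (primrec_fi.comp hst hp)) ?_
  exact Primrec.nat_le.comp (Primrec.list_length.comp (primrec_fv.comp hst hp)) hi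

theorem prim_conv {e n s : α → ℕ} {σ : α → Str} (he : Primrec e) (hn : Primrec n) (hσ : Primrec σ)
    (hs : Primrec s) : Primrec fun a => conv (e a) (n a) (σ a) (s a) :=
  primrec_conv.comp (Primrec.pair (Primrec.pair he hn) (Primrec.pair hσ hs))

theorem prim_canPop {s : α → ℕ} {S : α → State} {p j : α → ℕ} (hs : Primrec s) (hS : Primrec S)
    (hp : Primrec p) (hj : Primrec j) : PrimrecPred fun a => CanPop conv (s a) (S a) (p a) (j a) := by
  have h1 := Primrec.fst.comp hS
  have h2 := Primrec.snd.comp hS
  refine PrimrecPred.and (Primrec.nat_lt.comp hp (Primrec.list_length.comp h2)) ?_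
  refine PrimrecPred.and (Primrec.nat_lt.comp hj (Primrec.list_length.comp h1)) ?_
  refine PrimrecPred.and (prim_active h2 hp) ?_
  refine PrimrecPred.and (prim_inCtx h2 hp hj) ?_
  refine Primrec.eq.comp ?_ (Primrec.const true)
  exact prim_conv (primrec_fe.comp h2 hp) (Primrec.list_length.comp (primrec_fv.comp h2 hp))
    (primrec_at.comp h1 hj) hs

theorem prim_bad {s : α → ℕ} {S : α → State} {e i : α → ℕ} (hs : Primrec s) (hS : Primrec S)
    (he : Primrec e) (hi : Primrec i) : PrimrecPred fun a => Bad conv (s a) (S a) (e a) (i a) := by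
  have h1 := Primrec.fst.comp hS
  have h2 := Primrec.snd.comp hS
  refine PrimrecPred.and (Primrec.nat_lt.comp he (Primrec.list_length.comp h1)) ?_
  refine PrimrecPred.and (Primrec.nat_lt.comp hi (Primrec.list_length.comp h1)) ?_
  refine PrimrecPred.and ?_ ?_
  · refine prim_forall_lt (Primrec.list_length.comp h2) ?_
    have h2' := h2.comp (Primrec.snd (α := ℕ) (β := α))
    refine prim_imp (prim_topFor h2' (he.comp Primrec.snd) Primrec.fst) ?_
    refine PrimrecPred.and ?_ (prim_inCtx h2' Primrec.fst (hi.comp Primrec.snd))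
    exact (Primrec.eq.comp (primrec_fe.comp h2' Primrec.fst) (he.comp Primrec.snd)).not
  · refine Primrec.eq.comp ?_ (Primrec.const false)
    exact prim_conv he (Primrec.list_length.comp h1) (primrec_at.comp h1 hi) hs

theorem prim_doPop {S : α → State} {p j : α → ℕ} (hS : Primrec S)
    (hp : Primrec p) (hj : Primrec j) : Primrec fun a => doPop (S a) (p a) (j a) := by
  have h1 := Primrec.fst.comp hS
  have h2 := Primrec.snd.comp hS
  refine Primrec.pair (primrec_ext.comp ?_) (Primrec.list_take.comp hp h2)
  refine Primrec.list_set.comp (Primrec.list_take.comp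
    (Primrec.list_length.comp (primrec_fv.comp h2 hp)) h1)
    (Primrec.pair (primrec_fi.comp h2 hp) (primrec_at.comp h1 hj))

theorem prim_doPush {S : α → State} {e i : α → ℕ} (hS : Primrec S)
    (he : Primrec e) (hi : Primrec i) : Primrec fun a => doPush (S a) (e a) (i a) := by
  have h1 := Primrec.fst.comp hS
  have h2 := Primrec.snd.comp hS
  refine Primrec.pair (primrec_ext.comp h1) (Primrec.list_append.comp h2 ?_)
  exact Primrec.list_cons.comp (Primrec.pair he (Primrec.pair hi h1)) (Primrec.const [])

theorem prim_splitIdx {S : α → State} (hS : Primrec S) : Primrec fun a => splitIdx (S a) := by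
  have h1 := Primrec.list_length.comp (Primrec.fst.comp hS)
  have h2 := Primrec.list_length.comp (Primrec.snd.comp hS)
  have h3 := Primrec.pred.comp h1
  have h4 := Primrec.pred.comp h2
  refine Primrec.ite (Primrec.eq.comp h2 (Primrec.const 0)) h3 ?_
  refine Primrec.ite (Primrec.nat_lt.comp (Primrec.list_length.comp
    (primrec_fv.comp (Primrec.snd.comp hS) h4)) h1) h3 ?_
  exact primrec_fi.comp (Primrec.snd.comp hS) h4

theorem prim_doSplit {S : α → State} (hS : Primrec S) : Primrec fun a => doSplit (S a) := by
  have h1 := Primrec.fst.comp hS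
  have h2 := Primrec.snd.comp hS
  have h3 := prim_splitIdx hS
  have h4 := primrec_at.comp h1 h3
  refine Primrec.pair (primrec_ext.comp ?_) h2
  refine Primrec.list_append.comp (Primrec.list_set.comp h1 (Primrec.pair h3
    (Primrec.list_append.comp h4 (Primrec.const _)))) ?_
  exact Primrec.list_cons.comp (Primrec.list_append.comp h4 (Primrec.const _)) (Primrec.const [])

end

/-! ## The step function -/

open scoped Classical in
/-- A pair of numbers satisfying `R`, coded by a number, if any. -/
noncomputable def popCode (s : ℕ) (S : State) : Option ℕ :=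
  ((List.range ((S.1.length + S.2.length + 1) ^ 2)).filter
    fun x => decide (CanPop conv s S x.unpair.1 x.unpair.2)).head?

open scoped Classical in
/-- A pair of numbers satisfying `R`, coded by a number, if any. -/
noncomputable def badCode (s : ℕ) (S : State) : Option ℕ :=
  ((List.range ((S.1.length + S.2.length + 1) ^ 2)).filter
    fun x => decide (Bad conv s S x.unpair.1 x.unpair.2)).head?

theorem popCode_some {s : ℕ} {S : State} {x : ℕ} (h : popCode s S = some x) :
    CanPop conv s S x.unpair.1 x.unpair.2 := by
  have h1 := List.mem_of_head? h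
  simp only [List.mem_filter, decide_eq_true_eq] at h1
  exact h1.2

theorem badCode_some {s : ℕ} {S : State} {x : ℕ} (h : badCode s S = some x) :
    Bad conv s S x.unpair.1 x.unpair.2 := by
  have h1 := List.mem_of_head? h
  simp only [List.mem_filter, decide_eq_true_eq] at h1
  exact h1.2

theorem pair_bound {p j a b : ℕ} (hp : p < a + b + 1) (hj : j < a + b + 1) :
    Nat.pair p j < (a + b + 1) ^ 2 := by
  refine (Nat.pair_lt_max_add_one_sq p j).trans_le ?_
  exact Nat.pow_le_pow_left (by omega) 2

theorem popCode_none {s : ℕ} {S : State} (h : popCode s S = none) (p j : ℕ) :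
    ¬ CanPop conv s S p j := by
  intro hc
  have h1 := List.head?_eq_none_iff.1 h
  rw [List.filter_eq_nil_iff] at h1
  have h2 := h1 (Nat.pair p j) (List.mem_range.2 (pair_bound ?_ ?_))
  · simp only [Nat.unpair_pair, decide_eq_true_eq] at h2
    exact h2 hc
  · have := hc.1
    omega
  · have := hc.2.1
    omega

theorem badCode_none {s : ℕ} {S : State} (h : badCode s S = none) (e i : ℕ) :
    ¬ Bad conv s S e i := by
  intro hc
  have h1 := List.head?_eq_none_iff.1 h
  rw [List.filter_eq_nil_iff] at h1
  have h2 := h1 (Nat.pair e i) (List.mem_range.2 (pair_bound ?_ ?_))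
  · simp only [Nat.unpair_pair, decide_eq_true_eq] at h2
    exact h2 hc
  · have := hc.1
    omega
  · have := hc.2.1
    omega

/-- The step function. -/
noncomputable def stepFn (s : ℕ) (S : State) : State :=
  Option.casesOn (popCode s S)
    (Option.casesOn (badCode s S) (doSplit S)
      fun x => doPush S x.unpair.1 x.unpair.2)
    fun x => doPop S x.unpair.1 x.unpair.2

theorem step_stepFn (s : ℕ) (S : State) : Step conv s S (stepFn s S) := by
  unfold stepFn
  rcases h : popCode s S with _ | x
  · rcases h' : badCode s S with _ | x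
    · exact Step.split (popCode_none h) (badCode_none h')
    · exact Step.push _ _ (popCode_none h) (badCode_some h')
  · exact Step.pop _ _ (popCode_some h)

theorem primrec_stepFn : Primrec₂ stepFn := by
  classical
  have hs : Primrec (Prod.fst : ℕ × State → ℕ) := Primrec.fst
  have hS : Primrec (Prod.snd : ℕ × State → State) := Primrec.snd
  have hb : Primrec fun a : ℕ × State => (a.2.1.length + a.2.2.length + 1) ^ 2 := by
    have h1 : Primrec fun a : ℕ × State => a.2.1.length + a.2.2.length + 1 :=
      Primrec.succ.comp (Primrec.nat_add.comp (Primrec.list_length.comp (Primrec.fst.comp hS))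
        (Primrec.list_length.comp (Primrec.snd.comp hS)))
    exact (Primrec.nat_mul.comp h1 h1).of_eq fun a => (sq _).symm
  have hx1 : Primrec fun b : ℕ × (ℕ × State) => b.1.unpair.1 :=
    Primrec.fst.comp (Primrec.unpair.comp Primrec.fst)
  have hx2 : Primrec fun b : ℕ × (ℕ × State) => b.1.unpair.2 :=
    Primrec.snd.comp (Primrec.unpair.comp Primrec.fst)
  have hy1 : Primrec fun b : (ℕ × State) × ℕ => b.2.unpair.1 :=
    Primrec.fst.comp (Primrec.unpair.comp Primrec.snd)
  have hy2 : Primrec fun b : (ℕ × State) × ℕ => b.2.unpair.2 :=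
    Primrec.snd.comp (Primrec.unpair.comp Primrec.snd)
  have hpop : Primrec fun a : ℕ × State => popCode a.1 a.2 := by
    refine (prim_find (R := fun x (a : ℕ × State) => CanPop conv a.1 a.2 x.unpair.1 x.unpair.2)
      hb ?_).of_eq fun a => ?_
    · exact prim_canPop (hs.comp Primrec.snd) (hS.comp Primrec.snd) hx1 hx2
    · unfold popCode
      congr
  have hbad : Primrec fun a : ℕ × State => badCode a.1 a.2 := by
    refine (prim_find (R := fun x (a : ℕ × State) => Bad conv a.1 a.2 x.unpair.1 x.unpair.2)
      hb ?_).of_eq fun a => ?_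
    · exact prim_bad (hs.comp Primrec.snd) (hS.comp Primrec.snd) hx1 hx2
    · unfold badCode
      congr
  refine Primrec.option_casesOn hpop (Primrec.option_casesOn hbad (prim_doSplit hS) ?_) ?_
  · exact prim_doPush (hS.comp Primrec.fst) hy1 hy2
  · exact prim_doPop (hS.comp Primrec.fst) hy1 hy2

/-- The run. -/
noncomputable def run : ℕ → State := fun n => Nat.rec init (fun s S => stepFn s S) n

theorem primrec_run : Primrec run := Primrec.nat_rec₁ _ primrec_stepFn

theorem isRun_run : IsRun conv run := ⟨rfl, fun s => step_stepFn s (run s)⟩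

end Pool.Agent.Lib.P2f7dfd
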