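import Pool.Agent.Lib.P2f7dfd.Hif

/-!
# Hyperimmune-free noncomputable reals are not below recursively enumerable sets
-/

namespace Pool.Agent.Lib.P2f7dfd

open Nat.Partrec (Code)
open Nat.Partrec.Code
open Encodable Denumerable

theorem encode_pair_ge (σ : Str) (n : ℕ) : σ.length ≤ encode (σ, n) := by
  refine (Encodable.length_le_encode σ).trans ?_
  rw [Encodable.encode_prod_val]
  exact Nat.left_le_pair _ _

/-- A hyperimmune-free real with a computable approximation is computable. -/
theorem HIF.computable_of_approx {A : ℕ → Bool} (hA : HIF A) {α : ℕ → ℕ → Bool} (hα : Primrec₂ α)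
    (hlim : ∀ n, ∃ t, ∀ s ≥ t, α s n = A n) : Computable A := by
  classical
  have h1 : PrimrecPred fun a : (Str × ℕ) × ℕ => a.1.2 ≤ a.2 ∧ a.2 ≤ a.1.1.length ∧
      ∀ i < a.1.2, a.1.1[i]? = some (α a.2 i) := by
    refine PrimrecPred.and (Primrec.nat_le.comp (Primrec.snd.comp Primrec.fst) Primrec.snd) ?_
    refine PrimrecPred.and (Primrec.nat_le.comp Primrec.snd
      (Primrec.list_length.comp (Primrec.fst.comp Primrec.fst))) ?_
    refine prim_forall_lt (Primrec.snd.comp Primrec.fst) ?_
    refine Primrec.eq.comp (Primrec.list_getElem?.comp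
      (Primrec.fst.comp (Primrec.fst.comp Primrec.snd)) Primrec.fst) ?_
    exact Primrec.option_some.comp (hα.comp (Primrec.snd.comp Primrec.snd) Primrec.fst)
  have h2 : Computable₂ fun (a : Str × ℕ) (s : ℕ) => decide (a.2 ≤ s ∧ s ≤ a.1.length ∧
      ∀ i < a.2, a.1[i]? = some (α s i)) := h1.decide.to_comp.to₂
  have h3 : Partrec fun a : Str × ℕ => Nat.rfind fun s => Part.some (decide (a.2 ≤ s ∧
      s ≤ a.1.length ∧ ∀ i < a.2, a.1[i]? = some (α s i))) :=
    Partrec.rfind (p := fun (a : Str × ℕ) s => Part.some (decide (a.2 ≤ s ∧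
      s ≤ a.1.length ∧ ∀ i < a.2, a.1[i]? = some (α s i)))) h2.partrec₂
  obtain ⟨c, hc⟩ := Code.exists_code.1 h3
  have heval : ∀ (σ : Str) (n : ℕ), c.eval (encode (σ, n)) = Nat.rfind fun s =>
      Part.some (decide (n ≤ s ∧ s ≤ σ.length ∧ ∀ i < n, σ[i]? = some (α s i))) := by
    intro σ n
    rw [hc]
    simp only [encodek, Part.coe_some, Part.bind_some]
    exact Part.map_id' (fun x => rfl) _
  have hget : ∀ k n s : ℕ, (n ≤ s ∧ s ≤ (res A k).length ∧ ∀ i < n, (res A k)[i]? = some (α s i)) →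
      n ≤ s ∧ s ≤ k ∧ ∀ i < n, A i = α s i := by
    rintro k n s ⟨h4, h5, h6⟩
    rw [res_length] at h5
    refine ⟨h4, h5, fun i hi => ?_⟩
    have h7 := h6 i hi
    rw [res_getElem? A (by omega)] at h7
    exact Option.some.inj h7
  obtain ⟨h, hh, hh1⟩ := hA c (by
    intro n
    have h4 : ∀ N, ∃ t, ∀ i < N, ∀ s ≥ t, α s i = A i := by
      intro N
      induction N with
      | zero => exact ⟨0, fun i hi => absurd hi (Nat.not_lt_zero i)⟩
      | succ N ih =>
        obtain ⟨t, ht⟩ := ih
        obtain ⟨t', ht'⟩ := hlim N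
        refine ⟨max t t', fun i hi s hs => ?_⟩
        rcases Nat.lt_succ_iff_lt_or_eq.1 hi with hi | rfl
        · exact ht i hi s ((le_max_left _ _).trans hs)
        · exact ht' s ((le_max_right _ _).trans hs)
    obtain ⟨t, ht⟩ := h4 n
    refine ⟨max n t, ?_⟩
    rw [heval, Nat.rfind_dom]
    refine ⟨max n t, ?_, fun {m} _ => trivial⟩
    simp only [Part.mem_some_iff]
    symm
    rw [decide_eq_true_eq, res_length]
    refine ⟨le_max_left _ _, le_rfl, fun i hi => ?_⟩
    rw [res_getElem? A (lt_of_lt_of_le hi (le_max_left _ _)), ht i hi _ (le_max_right _ _)])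
  have hx : ∀ n, ∃ x, n ≤ x ∧ x < h n ∧ ∀ i < n, A i = α x i := by
    intro n
    obtain ⟨k, hk⟩ := hh1 n
    obtain ⟨x, hx⟩ := Option.isSome_iff_exists.1 hk
    have h4 := evaln_bound hx
    have h5 := evaln_sound hx
    rw [heval] at h5
    have h6 := Nat.rfind_spec h5
    rw [Part.mem_some_iff] at h6
    have h7 := hget _ _ _ (of_decide_eq_true h6.symm)
    refine ⟨x, h7.1, ?_, h7.2.2⟩
    have h8 := encode_pair_ge (res A k) n
    rw [res_length] at h8
    omega
  have h4 : PrimrecPred fun a : (ℕ × ℕ) × ℕ => a.1.1 < a.1.2 ∧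
      ∀ s < a.2, a.1.2 ≤ s → α s a.1.1 = α a.1.2 a.1.1 := by
    refine PrimrecPred.and (Primrec.nat_lt.comp (Primrec.fst.comp Primrec.fst)
      (Primrec.snd.comp Primrec.fst)) ?_
    refine prim_forall_lt Primrec.snd ?_
    have e1 : Primrec fun b : ℕ × ((ℕ × ℕ) × ℕ) => b.2.1.1 :=
      Primrec.fst.comp (Primrec.fst.comp Primrec.snd)
    have e2 : Primrec fun b : ℕ × ((ℕ × ℕ) × ℕ) => b.2.1.2 :=
      Primrec.snd.comp (Primrec.fst.comp Primrec.snd)
    refine prim_imp (Primrec.nat_le.comp e2 Primrec.fst) ?_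
    exact Primrec.eq.comp (hα.comp Primrec.fst e1) (hα.comp e2 e1)
  have h5 : Computable₂ fun i n => decide (i < n ∧ ∀ s < h n, n ≤ s → α s i = α n i) := by
    have h6 : Computable fun a : ℕ × ℕ => (a, h a.2) :=
      Computable.id.pair (hh.comp Computable.snd)
    exact (h4.decide.to_comp.comp h6).to₂
  obtain ⟨f, hf, hf1, -⟩ := computable_find h5 (fun i => by
    obtain ⟨t, ht⟩ := hlim i
    refine ⟨max (i + 1) t, ?_⟩
    rw [decide_eq_true_eq]
    refine ⟨lt_of_lt_of_le (Nat.lt_succ_self i) (le_max_left _ _), fun s _ hs => ?_⟩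
    rw [ht s ((le_max_right _ _).trans hs), ht _ (le_max_right _ _)])
  refine (hα.to_comp.comp hf Computable.id).of_eq fun i => ?_
  have h6 := of_decide_eq_true (hf1 i)
  obtain ⟨x, hx1, hx2, hx3⟩ := hx (f i)
  rw [hx3 i h6.1, h6.2 x hx2 hx1]
  rfl

/-- Reals computable from a recursively enumerable set have a computable approximation. -/
theorem exists_approx {A W : ℕ → Bool} (hW : REPred fun n => W n = true)
    (hAW : Nat.RecursiveIn {real W} (real A)) :
    ∃ α : ℕ → ℕ → Bool, Primrec₂ α ∧ ∀ n, ∃ t, ∀ s ≥ t, α s n = A n := by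
  classical
  obtain ⟨cW, hcW⟩ := Code.exists_code.1 hW
  have hcW' : ∀ n, (cW.eval n).Dom ↔ W n = true := by
    intro n
    rw [hcW]
    simp only [decode_nat, Part.coe_some, Part.bind_some, Part.map_Dom]
    exact ⟨fun h => h.1, fun h => ⟨h, trivial⟩⟩
  obtain ⟨F, hF⟩ := exists_rep hAW
  obtain ⟨e, he⟩ := hF.exists_code
  let Ws : ℕ → ℕ → Bool := fun s n => (evaln s cW n).isSome
  have hWs : Primrec₂ Ws := by
    refine Primrec.option_isSome.comp (Code.primrec_evaln.comp
      (Primrec.pair (Primrec.pair Primrec.fst (Primrec.const cW)) Primrec.snd))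
  have hWs_lim : ∀ k, ∃ t, ∀ s ≥ t, res (Ws s) k = res W k := by
    intro k
    induction k with
    | zero => exact ⟨0, fun s _ => rfl⟩
    | succ k ih =>
      obtain ⟨t, ht⟩ := ih
      have h1 : ∃ t', ∀ s ≥ t', Ws s k = W k := by
        by_cases hk : W k = true
        · obtain ⟨v, hv⟩ := Part.dom_iff_mem.1 ((hcW' k).2 hk)
          obtain ⟨s₀, hs₀⟩ := evaln_complete.1 hv
          refine ⟨s₀, fun s hs => ?_⟩
          rw [hk]
          exact Option.isSome_iff_exists.2 ⟨v, evaln_mono hs hs₀⟩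
        · refine ⟨0, fun s _ => ?_⟩
          rw [Bool.not_eq_true] at hk
          rw [hk]
          rw [← Bool.not_eq_true]
          intro hcon
          obtain ⟨v, hv⟩ := Option.isSome_iff_exists.1 hcon
          have h2 := (hcW' k).1 (Part.dom_iff_mem.2 ⟨v, evaln_sound hv⟩)
          rw [hk] at h2
          exact Bool.noConfusion h2
      obtain ⟨t', ht'⟩ := h1
      refine ⟨max t t', fun s hs => ?_⟩
      have h2 : ∀ X : ℕ → Bool, res X (k + 1) = res X k ++ [X k] := by
        intro X
        simp [res, List.range_succ]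
      rw [h2, h2, ht s ((le_max_left _ _).trans hs), ht' s ((le_max_right _ _).trans hs)]
  refine ⟨fun s n => decide (∃ k < s, evaln s (ofNat Code e) (encode (res (Ws s) k, n)) = some 1),
    ?_, fun n => ?_⟩
  · have h1 : PrimrecPred fun a : ℕ × ℕ =>
        ∃ k < a.1, evaln a.1 (ofNat Code e) (encode (res (Ws a.1) k, a.2)) = some 1 := by
      refine prim_exists_lt Primrec.fst ?_
      refine Primrec.eq.comp (Code.primrec_evaln.comp (Primrec.pair (Primrec.pair
        (Primrec.fst.comp Primrec.snd) (Primrec.const _)) (Primrec.encode.comp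
        (Primrec.pair ?_ (Primrec.snd.comp Primrec.snd))))) (Primrec.const _)
      refine Primrec.list_map (Primrec.list_range.comp Primrec.fst) ?_
      exact (hWs.comp (Primrec.fst.comp (Primrec.snd.comp Primrec.fst)) Primrec.snd).to₂
    exact h1.decide.to₂
  · have h1 : (A n).toNat ∈ real A n := Part.mem_some _
    obtain ⟨k₀, hk₀⟩ := (hF.mem _ _).1 h1
    obtain ⟨t, ht⟩ := hWs_lim k₀
    have hk₀' := hk₀
    rw [← he] at hk₀'
    obtain ⟨t', ht'⟩ := evaln_complete.1 hk₀'
    refine ⟨max (max t t') (k₀ + 1), fun s hs => ?_⟩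
    have hs1 : t ≤ s := ((le_max_left _ _).trans (le_max_left _ _)).trans hs
    have hs2 : t' ≤ s := ((le_max_right _ _).trans (le_max_left _ _)).trans hs
    have hs3 : k₀ < s := (le_max_right _ _).trans hs
    rcases hAn : A n with _ | _
    · rw [decide_eq_false_iff_not]
      rintro ⟨k, hk, hk'⟩
      have h2 := evaln_sound (Option.mem_def.2 hk')
      rw [he] at h2
      have h3 := hF.mono _ _ _ _ (res_prefix (Ws s) (le_max_left k k₀)) h2
      have h4 := hk₀
      rw [← ht s hs1] at h4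
      have h5 := hF.mono _ _ _ _ (res_prefix (Ws s) (le_max_right k k₀)) h4
      have h6 := Part.mem_unique h3 h5
      rw [hAn] at h6
      exact absurd h6 (by decide)
    · rw [decide_eq_true_eq]
      refine ⟨k₀, hs3, ?_⟩
      rw [ht s hs1]
      have h2 := evaln_mono hs2 ht'
      rw [hAn] at h2
      exact h2

/-- The real is not computable from any recursively enumerable set. -/
theorem HIF.not_le_re {A : ℕ → Bool} (hA : HIF A) (hnc : ¬ Computable A) {W : ℕ → Bool}
    (hW : REPred fun n => W n = true) : ¬ Nat.RecursiveIn {real W} (real A) := by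
  intro h
  obtain ⟨α, hα, hlim⟩ := exists_approx hW h
  exact hnc (hA.computable_of_approx hα hlim)

end Pool.Agent.Lib.P2f7dfd
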