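import Pool.Agent.Lib.P2f7dfd.Run

/-!
# Turing functionals as monotone partial recursive functions on finite strings
-/

namespace Pool.Agent.Lib.P2f7dfd

open Nat.Partrec (Code)
open Encodable Denumerable

/-- The characteristic function of `A` as a partial function on the natural numbers. -/
def real (A : ℕ → Bool) : ℕ →. ℕ := fun n => Part.some (A n).toNat

/-- The monotone functional `F` computes `f` from `A`. -/
structure Rep (A : ℕ → Bool) (f : ℕ →. ℕ) (F : Str → ℕ →. ℕ) : Prop where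
  partrec : Partrec₂ F
  mono : ∀ σ τ n v, σ <+: τ → v ∈ F σ n → v ∈ F τ n
  mem : ∀ n v, v ∈ f n ↔ ∃ k, v ∈ F (res A k) n

theorem Rep.mem_of_le {A : ℕ → Bool} {f : ℕ →. ℕ} {F : Str → ℕ →. ℕ} (h : Rep A f F) {n v k l : ℕ}
    (hkl : k ≤ l) (hk : v ∈ F (res A k) n) : v ∈ F (res A l) n :=
  h.mono _ _ _ _ (res_prefix A hkl) hk

/-- A functional which does not use its oracle. -/
theorem Rep.const (A : ℕ → Bool) {f : ℕ →. ℕ} (hf : Partrec f) : Rep A f fun _ => f where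
  partrec := hf.comp Computable.snd
  mono := fun _ _ _ _ _ h => h
  mem := fun _ _ => ⟨fun h => ⟨0, h⟩, fun ⟨_, h⟩ => h⟩

/-- The oracle functional. -/
theorem Rep.oracle (A : ℕ → Bool) :
    Rep A (real A) fun σ n => (Part.ofOption (σ[n]?)).map Bool.toNat where
  partrec := by
    refine Partrec.map ?_ ?_
    · exact Computable.ofOption (Primrec.list_getElem?.to_comp)
    · exact ((Primrec.dom_bool Bool.toNat).to_comp.comp Computable.snd).to₂
  mono := by
    intro σ τ n v h hv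
    obtain ⟨ρ, rfl⟩ := h
    simp only [Part.mem_map_iff, Part.mem_ofOption, Option.mem_def] at hv ⊢
    obtain ⟨a, ha, rfl⟩ := hv
    refine ⟨a, ?_, rfl⟩
    rw [List.getElem?_append_left (List.getElem?_eq_some_iff.1 ha).1]
    exact ha
  mem := by
    intro n v
    simp only [real, Part.mem_some_iff, Part.mem_map_iff, Part.mem_ofOption, Option.mem_def]
    constructor
    · rintro rfl
      exact ⟨n + 1, A n, res_getElem? A (by omega), rfl⟩
    · rintro ⟨k, a, ha, rfl⟩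
      have h1 := (List.getElem?_eq_some_iff.1 ha).1
      rw [res_length] at h1
      rw [res_getElem? A h1] at ha
      cases ha
      rfl

theorem Rep.pair {A : ℕ → Bool} {f g : ℕ →. ℕ} {F G : Str → ℕ →. ℕ} (hf : Rep A f F)
    (hg : Rep A g G) : Rep A (fun n => Nat.pair <$> f n <*> g n)
      fun σ n => (F σ n).bind fun x => (G σ n).map fun y => Nat.pair x y where
  partrec := by
    refine Partrec.bind hf.partrec ?_
    refine Partrec.map (hg.partrec.comp (Computable.fst.comp Computable.fst)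
      (Computable.snd.comp Computable.fst) : Partrec fun a : (Str × ℕ) × ℕ => G a.1.1 a.1.2) ?_
    exact (Primrec₂.natPair.comp (Primrec.snd.comp Primrec.fst) Primrec.snd).to_comp.to₂
  mono := by
    intro σ τ n v h hv
    simp only [Part.mem_bind_iff, Part.mem_map_iff] at hv ⊢
    obtain ⟨x, hx, y, hy, rfl⟩ := hv
    exact ⟨x, hf.mono _ _ _ _ h hx, y, hg.mono _ _ _ _ h hy, rfl⟩
  mem := by
    intro n v
    have e : (Nat.pair <$> f n <*> g n) = (f n).bind fun x => (g n).map fun y => Nat.pair x y := by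
      rw [Part.map_eq_map]
      simp [Seq.seq]
    rw [e]
    simp only [Part.mem_bind_iff, Part.mem_map_iff]
    constructor
    · rintro ⟨x, hx, y, hy, rfl⟩
      obtain ⟨k, hk⟩ := (hf.mem _ _).1 hx
      obtain ⟨l, hl⟩ := (hg.mem _ _).1 hy
      exact ⟨max k l, x, hf.mem_of_le (le_max_left _ _) hk, y, hg.mem_of_le (le_max_right _ _) hl,
        rfl⟩
    · rintro ⟨k, x, hx, y, hy, rfl⟩
      exact ⟨x, (hf.mem _ _).2 ⟨k, hx⟩, y, (hg.mem _ _).2 ⟨k, hy⟩, rfl⟩

theorem Rep.comp {A : ℕ → Bool} {f g : ℕ →. ℕ} {F G : Str → ℕ →. ℕ} (hf : Rep A f F)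
    (hg : Rep A g G) : Rep A (fun n => g n >>= f)
      fun σ n => (G σ n).bind fun x => F σ x where
  partrec := by
    refine Partrec.bind hg.partrec ?_
    exact (hf.partrec.comp (Computable.fst.comp Computable.fst) Computable.snd :
      Partrec fun a : (Str × ℕ) × ℕ => F a.1.1 a.2)
  mono := by
    intro σ τ n v h hv
    simp only [Part.mem_bind_iff] at hv ⊢
    obtain ⟨x, hx, hy⟩ := hv
    exact ⟨x, hg.mono _ _ _ _ h hx, hf.mono _ _ _ _ h hy⟩
  mem := by
    intro n v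
    simp only [Part.bind_eq_bind, Part.mem_bind_iff]
    constructor
    · rintro ⟨x, hx, hy⟩
      obtain ⟨k, hk⟩ := (hg.mem _ _).1 hx
      obtain ⟨l, hl⟩ := (hf.mem _ _).1 hy
      exact ⟨max k l, x, hg.mem_of_le (le_max_left _ _) hk, hf.mem_of_le (le_max_right _ _) hl⟩
    · rintro ⟨k, x, hx, hy⟩
      exact ⟨x, (hg.mem _ _).2 ⟨k, hx⟩, (hf.mem _ _).2 ⟨k, hy⟩⟩

/-- Primitive recursion with partial functions. -/
def precP (f g : ℕ →. ℕ) (a n : ℕ) : Part ℕ :=
  Nat.rec (f a) (fun y IH => IH.bind fun i => g (Nat.pair a (Nat.pair y i))) n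

theorem precP_succ (f g : ℕ →. ℕ) (a n : ℕ) :
    precP f g a (n + 1) = (precP f g a n).bind fun i => g (Nat.pair a (Nat.pair n i)) := rfl

theorem Rep.precP_mono {A : ℕ → Bool} {f g : ℕ →. ℕ} {F G : Str → ℕ →. ℕ} (hf : Rep A f F)
    (hg : Rep A g G) {σ τ : Str} (h : σ <+: τ) (a n : ℕ) :
    ∀ v, v ∈ precP (F σ) (G σ) a n → v ∈ precP (F τ) (G τ) a n := by
  induction n with
  | zero => intro v hv; exact hf.mono _ _ _ _ h hv
  | succ n ih =>
    intro v hv
    rw [precP_succ, Part.mem_bind_iff] at hv ⊢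
    obtain ⟨x, hx, hy⟩ := hv
    exact ⟨x, ih x hx, hg.mono _ _ _ _ h hy⟩

theorem Rep.precP_mem {A : ℕ → Bool} {f g : ℕ →. ℕ} {F G : Str → ℕ →. ℕ} (hf : Rep A f F)
    (hg : Rep A g G) (a n : ℕ) :
    ∀ v, v ∈ precP f g a n ↔ ∃ k, v ∈ precP (F (res A k)) (G (res A k)) a n := by
  induction n with
  | zero => intro v; exact hf.mem a v
  | succ n ih =>
    intro v
    simp only [precP_succ, Part.mem_bind_iff]
    constructor
    · rintro ⟨x, hx, hy⟩
      obtain ⟨k, hk⟩ := (ih _).1 hx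
      obtain ⟨l, hl⟩ := (hg.mem _ _).1 hy
      exact ⟨max k l, x, hf.precP_mono hg (res_prefix A (le_max_left _ _)) _ _ _ hk,
        hg.mem_of_le (le_max_right _ _) hl⟩
    · rintro ⟨k, x, hx, hy⟩
      exact ⟨x, (ih _).2 ⟨k, hx⟩, (hg.mem _ _).2 ⟨k, hy⟩⟩

theorem Rep.prec {A : ℕ → Bool} {f g : ℕ →. ℕ} {F G : Str → ℕ →. ℕ} (hf : Rep A f F)
    (hg : Rep A g G) : Rep A (fun p => precP f g p.unpair.1 p.unpair.2)
      fun σ p => precP (F σ) (G σ) p.unpair.1 p.unpair.2 where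
  partrec := by
    have h1 : Partrec fun a : Str × ℕ => F a.1 a.2.unpair.1 :=
      hf.partrec.comp Computable.fst
        ((Primrec.fst.comp (Primrec.unpair.comp Primrec.snd)).to_comp)
    have h2 : Partrec₂ fun (a : Str × ℕ) (b : ℕ × ℕ) =>
        G a.1 (Nat.pair a.2.unpair.1 (Nat.pair b.1 b.2)) := by
      refine (hg.partrec.comp (Primrec.to_comp ?_) (Primrec.to_comp ?_) :
        Partrec fun c : (Str × ℕ) × (ℕ × ℕ) =>
          G c.1.1 (Nat.pair c.1.2.unpair.1 (Nat.pair c.2.1 c.2.2)))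
      · exact Primrec.fst.comp Primrec.fst
      · exact Primrec₂.natPair.comp
          (Primrec.fst.comp (Primrec.unpair.comp (Primrec.snd.comp Primrec.fst)))
          (Primrec₂.natPair.comp (Primrec.fst.comp Primrec.snd) (Primrec.snd.comp Primrec.snd))
    exact Partrec.nat_rec ((Primrec.snd.comp (Primrec.unpair.comp Primrec.snd)).to_comp) h1 h2
  mono := fun σ τ n v h hv => hf.precP_mono hg h _ _ _ hv
  mem := fun n v => hf.precP_mem hg _ _ _

theorem mem_rfind_iff {f : ℕ →. ℕ} {a v : ℕ} :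
    (v ∈ Nat.rfind fun n => (fun m => decide (m = 0)) <$> f (Nat.pair a n)) ↔
      0 ∈ f (Nat.pair a v) ∧ ∀ m < v, ∃ x, x ≠ 0 ∧ x ∈ f (Nat.pair a m) := by
  rw [Nat.mem_rfind]
  simp only [Part.map_eq_map, Part.mem_map_iff, decide_eq_true_eq, decide_eq_false_iff_not]
  constructor
  · rintro ⟨⟨x, hx, rfl⟩, h⟩
    refine ⟨hx, fun m hm => ?_⟩
    obtain ⟨y, hy, hy'⟩ := h hm
    exact ⟨y, hy', hy⟩
  · rintro ⟨h, h'⟩
    refine ⟨⟨0, h, rfl⟩, fun {m} hm => ?_⟩
    obtain ⟨y, hy, hy'⟩ := h' m hm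
    exact ⟨y, hy', hy⟩

theorem Rep.rfind {A : ℕ → Bool} {f : ℕ →. ℕ} {F : Str → ℕ →. ℕ} (hf : Rep A f F) :
    Rep A (fun a => Nat.rfind fun n => (fun m => decide (m = 0)) <$> f (Nat.pair a n))
      fun σ a => Nat.rfind fun n => (fun m => decide (m = 0)) <$> F σ (Nat.pair a n) where
  partrec := by
    have h1 : Partrec₂ fun (a : Str × ℕ) (n : ℕ) =>
        (fun m => decide (m = 0)) <$> F a.1 (Nat.pair a.2 n) := by
      refine Partrec.map (hf.partrec.comp (Primrec.to_comp ?_) (Primrec.to_comp ?_) :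
        Partrec fun c : (Str × ℕ) × ℕ => F c.1.1 (Nat.pair c.1.2 c.2)) ?_
      · exact Primrec.fst.comp Primrec.fst
      · exact Primrec₂.natPair.comp (Primrec.snd.comp Primrec.fst) Primrec.snd
      · exact (PrimrecPred.decide (Primrec.eq.comp Primrec.snd (Primrec.const 0))).to_comp.to₂
    exact Partrec.rfind h1
  mono := by
    intro σ τ n v h hv
    rw [mem_rfind_iff] at hv ⊢
    refine ⟨hf.mono _ _ _ _ h hv.1, fun m hm => ?_⟩
    obtain ⟨x, hx, hx'⟩ := hv.2 m hm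
    exact ⟨x, hx, hf.mono _ _ _ _ h hx'⟩
  mem := by
    intro n v
    constructor
    · intro hv
      rw [mem_rfind_iff] at hv
      obtain ⟨k, hk⟩ := (hf.mem _ _).1 hv.1
      have h1 : ∀ m, ∃ l, m < v → ∃ x, x ≠ 0 ∧ x ∈ F (res A l) (Nat.pair n m) := by
        intro m
        by_cases hm : m < v
        · obtain ⟨x, hx, hx'⟩ := hv.2 m hm
          obtain ⟨l, hl⟩ := (hf.mem _ _).1 hx'
          exact ⟨l, fun _ => ⟨x, hx, hl⟩⟩
        · exact ⟨0, fun h => absurd h hm⟩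
      choose l hl using h1
      refine ⟨max k ((Finset.range v).sup l), ?_⟩
      rw [mem_rfind_iff]
      refine ⟨hf.mem_of_le (le_max_left _ _) hk, fun m hm => ?_⟩
      obtain ⟨x, hx, hx'⟩ := hl m hm
      refine ⟨x, hx, hf.mem_of_le (le_trans ?_ (le_max_right _ _)) hx'⟩
      exact Finset.le_sup (f := l) (Finset.mem_range.2 hm)
    · rintro ⟨k, hk⟩
      rw [mem_rfind_iff] at hk ⊢
      refine ⟨(hf.mem _ _).2 ⟨k, hk.1⟩, fun m hm => ?_⟩
      obtain ⟨x, hx, hx'⟩ := hk.2 m hm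
      exact ⟨x, hx, (hf.mem _ _).2 ⟨k, hx'⟩⟩

/-- Every function recursive in `A` is computed by a functional. -/
theorem exists_rep {A : ℕ → Bool} {f : ℕ →. ℕ} (hf : Nat.RecursiveIn {real A} f) :
    ∃ F, Rep A f F := by
  induction hf with
  | zero => exact ⟨_, Rep.const A (Partrec.nat_iff.2 Nat.Partrec.zero)⟩
  | succ => exact ⟨_, Rep.const A (Partrec.nat_iff.2 Nat.Partrec.succ)⟩
  | left => exact ⟨_, Rep.const A (Partrec.nat_iff.2 Nat.Partrec.left)⟩
  | right => exact ⟨_, Rep.const A (Partrec.nat_iff.2 Nat.Partrec.right)⟩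
  | oracle g hg =>
    rw [Set.mem_singleton_iff] at hg
    subst hg
    exact ⟨_, Rep.oracle A⟩
  | pair _ _ ih₁ ih₂ =>
    obtain ⟨F, hF⟩ := ih₁
    obtain ⟨G, hG⟩ := ih₂
    exact ⟨_, hF.pair hG⟩
  | comp _ _ ih₁ ih₂ =>
    obtain ⟨F, hF⟩ := ih₁
    obtain ⟨G, hG⟩ := ih₂
    exact ⟨_, hF.comp hG⟩
  | prec _ _ ih₁ ih₂ =>
    obtain ⟨F, hF⟩ := ih₁
    obtain ⟨G, hG⟩ := ih₂
    exact ⟨_, hF.prec hG⟩
  | rfind _ ih =>
    obtain ⟨F, hF⟩ := ih
    exact ⟨_, hF.rfind⟩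

/-- The functional is given by a code. -/
theorem Rep.exists_code {A : ℕ → Bool} {f : ℕ →. ℕ} {F : Str → ℕ →. ℕ} (hf : Rep A f F) :
    ∃ e : ℕ, ∀ σ n, (ofNat Code e).eval (encode (σ, n)) = F σ n := by
  obtain ⟨c, hc⟩ := Code.exists_code.1 hf.partrec
  refine ⟨encode c, fun σ n => ?_⟩
  rw [ofNat_encode, hc]
  simp only [encodek, Part.coe_some, Part.bind_some]
  exact Part.map_id' (fun x => rfl) _

end Pool.Agent.Lib.P2f7dfd
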