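import Pool.Agent.Lib.P2f7dfd.Comp
import Pool.Agent.Lib.P2f7dfd.Functional

/-!
# A noncomputable hyperimmune-free member of a countable effectively closed set
-/

namespace Pool.Agent.Lib.P2f7dfd

open Nat.Partrec (Code)
open Nat.Partrec.Code
open Encodable Denumerable

/-- Total computations from `A` halt within computable time bounds. -/
def HIF (A : ℕ → Bool) : Prop :=
  ∀ c : Code, (∀ n : ℕ, ∃ k, (c.eval (encode (res A k, n))).Dom) →
    ∃ h : ℕ → ℕ, Computable h ∧ ∀ n : ℕ, ∃ k, (evaln (h n) c (encode (res A k, n))).isSome = true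

/-- Least number search. -/
theorem computable_find {q : ℕ → ℕ → Bool} (hq : Computable₂ q) (hex : ∀ n, ∃ s, q n s = true) :
    ∃ h : ℕ → ℕ, Computable h ∧ (∀ n, q n (h n) = true) ∧ ∀ n, ∀ m < h n, q n m = false := by
  classical
  refine ⟨fun n => Nat.find (hex n), ?_, fun n => Nat.find_spec (hex n), fun n m hm => ?_⟩
  · refine (Partrec.rfind (p := fun n s => Part.some (q n s)) hq.partrec₂).of_eq_tot fun n => ?_
    rw [Nat.mem_rfind]
    refine ⟨?_, fun {m} hm => ?_⟩
    · rw [Part.mem_some_iff]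
      exact (Nat.find_spec (hex n)).symm
    · rw [Part.mem_some_iff]
      have := Nat.find_min (hex n) hm
      rw [Bool.not_eq_true] at this
      exact this.symm
  · have := Nat.find_min (hex n) hm
    rw [Bool.not_eq_true] at this
    exact this

theorem conv_of_dom {e n : ℕ} {X : ℕ → Bool} {k : ℕ}
    (h : ((ofNat Code e).eval (encode (res X k, n))).Dom) : ∃ s, conv e n (res X k) s = true := by
  obtain ⟨v, hv⟩ := Part.dom_iff_mem.1 h
  obtain ⟨s, hs⟩ := evaln_complete.1 hv
  refine ⟨s, conv_iff.2 ⟨k, (res_length X k).ge, ?_⟩⟩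
  rw [res_take X le_rfl]
  exact Option.isSome_iff_exists.2 ⟨v, hs⟩

theorem evaln_of_conv {e n : ℕ} {X : ℕ → Bool} {σ : Str} (hσ : Pre σ X) {s : ℕ}
    (h : conv e n σ s = true) : ∃ k, (evaln s (ofNat Code e) (encode (res X k, n))).isSome = true := by
  obtain ⟨k, hk, h⟩ := conv_iff.1 h
  refine ⟨k, ?_⟩
  have h1 : σ.take k = res X k := by
    rw [hσ, res_take X hk]
  rw [← h1]
  exact h

theorem exists_bound {c : Code} {A : ℕ → Bool}
    (h : ∀ n : ℕ, ∃ k, (c.eval (encode (res A k, n))).Dom) (N : ℕ) : ∃ M, ∀ n < N, ∃ k, (evaln M c (encode (res A k, n))).isSome = true := by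
  induction N with
  | zero => exact ⟨0, fun n hn => absurd hn (Nat.not_lt_zero n)⟩
  | succ N ih =>
    obtain ⟨M, hM⟩ := ih
    obtain ⟨k, hk⟩ := h N
    obtain ⟨v, hv⟩ := Part.dom_iff_mem.1 hk
    obtain ⟨s, hs⟩ := evaln_complete.1 hv
    refine ⟨max M s, fun n hn => ?_⟩
    rcases Nat.lt_succ_iff_lt_or_eq.1 hn with hn | rfl
    · obtain ⟨j, hj⟩ := hM n hn
      obtain ⟨x, hx⟩ := Option.isSome_iff_exists.1 hj
      exact ⟨j, Option.isSome_iff_exists.2 ⟨x, evaln_mono (le_max_left _ _) hx⟩⟩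
    · exact ⟨k, Option.isSome_iff_exists.2 ⟨v, evaln_mono (le_max_right _ _) hs⟩⟩

theorem computable_search {e ι l s₀ n₀ : ℕ}
    (h : ∀ n ≥ n₀, ∃ s ≥ s₀, (run s).1.length = n ∧
      ∀ i < n, (i = ι ∨ l ≤ i) → conv e n (at' (run s).1 i) s = true) :
    ∃ h' : ℕ → ℕ, Computable h' ∧ ∀ n ≥ n₀, s₀ ≤ h' n ∧ (run (h' n)).1.length = n ∧
      ∀ i < n, (i = ι ∨ l ≤ i) → conv e n (at' (run (h' n)).1 i) (h' n) = true := by
  classical
  have h1 : PrimrecPred fun a : ℕ × ℕ => n₀ ≤ a.1 → (s₀ ≤ a.2 ∧ (run a.2).1.length = a.1 ∧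
      ∀ i < a.1, (i = ι ∨ l ≤ i) → conv e a.1 (at' (run a.2).1 i) a.2 = true) := by
    refine prim_imp (Primrec.nat_le.comp (Primrec.const _) Primrec.fst) ?_
    refine PrimrecPred.and (Primrec.nat_le.comp (Primrec.const _) Primrec.snd) ?_
    refine PrimrecPred.and (Primrec.eq.comp (Primrec.list_length.comp
      (Primrec.fst.comp (primrec_run.comp Primrec.snd))) Primrec.fst) ?_
    refine prim_forall_lt Primrec.fst ?_
    refine prim_imp (PrimrecPred.or (Primrec.eq.comp Primrec.fst (Primrec.const _))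
      (Primrec.nat_le.comp (Primrec.const _) Primrec.fst)) ?_
    refine Primrec.eq.comp ?_ (Primrec.const true)
    have h2 : Primrec fun b : ℕ × (ℕ × ℕ) => b.2.2 := Primrec.snd.comp Primrec.snd
    exact prim_conv (Primrec.const e) (Primrec.fst.comp Primrec.snd)
      (primrec_at.comp (Primrec.fst.comp (primrec_run.comp h2)) Primrec.fst) h2
  have h2 : Primrec₂ fun n s => decide (n₀ ≤ n → (s₀ ≤ s ∧ (run s).1.length = n ∧
      ∀ i < n, (i = ι ∨ l ≤ i) → conv e n (at' (run s).1 i) s = true)) := h1.decide.to₂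
  obtain ⟨h', hh', hh1, -⟩ := computable_find h2.to_comp (fun n => by
    simp only [decide_eq_true_eq]
    by_cases hn : n₀ ≤ n
    · obtain ⟨s, hs, hs'⟩ := h n hn
      exact ⟨s, fun _ => ⟨hs, hs'⟩⟩
    · exact ⟨0, fun h => absurd h hn⟩)
  refine ⟨h', hh', fun n hn => ?_⟩
  have h3 := hh1 n
  simp only [decide_eq_true_eq] at h3
  exact h3 hn

/-- The set of members of the class. -/
def Cls : Set (ℕ → Bool) := Perm.Cl run

theorem exists_hif : Cls.Countable ∧ ∃ A ∈ Cls, HIF A ∧ ¬ Computable A := by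
  obtain ⟨hc, A, hA, hlim, hreq⟩ := exists_main isRun_run conv_mono conv_never
  refine ⟨hc, A, hA, ?_, ?_⟩
  · intro c hc
    obtain ⟨e, rfl⟩ : ∃ e, ofNat Code e = c := ⟨encode c, ofNat_encode c⟩
    rcases hreq e with ⟨n, L, h⟩ | ⟨ι, l, s₀, n₀, h, hAi⟩
    · exfalso
      obtain ⟨k, hk⟩ := hc n
      obtain ⟨s, hs⟩ := conv_of_dom hk
      rw [h A hA rfl k s] at hs
      exact Bool.noConfusion hs
    · obtain ⟨h', hh', hh1⟩ := computable_search h
      obtain ⟨M, hM⟩ := exists_bound hc n₀
      refine ⟨fun n => h' n + M, ?_, fun n => ?_⟩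
      · exact (Primrec.nat_add.to_comp.comp hh' (Computable.const M))
      · by_cases hn : n₀ ≤ n
        · obtain ⟨h1, h2, h3⟩ := hh1 n hn
          obtain ⟨i, hi, hiA⟩ := hA (h' n)
          have h4 := hAi _ h1 i hi hiA
          rw [h2] at hi
          obtain ⟨k, hk⟩ := evaln_of_conv hiA (h3 i hi h4)
          obtain ⟨x, hx⟩ := Option.isSome_iff_exists.1 hk
          exact ⟨k, Option.isSome_iff_exists.2 ⟨x, evaln_mono (Nat.le_add_right _ _) hx⟩⟩
        · obtain ⟨k, hk⟩ := hM n (not_le.1 hn)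
          obtain ⟨x, hx⟩ := Option.isSome_iff_exists.1 hk
          exact ⟨k, Option.isSome_iff_exists.2 ⟨x, evaln_mono (Nat.le_add_left _ _) hx⟩⟩
  · intro hcomp
    -- the functional which converges exactly on the strings which disagree with `A`
    have hf : Computable₂ fun (a : Str × ℕ) (_ : ℕ) => decide (¬ a.1 = res A a.1.length) := by
      have h1 : Computable fun k : ℕ => res A k := by
        have h2 : Computable fun k : ℕ => Nat.rec (motive := fun _ => Str) [] (fun y IH => IH ++ [A y]) k := by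
          refine (Computable.nat_rec (h := fun _ (p : ℕ × Str) => p.2 ++ [A p.1]) Computable.id
            (Computable.const []) ?_ :)
          exact (Primrec.list_concat.to_comp.comp (Computable.snd.comp Computable.snd)
            (hcomp.comp (Computable.fst.comp Computable.snd))).to₂
        refine h2.of_eq fun k => ?_
        induction k with
        | zero => rfl
        | succ k ih =>
          show _ ++ [A k] = _
          rw [ih]
          simp [res, List.range_succ]
      have h3 : Computable fun a : (Str × ℕ) × ℕ => (a.1.1, res A a.1.1.length) :=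
        (Computable.fst.comp Computable.fst).pair
          (h1.comp (Primrec.list_length.to_comp.comp (Computable.fst.comp Computable.fst)))
      have h4 : Primrec fun b : Str × Str => decide (¬ b.1 = b.2) :=
        (PrimrecPred.decide (Primrec.eq.comp Primrec.fst Primrec.snd).not)
      exact (h4.to_comp.comp h3).to₂
    have hp : Partrec fun a : Str × ℕ => Nat.rfind fun _ => Part.some (decide (¬ a.1 = res A a.1.length)) :=
      Partrec.rfind (p := fun (a : Str × ℕ) _ => Part.some (decide (¬ a.1 = res A a.1.length)))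
        hf.partrec₂
    obtain ⟨c, hc⟩ := Code.exists_code.1 hp
    have hdom : ∀ (σ : Str) (n : ℕ), (c.eval (encode (σ, n))).Dom ↔ σ ≠ res A σ.length := by
      intro σ n
      rw [hc]
      simp only [encodek, Part.coe_some, Part.bind_some, Part.map_Dom]
      rw [Nat.rfind_dom]
      simp
    obtain ⟨e, rfl⟩ : ∃ e, ofNat Code e = c := ⟨encode c, ofNat_encode c⟩
    rcases hreq e with ⟨n, L, h⟩ | ⟨ι, l, s₀, n₀, h, hAi⟩
    · obtain ⟨X, hX, hne, hXL⟩ := hlim L
      obtain ⟨j, hj⟩ := Function.ne_iff.1 hne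
      have h1 : res X (j + 1) ≠ res A (res X (j + 1)).length := by
        rw [res_length]
        intro hcon
        apply hj
        have h2 := res_getElem? X (Nat.lt_succ_self j)
        rw [hcon, res_getElem? A (Nat.lt_succ_self j)] at h2
        exact (Option.some.inj h2).symm
      obtain ⟨s, hs⟩ := conv_of_dom ((hdom _ n).2 h1)
      rw [h X hX hXL _ s] at hs
      exact Bool.noConfusion hs
    · obtain ⟨s, hs, hlen, hs'⟩ := h n₀ le_rfl
      obtain ⟨i, hi, hiA⟩ := hA s
      have h4 := hAi _ hs i hi hiA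
      rw [hlen] at hi
      obtain ⟨k, hk⟩ := evaln_of_conv hiA (hs' i hi h4)
      obtain ⟨x, hx⟩ := Option.isSome_iff_exists.1 hk
      have h5 := (hdom _ _).1 (Part.dom_iff_mem.2 ⟨x, evaln_sound hx⟩)
      rw [res_length] at h5
      exact h5 rfl

end Pool.Agent.Lib.P2f7dfd
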