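import Pool.Agent.Lib.P2f7dfd.Run

/-!
# The limit of a run of the stack machine
-/

namespace Pool.Agent.Lib.P2f7dfd

variable {conv : ℕ → ℕ → Str → ℕ → Bool} {S : ℕ → State}

/-- `tl r` is the last stage at which the stack has height (at most) `r`. -/
structure Perm (S : ℕ → State) (tl : ℕ → ℕ) : Prop where
  ht : ∀ r, (S (tl r)).2.length = r
  after : ∀ r, ∀ s > tl r, r < (S s).2.length

theorem exists_perm (hS : IsRun conv S) (hconv : ConvMono conv) (hnever : IsRun.Never conv) :
    ∃ tl, Perm S tl := by
  have key : ∀ r, ∃ t, (S t).2.length = r ∧ ∀ s > t, r < (S s).2.length := by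
    intro r
    obtain ⟨t', ht'⟩ := hS.ht_tendsto hconv hnever (r + 1)
    have h0 : (S 0).2.length ≤ r := by rw [hS.zero]; exact Nat.zero_le _
    -- the last stage with height at most `r`
    let T := (Finset.range (t' + 1)).filter fun s => (S s).2.length ≤ r
    have hne : T.Nonempty := ⟨0, by simp only [T, Finset.mem_filter, Finset.mem_range]; exact ⟨by omega, h0⟩⟩
    let t := T.max' hne
    have ht := Finset.max'_mem T hne
    simp only [T, Finset.mem_filter, Finset.mem_range] at ht
    have hafter : ∀ s > t, r < (S s).2.length := by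
      intro s hs
      by_contra hcon
      have hs' : s < t' := by
        by_contra h
        have := ht' s (not_lt.1 h)
        omega
      have hmem : s ∈ T := by
        simp only [T, Finset.mem_filter, Finset.mem_range]
        exact ⟨by omega, not_lt.1 hcon⟩
      exact absurd (Finset.le_max' T s hmem) (not_le.2 hs)
    refine ⟨t, ?_, hafter⟩
    have h1 := hafter (t + 1) (Nat.lt_succ_self _)
    have h2 := hS.ht_succ_le t
    have h3 : (S t).2.length ≤ r := ht.2
    omega
  choose tl h1 h2 using key
  exact ⟨tl, h1, h2⟩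

/-- The requirement of the `r`-th permanent frame. -/
def pa (S : ℕ → State) (tl : ℕ → ℕ) (r : ℕ) : ℕ := fe (S (tl r + 1)).2 r

/-- The index of the cone of the `r`-th permanent frame. -/
def pi (S : ℕ → State) (tl : ℕ → ℕ) (r : ℕ) : ℕ := fi (S (tl r + 1)).2 r

/-- The vector of the `r`-th permanent frame. -/
def pv (S : ℕ → State) (tl : ℕ → ℕ) (r : ℕ) : Vec := (S (tl r)).1

/-- The cone of the `r`-th permanent frame. -/
def pk (S : ℕ → State) (tl : ℕ → ℕ) (r : ℕ) : Str := at' (pv S tl r) (pi S tl r)

namespace Perm

variable {tl : ℕ → ℕ}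

theorem push (P : Perm S tl) (hS : IsRun conv S) (r : ℕ) : ∃ e i,
    (∀ p j, ¬ CanPop conv (tl r) (S (tl r)) p j) ∧ S (tl r + 1) = doPush (S (tl r)) e i := by
  have h1 := P.ht r
  have h2 := P.after r (tl r + 1) (Nat.lt_succ_self _)
  have hstep := hS.step (tl r)
  generalize S (tl r + 1) = S' at hstep h2 ⊢
  cases hstep with
  | pop p j hc =>
    exfalso
    have hlen : ((S (tl r)).2.take p).length = p := by
      rw [List.length_take]; exact min_eq_left hc.1.le
    change r < ((S (tl r)).2.take p).length at h2
    have := hc.1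
    omega
  | push e i h h' => exact ⟨e, i, h, rfl⟩
  | split h h' =>
    exfalso
    change r < (S (tl r)).2.length at h2
    omega

theorem lt (P : Perm S tl) {r r' : ℕ} (h : r < r') : tl r < tl r' := by
  by_contra hcon
  have h1 := P.ht r
  have h2 := P.ht r'
  rcases (not_lt.1 hcon).eq_or_lt with heq | hlt
  · rw [heq] at h2; omega
  · have := P.after r' _ hlt
    omega

theorem le (P : Perm S tl) {r r' : ℕ} (h : r ≤ r') : tl r ≤ tl r' := by
  rcases h.eq_or_lt with rfl | h
  · exact le_rfl
  · exact (P.lt h).le

theorem le_tl (P : Perm S tl) (r : ℕ) : r ≤ tl r := by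
  induction r with
  | zero => exact Nat.zero_le _
  | succ r ih => exact lt_of_le_of_lt ih (P.lt (Nat.lt_succ_self r))

theorem fr_eq (P : Perm S tl) (hS : IsRun conv S) {r s : ℕ} (hs : tl r < s) :
    fr (S s).2 r = fr (S (tl r + 1)).2 r :=
  hS.fr_persist hs fun u hu _ => P.after r u hu

theorem fe_eq (P : Perm S tl) (hS : IsRun conv S) {r s : ℕ} (hs : tl r < s) :
    fe (S s).2 r = pa S tl r := by unfold pa fe; rw [P.fr_eq hS hs]

theorem fi_eq (P : Perm S tl) (hS : IsRun conv S) {r s : ℕ} (hs : tl r < s) :
    fi (S s).2 r = pi S tl r := by unfold pi fi; rw [P.fr_eq hS hs]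

theorem fv_eq (P : Perm S tl) (hS : IsRun conv S) {r s : ℕ} (hs : tl r < s) :
    fv (S s).2 r = pv S tl r := by
  unfold pv fv
  rw [P.fr_eq hS hs]
  obtain ⟨e, i, -, h⟩ := P.push hS r
  rw [h]
  have h1 : fr (doPush (S (tl r)) e i).2 r = (e, (i, (S (tl r)).1)) := by
    conv_lhs => rw [← P.ht r]
    rw [P.ht r]
    have := fr_append_eq (st := (S (tl r)).2) (f := (e, (i, (S (tl r)).1)))
    rw [P.ht r] at this
    exact this
  rw [h1]

theorem layer_eq (P : Perm S tl) (hS : IsRun conv S) {r s : ℕ} (hs : tl r < s) :
    layer (S s) r = pv S tl r := by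
  rw [layer_of_lt (P.after r s hs), P.fv_eq hS hs]

theorem layer_tl (P : Perm S tl) (r : ℕ) : layer (S (tl r)) r = pv S tl r :=
  layer_of_ge (P.ht r).le

theorem layer_le (P : Perm S tl) (hS : IsRun conv S) {r q : ℕ} (h : r ≤ q) :
    layer (S (tl q)) r = pv S tl r := by
  rcases h.eq_or_lt with rfl | h
  · exact P.layer_tl r
  · exact P.layer_eq hS (P.lt h)

theorem vLe (P : Perm S tl) (hS : IsRun conv S) {r q : ℕ} (h : r ≤ q) :
    VLe (pv S tl r) (pv S tl q) := by
  have h1 := (hS.inv (tl q)).j1' h (by rw [P.ht])
  rwa [P.layer_le hS h, P.layer_tl] at h1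

theorem j2 (P : Perm S tl) (hS : IsRun conv S) {r q : ℕ} (h : r < q)
    (hcond : ∀ p' < q, r < p' → pa S tl r < pa S tl p') {j : ℕ} (hj : j < (pv S tl q).length)
    (hctx : j = pi S tl r ∨ (pv S tl r).length ≤ j) : pk S tl r <+: at' (pv S tl q) j := by
  have hI := hS.inv (tl q)
  have h1 := hI.ctx (p := r) (by rw [P.ht]; exact h) h (by rw [P.ht]) (j := j) ?_
    (by rwa [P.layer_tl]) ?_
  · rw [P.layer_le hS h.le, P.layer_tl, P.fi_eq hS (P.lt h)] at h1
    exact h1
  · intro p' hp' hrp'
    rw [P.fe_eq hS (P.lt h), P.fe_eq hS (P.lt hp')]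
    exact hcond p' hp' hrp'
  · unfold InCtx
    rw [P.fi_eq hS (P.lt h), P.fv_eq hS (P.lt h)]
    exact hctx

theorem j3 (P : Perm S tl) (hS : IsRun conv S) {r q : ℕ} (h : r < q)
    (hcond : ∀ p' ≤ q, r < p' → pa S tl r < pa S tl p') : pk S tl r <+: pk S tl q := by
  have hI := hS.inv (tl q + 1)
  have hlt : tl q < tl q + 1 := Nat.lt_succ_self _
  have hr : tl r < tl q + 1 := (P.lt h).trans hlt
  have h1 := hI.j3 q (P.after q _ hlt) r h ?_
  · rwa [P.layer_eq hS hr, P.layer_eq hS hlt, P.fi_eq hS hr, P.fi_eq hS hlt] at h1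
  · intro p' hp' hrp'
    have hp : tl p' < tl q + 1 := lt_of_le_of_lt (P.le hp') hlt
    rw [P.fe_eq hS hr, P.fe_eq hS hp]
    exact hcond p' hp' hrp'

theorem j4 (P : Perm S tl) (hS : IsRun conv S) {r q : ℕ} (h : r < q)
    (heq : pa S tl r = pa S tl q) : ∃ p' < q, r < p' ∧ pa S tl p' < pa S tl r := by
  have hI := hS.inv (tl q + 1)
  have hlt : tl q < tl q + 1 := Nat.lt_succ_self _
  have hr : tl r < tl q + 1 := (P.lt h).trans hlt
  obtain ⟨p', h1, h2, h3⟩ := hI.j4 q (P.after q _ hlt) r h (by
    rw [P.fe_eq hS hr, P.fe_eq hS hlt]; exact heq)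
  have hp : tl p' < tl q + 1 := (P.lt h1).trans hlt
  rw [P.fe_eq hS hp, P.fe_eq hS hr] at h3
  exact ⟨p', h1, h2, h3⟩

theorem pa_lt (P : Perm S tl) (hS : IsRun conv S) (q : ℕ) : pa S tl q < (pv S tl q).length := by
  have hlt : tl q < tl q + 1 := Nat.lt_succ_self _
  have h := (hS.inv (tl q + 1)).fe_lt q (P.after q _ hlt)
  rwa [P.layer_eq hS hlt] at h

theorem pi_lt (P : Perm S tl) (hS : IsRun conv S) (q : ℕ) : pi S tl q < (pv S tl q).length := by
  have hlt : tl q < tl q + 1 := Nat.lt_succ_self _
  have h := (hS.inv (tl q + 1)).fi_lt q (P.after q _ hlt)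
  rwa [P.layer_eq hS hlt] at h

theorem incomp (P : Perm S tl) (hS : IsRun conv S) (q : ℕ) : Incomp (pv S tl q) := by
  have h := (hS.inv (tl q)).j5 q
  rwa [P.layer_tl] at h

theorem length_at (hS : IsRun conv S) {q l : ℕ} (hl : l < (pv S tl q).length) :
    tl q ≤ (at' (pv S tl q) l).length := hS.length_ge (tl q) l hl

/-- The requirements of the permanent frames tend to infinity. -/
theorem pa_tendsto (P : Perm S tl) (hS : IsRun conv S) (e : ℕ) : ∃ R, ∀ q ≥ R, e ≤ pa S tl q := by
  induction e with
  | zero => exact ⟨0, fun _ _ => Nat.zero_le _⟩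
  | succ e ih =>
    obtain ⟨R, hR⟩ := ih
    by_cases h : ∃ q ≥ R, pa S tl q = e
    · obtain ⟨q, hq, hqe⟩ := h
      refine ⟨q + 1, fun q' hq' => ?_⟩
      have h1 := hR q' (by omega)
      rcases h1.eq_or_lt with heq | hlt
      · exfalso
        obtain ⟨p', h2, h3, h4⟩ := P.j4 hS (r := q) (q := q') (by omega) (by rw [hqe, heq])
        have := hR p' (by omega)
        omega
      · exact hlt
    · push Not at h
      refine ⟨R, fun q hq => ?_⟩
      have h1 := hR q hq
      have h2 := h q hq
      omega

theorem length_tendsto (P : Perm S tl) (hS : IsRun conv S) (n : ℕ) :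
    ∃ R, ∀ q ≥ R, n < (pv S tl q).length := by
  obtain ⟨R, hR⟩ := P.pa_tendsto hS n
  exact ⟨R, fun q hq => lt_of_le_of_lt (hR q hq) (P.pa_lt hS q)⟩

/-- `r` is a true position: all later permanent frames belong to larger requirements. -/
def Good (S : ℕ → State) (tl : ℕ → ℕ) (r : ℕ) : Prop := ∀ r' > r, pa S tl r < pa S tl r'

theorem exists_good (P : Perm S tl) (hS : IsRun conv S) (n : ℕ) : ∃ r ≥ n, Good S tl r := by
  classical
  have hex : ∃ v, ∃ q ≥ n, pa S tl q = v := ⟨_, n, le_rfl, rfl⟩
  obtain ⟨q, hq, hqv⟩ := Nat.find_spec hex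
  have hmin : ∀ q' ≥ n, Nat.find hex ≤ pa S tl q' := fun q' hq' => Nat.find_min' hex ⟨q', hq', rfl⟩
  refine ⟨q, hq, fun r' hr' => ?_⟩
  have h1 := hmin r' (by omega)
  rw [← hqv] at h1
  rcases h1.eq_or_lt with heq | hlt
  · exfalso
    obtain ⟨p', h2, h3, h4⟩ := P.j4 hS hr' heq
    have := hmin p' (by omega)
    omega
  · exact hlt

theorem pk_prefix (P : Perm S tl) (hS : IsRun conv S) {r q : ℕ} (hr : Good S tl r) (h : r ≤ q) :
    pk S tl r <+: pk S tl q := by
  rcases h.eq_or_lt with rfl | h
  · exact List.prefix_rfl
  · exact P.j3 hS h fun p' _ hp' => hr p' hp'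

theorem length_pk (P : Perm S tl) (hS : IsRun conv S) (r : ℕ) : r ≤ (pk S tl r).length :=
  (P.le_tl r).trans (length_at hS (P.pi_lt hS r))

/-- The set of reals which are always covered. -/
def Cl (S : ℕ → State) : Set (ℕ → Bool) := {X | ∀ s, Covers (S s).1 X}

theorem mem_cl_of_infinitely (hS : IsRun conv S) {X : ℕ → Bool}
    (h : ∀ t, ∃ s ≥ t, Covers (S s).1 X) : X ∈ Cl S := by
  intro s
  obtain ⟨s', hs', hX⟩ := h s
  exact hS.covers_le hs' hX

/-- For a permanent index `l`, there is a member of the class in the `l`-th cone. -/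
theorem exists_point (P : Perm S tl) (hS : IsRun conv S) {q l : ℕ} (hl : l < (pv S tl q).length) :
    ∃ X ∈ Cl S, ∀ q' ≥ q, Pre (at' (pv S tl q') l) X := by
  have hlen : ∀ q' ≥ q, l < (pv S tl q').length := fun q' hq' =>
    hl.trans_le (P.vLe hS hq').1
  have hC : ∀ σ ∈ {σ | ∃ q' ≥ q, σ = at' (pv S tl q') l},
      ∀ τ ∈ {σ | ∃ q' ≥ q, σ = at' (pv S tl q') l}, Compat σ τ := by
    rintro σ ⟨q1, hq1, rfl⟩ τ ⟨q2, hq2, rfl⟩
    rcases le_total q1 q2 with h | h
    · exact Or.inl ((P.vLe hS h).2 l (hlen q1 hq1))
    · exact Or.inr ((P.vLe hS h).2 l (hlen q2 hq2))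
  have hub : ∀ n, ∃ σ ∈ {σ | ∃ q' ≥ q, σ = at' (pv S tl q') l}, n < σ.length := by
    intro n
    refine ⟨_, ⟨max q (n + 1), le_max_left _ _, rfl⟩, ?_⟩
    have h1 := length_at hS (hlen (max q (n + 1)) (le_max_left _ _))
    have h2 := P.le_tl (max q (n + 1))
    have h3 := le_max_right q (n + 1)
    omega
  obtain ⟨X, hX⟩ := exists_real _ hC hub
  refine ⟨X, ?_, fun q' hq' => hX _ ⟨q', hq', rfl⟩⟩
  apply mem_cl_of_infinitely hS
  intro t
  refine ⟨tl (max q t), (le_max_right q t).trans (P.le_tl _), l, ?_, ?_⟩
  · exact hlen _ (le_max_left _ _)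
  · exact hX _ ⟨max q t, le_max_left _ _, rfl⟩

/-- The non-isolated point. -/
theorem exists_limit (P : Perm S tl) (hS : IsRun conv S) :
    ∃ A ∈ Cl S, ∀ r, Good S tl r → Pre (pk S tl r) A := by
  have hC : ∀ σ ∈ {σ | ∃ r, Good S tl r ∧ σ = pk S tl r},
      ∀ τ ∈ {σ | ∃ r, Good S tl r ∧ σ = pk S tl r}, Compat σ τ := by
    rintro σ ⟨q1, hq1, rfl⟩ τ ⟨q2, hq2, rfl⟩
    rcases le_total q1 q2 with h | h
    · exact Or.inl (P.pk_prefix hS hq1 h)
    · exact Or.inr (P.pk_prefix hS hq2 h)
  have hub : ∀ n, ∃ σ ∈ {σ | ∃ r, Good S tl r ∧ σ = pk S tl r}, n < σ.length := by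
    intro n
    obtain ⟨r, hr, hg⟩ := P.exists_good hS (n + 1)
    exact ⟨_, ⟨r, hg, rfl⟩, lt_of_lt_of_le (by omega) (P.length_pk hS r)⟩
  obtain ⟨A, hA⟩ := exists_real _ hC hub
  have hA' : ∀ r, Good S tl r → Pre (pk S tl r) A := fun r hr => hA _ ⟨r, hr, rfl⟩
  refine ⟨A, ?_, hA'⟩
  apply mem_cl_of_infinitely hS
  intro t
  obtain ⟨r, hr, hg⟩ := P.exists_good hS t
  exact ⟨tl r, hr.trans (P.le_tl r), pi S tl r, P.pi_lt hS r, hA' r hg⟩

/-- Members of the class outside the cone of a true position are given by an index. -/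
theorem index_of_not_pre (P : Perm S tl) (hS : IsRun conv S) {r : ℕ} (hr : Good S tl r)
    {X : ℕ → Bool} (hX : X ∈ Cl S) (hn : ¬ Pre (pk S tl r) X) :
    ∃ j, ∀ q > r, j < (pv S tl q).length ∧ Pre (at' (pv S tl q) j) X := by
  have key : ∀ q > r, ∃ j < (pv S tl r).length, j < (pv S tl q).length ∧
      Pre (at' (pv S tl q) j) X := by
    intro q hq
    obtain ⟨j, hj, hjX⟩ := hX (tl q)
    refine ⟨j, ?_, hj, hjX⟩
    by_contra hcon
    apply hn
    exact hjX.mono (P.j2 hS hq (fun p' _ hp' => hr p' hp') hj (Or.inr (not_lt.1 hcon)))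
  choose j hj1 hj2 hj3 using key
  refine ⟨j (r + 1) (Nat.lt_succ_self r), fun q hq => ?_⟩
  have heq : j (r + 1) (Nat.lt_succ_self r) = j q hq := by
    have hle : r + 1 ≤ q := hq
    have h1 := (P.vLe hS hle).2 (j q hq) ((hj1 q hq).trans_le (P.vLe hS (Nat.le_succ r)).1)
    have h2 := (hj3 q hq).mono h1
    exact P.incomp hS (r + 1) _ (hj2 _ _) _
      ((hj1 q hq).trans_le (P.vLe hS (Nat.le_succ r)).1) ((hj3 (r + 1) _).compat h2)
  rw [heq]
  exact ⟨hj2 q hq, hj3 q hq⟩

theorem countable_cl (P : Perm S tl) (hS : IsRun conv S) : (Cl S).Countable := by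
  classical
  obtain ⟨A, hA, hAk⟩ := P.exists_limit hS
  have key : ∀ X : {X // X ∈ Cl S ∧ X ≠ A}, ∃ rj : ℕ × ℕ, ∀ q > rj.1,
      rj.2 < (pv S tl q).length ∧ Pre (at' (pv S tl q) rj.2) X.1 := by
    rintro ⟨X, hX, hne⟩
    have hex : ∃ r, Good S tl r ∧ ¬ Pre (pk S tl r) X := by
      by_contra hcon
      push Not at hcon
      apply hne
      apply eq_of_pre_unbounded
      intro n
      obtain ⟨r, hr, hg⟩ := P.exists_good hS (n + 1)
      exact ⟨pk S tl r, lt_of_lt_of_le (by omega) (P.length_pk hS r), hcon r hg, hAk r hg⟩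
    obtain ⟨r, hg, hn⟩ := hex
    obtain ⟨j, hj⟩ := P.index_of_not_pre hS hg hX hn
    exact ⟨(r, j), hj⟩
  choose rj hrj using key
  have hinj : Function.Injective rj := by
    intro X Y hXY
    apply Subtype.ext
    apply eq_of_pre_unbounded
    intro n
    have h1 := hrj X (max (rj X).1 n + 1) (by have := le_max_left (rj X).1 n; omega)
    have h2 := hrj Y (max (rj X).1 n + 1) (by rw [← hXY]; have := le_max_left (rj X).1 n; omega)
    rw [← hXY] at h2
    refine ⟨_, ?_, h1.2, h2.2⟩
    have h3 := length_at hS h1.1
    have h4 := P.le_tl (max (rj X).1 n + 1)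
    have h5 := le_max_right (rj X).1 n
    omega
  have hc : Countable {X // X ∈ Cl S ∧ X ≠ A} := hinj.countable
  have hset : Cl S ⊆ {X | X ∈ Cl S ∧ X ≠ A} ∪ {A} := by
    intro X hX
    by_cases h : X = A
    · exact Or.inr h
    · exact Or.inl ⟨hX, h⟩
  exact ((Set.countable_coe_iff.1 hc).union (Set.countable_singleton A)).mono hset

end Perm

/-- The class of a run is countable, has a non-isolated point `A`, and for every requirement `e`
either there is a level at which `e` diverges on all members of the class close to `A`, or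
`e` converges on `A`, in a computably bounded way. -/
theorem exists_main (hS : IsRun conv S) (hconv : ConvMono conv) (hnever : IsRun.Never conv) :
    (Perm.Cl S).Countable ∧ ∃ A ∈ Perm.Cl S,
      (∀ L, ∃ X ∈ Perm.Cl S, X ≠ A ∧ res X L = res A L) ∧
      ∀ e, (∃ n L, ∀ X ∈ Perm.Cl S, res X L = res A L → ∀ k s, conv e n (res X k) s = false) ∨
        (∃ ι l s₀ n₀, (∀ n ≥ n₀, ∃ s ≥ s₀, (S s).1.length = n ∧
            ∀ i < n, (i = ι ∨ l ≤ i) → conv e n (at' (S s).1 i) s = true) ∧
          ∀ s ≥ s₀, ∀ i < (S s).1.length, Pre (at' (S s).1 i) A → i = ι ∨ l ≤ i) := by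
  classical
  obtain ⟨tl, P⟩ := exists_perm hS hconv hnever
  obtain ⟨A, hA, hAk⟩ := P.exists_limit hS
  refine ⟨P.countable_cl hS, A, hA, ?_, ?_⟩
  · -- `A` is not isolated
    intro L
    obtain ⟨r, hr, hg⟩ := P.exists_good hS L
    obtain ⟨R, hR⟩ := P.length_tendsto hS (pv S tl r).length
    let q := max (r + 1) R
    have hq : r < q := lt_of_lt_of_le (Nat.lt_succ_self r) (le_max_left _ _)
    have hlq : (pv S tl r).length < (pv S tl q).length := hR q (le_max_right _ _)
    have hιq : pi S tl r < (pv S tl q).length := (P.pi_lt hS r).trans hlq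
    obtain ⟨X1, hX1, h1⟩ := P.exists_point hS hιq
    obtain ⟨X2, hX2, h2⟩ := P.exists_point hS hlq
    have hne : X1 ≠ X2 := by
      rintro rfl
      have h3 := (h1 q le_rfl).compat (h2 q le_rfl)
      have h4 := P.incomp hS q _ hιq _ hlq h3
      have h5 := P.pi_lt hS r
      omega
    have hk1 : Pre (pk S tl r) X1 :=
      (h1 q le_rfl).mono (P.j2 hS hq (fun p' _ hp' => hg p' hp') hιq (Or.inl rfl))
    have hk2 : Pre (pk S tl r) X2 :=
      (h2 q le_rfl).mono (P.j2 hS hq (fun p' _ hp' => hg p' hp') hlq (Or.inr le_rfl))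
    have hL : L ≤ (pk S tl r).length := hr.trans (P.length_pk hS r)
    have hres : ∀ X, Pre (pk S tl r) X → res X L = res A L := by
      intro X hX
      have e1 := res_take X hL
      have e2 := res_take A hL
      rw [← hX] at e1
      rw [← hAk r hg] at e2
      rw [← e1, ← e2]
    by_cases h : X1 = A
    · exact ⟨X2, hX2, fun h' => hne (h.trans h'.symm), hres _ hk2⟩
    · exact ⟨X1, hX1, h, hres _ hk1⟩
  · intro e
    -- the last position with requirement at most `e`
    obtain ⟨R₀, hR₀⟩ := P.pa_tendsto hS (e + 1)
    have hex : ∃ R, ∀ q ≥ R, e < pa S tl q := ⟨R₀, fun q hq => hR₀ q hq⟩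
    let r := Nat.find hex
    have hr : ∀ q ≥ r, e < pa S tl q := Nat.find_spec hex
    have hrmin : ∀ m < r, ¬ ∀ q ≥ m, e < pa S tl q := fun m hm => Nat.find_min hex hm
    -- general facts about the frame below position `r`
    have hbelow : 0 < r → pa S tl (r - 1) ≤ e := by
      intro h0
      by_contra hcon
      apply hrmin (r - 1) (by omega)
      intro q hq
      rcases hq.eq_or_lt with rfl | hlt
      · exact not_le.1 hcon
      · exact hr q (by omega)
    have hgood : 0 < r → Perm.Good S tl (r - 1) := by
      intro h0 q hq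
      exact lt_of_le_of_lt (hbelow h0) (hr q (by omega))
    have hinctx : 0 < r → ∀ s > tl (r - 1), ∀ i < (S s).1.length,
        ∀ X, Pre (pk S tl (r - 1)) X → Pre (at' (S s).1 i) X →
        i = pi S tl (r - 1) ∨ (pv S tl (r - 1)).length ≤ i := by
      intro h0 s hs i hi X hXk hX
      by_contra hcon
      push Not at hcon
      have h1 := (hS.inv s).j1' (P.after _ s hs).le le_rfl
      rw [P.layer_eq hS hs, layer_of_ge le_rfl] at h1
      have h2 := hX.mono (h1.2 i hcon.2)
      exact hcon.1 (P.incomp hS (r - 1) _ hcon.2 _ (P.pi_lt hS _) (h2.compat hXk))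
    by_cases hcase : 0 < r ∧ pa S tl (r - 1) = e
    · -- `e` diverges
      obtain ⟨h0, heq⟩ := hcase
      left
      refine ⟨(pv S tl (r - 1)).length, (pk S tl (r - 1)).length, ?_⟩
      intro X hX hres k s
      by_contra hcon
      rw [Bool.not_eq_false] at hcon
      have hXk : Pre (pk S tl (r - 1)) X := by
        unfold Pre
        rw [hres]
        exact hAk _ (hgood h0)
      let q := max r (max k s)
      have hq1 : r ≤ q := le_max_left _ _
      have hq2 : k ≤ q := (le_max_left _ _).trans (le_max_right _ _)
      have hq3 : s ≤ q := (le_max_right _ _).trans (le_max_right _ _)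
      have hlt : tl (r - 1) < tl q := P.lt (by omega)
      obtain ⟨j, hj, hjX⟩ := hX (tl q)
      have hjk : k ≤ (at' (S (tl q)).1 j).length := hq2.trans ((P.le_tl q).trans
        (hS.length_ge (tl q) j hj))
      obtain ⟨e', i', hnp, -⟩ := P.push hS q
      apply hnp (r - 1) j
      refine ⟨by rw [P.ht]; omega, hj, ?_, ?_, ?_⟩
      · intro p hp hpr
        rw [P.ht] at hp
        rw [P.fe_eq hS hlt, P.fe_eq hS (P.lt hp), heq]
        exact hr p (by omega)
      · unfold InCtx
        rw [P.fi_eq hS hlt, P.fv_eq hS hlt]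
        exact hinctx h0 _ hlt j hj X hXk hjX
      · rw [P.fe_eq hS hlt, P.fv_eq hS hlt, heq]
        exact hconv _ _ _ _ _ _ (hjX.res_prefix hjk) (hq3.trans (P.le_tl q)) hcon
    · -- `e` converges, with a computable bound
      right
      have hne : 0 < r → pa S tl (r - 1) < e := by
        intro h0
        have h1 := hbelow h0
        have h2 : pa S tl (r - 1) ≠ e := fun h => hcase ⟨h0, h⟩
        omega
      -- the parameters
      let ι := if 0 < r then pi S tl (r - 1) else 0
      let l := if 0 < r then (pv S tl (r - 1)).length else 0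
      let s₀ := if 0 < r then tl (r - 1) + 1 else 0
      refine ⟨ι, l, s₀, max (e + 1) ((S s₀).1.length), ?_, ?_⟩
      · intro n hn
        have hn1 : e < n := (le_max_left _ _).trans hn
        have hn2 : (S s₀).1.length ≤ n := (le_max_right _ _).trans hn
        obtain ⟨R, hR⟩ := P.length_tendsto hS n
        let q := max r R
        have hq1 : r ≤ q := le_max_left _ _
        have hq2 : n < (pv S tl q).length := hR q (le_max_right _ _)
        have hs₀q : s₀ ≤ tl q := by
          simp only [s₀]
          split_ifs with h0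
          · exact P.lt (by omega)
          · exact Nat.zero_le _
        -- the last stage before `tl q` at which there are at most `n` strings
        let T := (Finset.Icc s₀ (tl q)).filter fun s => (S s).1.length ≤ n
        have hTne : T.Nonempty := ⟨s₀, by
          simp only [T, Finset.mem_filter, Finset.mem_Icc]; exact ⟨⟨le_rfl, hs₀q⟩, hn2⟩⟩
        let s := T.max' hTne
        have hs := Finset.max'_mem T hTne
        simp only [T, Finset.mem_filter, Finset.mem_Icc] at hs
        obtain ⟨⟨hs1, hs2⟩, hs3⟩ := hs
        change s₀ ≤ s at hs1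
        change s ≤ tl q at hs2
        change (S s).1.length ≤ n at hs3
        have hafter : ∀ u, s < u → u ≤ tl q → n < (S u).1.length := by
          intro u hu hu'
          by_contra hcon
          have hmem : u ∈ T := by
            simp only [T, Finset.mem_filter, Finset.mem_Icc]
            exact ⟨⟨by omega, hu'⟩, not_lt.1 hcon⟩
          exact absurd (Finset.le_max' T u hmem) (not_le.2 hu)
        have hsq : s < tl q := by
          rcases hs2.eq_or_lt with h | h
          · exfalso
            rw [h] at hs3
            change (pv S tl q).length ≤ n at hs3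
            omega
          · exact h
        have hN1 := hafter (s + 1) (Nat.lt_succ_self s) hsq
        -- frames at positions at least `r` belong to larger requirements
        have hlarge : ∀ p, r ≤ p → p < (S s).2.length → e < fe (S s).2 p := by
          intro p hrp hp
          by_contra hcon
          have hcon := not_lt.1 hcon
          -- the frame at position `p` is popped before `tl q`
          have hpop : ∃ u, s < u ∧ u ≤ tl q ∧ (S u).2.length ≤ p := by
            by_contra hno
            push Not at hno
            have hper : fr (S (tl q)).2 p = fr (S s).2 p := by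
              refine hS.fr_persist hsq.le fun u hu hu' => ?_
              rcases hu.eq_or_lt with rfl | hlt
              · exact hp
              · exact hno u hlt hu'
            have hpq : p < q := by
              have := hno (tl q) hsq le_rfl
              rwa [P.ht] at this
            have h1 : fe (S s).2 p = pa S tl p := by
              unfold fe
              rw [← hper]
              exact P.fe_eq hS (P.lt hpq)
            have h2 := hr p hrp
            omega
          obtain ⟨hu1, hu2, hu3⟩ := Nat.find_spec hpop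
          set u := Nat.find hpop with hu
          have humin : ∀ v, s < v → v < u → p < (S v).2.length := by
            intro v hv hvu
            by_contra hcon'
            exact Nat.find_min hpop hvu ⟨hv, by omega, not_lt.1 hcon'⟩
          obtain ⟨v, hv⟩ : ∃ v, u = v + 1 := ⟨u - 1, by omega⟩
          have hvp : p < (S v).2.length := by
            rcases Nat.lt_or_ge s v with h | h
            · exact humin v h (by omega)
            · have : v = s := by omega
              rw [this]; exact hp
          have hNu := hafter u hu1 hu2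
          rw [hv] at hNu hu3
          have hstep := hS.step v
          generalize S (v + 1) = S' at hstep hNu hu3
          cases hstep with
          | pop p' j hc =>
            obtain ⟨hp', hj, hact, hctx, -⟩ := hc
            have hlen : ((S v).2.take p').length = p' := by
              rw [List.length_take]; exact min_eq_left hp'.le
            have hpp : p' ≤ p := by
              change ((S v).2.take p').length ≤ p at hu3
              omega
            have h1 := (vLe_pop (hS.inv v) hp' hact hj hctx).2
            have h2 : (doPop (S v) p' j).1.length = (layer (S v) p').length := by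
              show (ext _).length = _
              rw [length_ext, h1]
            rw [h2] at hNu
            -- the layer is the same as at stage `s`
            have h3 : fr (S v).2 p' = fr (S s).2 p' := by
              refine hS.fr_persist (by omega) fun w hw hw' => ?_
              rcases hw.eq_or_lt with rfl | hlt
              · omega
              · exact lt_of_le_of_lt hpp (humin w hlt (by omega))
            have h4 : layer (S v) p' = layer (S s) p' := by
              rw [layer_of_lt hp', layer_of_lt (show p' < (S s).2.length by omega)]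
              unfold fv
              rw [h3]
            have h5 := ((hS.inv s).j1' (p := p') (q := (S s).2.length) (by omega) le_rfl).1
            rw [layer_of_ge le_rfl] at h5
            rw [h4] at hNu
            omega
          | push e' i' h h' =>
            change ((S v).2 ++ [(e', (i', (S v).1))]).length ≤ p at hu3
            rw [List.length_append] at hu3
            omega
          | split h h' =>
            change (S v).2.length ≤ p at hu3
            omega
        -- the step at `s` is a split
        have hstep := hS.step s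
        generalize S (s + 1) = S' at hstep hN1
        cases hstep with
        | pop p j hc =>
          exfalso
          obtain ⟨hp, hj, hact, hctx, -⟩ := hc
          have h1 := (vLe_pop (hS.inv s) hp hact hj hctx).2
          have h2 : (doPop (S s) p j).1.length = (layer (S s) p).length := by
            show (ext _).length = _
            rw [length_ext, h1]
          have h5 := ((hS.inv s).j1' hp.le le_rfl).1
          rw [layer_of_ge le_rfl] at h5
          omega
        | push e' i' h h' =>
          exfalso
          change n < (ext (S s).1).length at hN1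
          rw [length_ext] at hN1
          omega
        | split h h' =>
          change n < (ext (splitVec (S s))).length at hN1
          rw [length_ext, length_splitVec] at hN1
          have hNn : (S s).1.length = n := by omega
          refine ⟨s, hs1, hNn, ?_⟩
          intro i hi hctx
          have h1 := h' e i
          by_contra hcon
          rw [Bool.not_eq_true] at hcon
          apply h1
          refine ⟨by omega, by omega, ?_, by rw [hNn]; exact hcon⟩
          intro p hp htop
          -- `p` must be `r - 1`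
          have hpr : p < r := by
            by_contra hge
            have := hlarge p (not_lt.1 hge) hp
            have := htop.1
            omega
          have h0 : 0 < r := by omega
          have hs₀ : tl (r - 1) < s := by
            simp only [s₀, if_pos h0] at hs1
            omega
          have hpr1 : p = r - 1 := by
            by_contra hne'
            have h2 := htop.2 (r - 1) (P.after (r - 1) s hs₀) (by omega)
            rw [P.fe_eq hS hs₀] at h2
            have := hne h0
            omega
          subst hpr1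
          refine ⟨?_, ?_⟩
          · rw [P.fe_eq hS hs₀]
            exact (hne h0).ne
          · unfold InCtx
            rw [P.fi_eq hS hs₀, P.fv_eq hS hs₀]
            simpa only [ι, l, if_pos h0] using hctx
      · intro s hs i hi hiA
        simp only [ι, l]
        by_cases h0 : 0 < r
        · rw [if_pos h0, if_pos h0]
          have hs₀ : tl (r - 1) < s := by
            simp only [s₀, if_pos h0] at hs
            omega
          exact hinctx h0 s hs₀ i hi A (hAk _ (hgood h0)) hiA
        · rw [if_neg h0, if_neg h0]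
          exact Or.inr (Nat.zero_le _)

end Pool.Agent.Lib.P2f7dfd
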