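import Mathlib

/-!
# A stack machine building a countable effectively closed set

The combinatorial part of the construction of a hyperimmune-free, non-isolated member of a
countable effectively closed subset of Cantor space.
-/

namespace Pool.Agent.Lib.P2f7dfd

/-- Finite binary strings. -/
abbrev Str : Type := List Bool

/-- Vectors of strings. -/
abbrev Vec : Type := List Str

/-- A frame `(e, i, V)` of the stack: requirement `e` works inside the `i`-th cone of the vector
`V`, which was the current vector when the frame was pushed. -/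
abbrev Frame : Type := ℕ × (ℕ × Vec)

/-- A state: the current vector of strings, and the stack (bottom frame first). -/
abbrev State : Type := Vec × List Frame

/-- The initial segment of length `k` of `X`. -/
def res (X : ℕ → Bool) (k : ℕ) : Str := (List.range k).map X

/-- The `l`-th string of a vector. -/
def at' (V : Vec) (l : ℕ) : Str := V.getD l []

/-- The frame at position `p` (from the bottom), with a default value. -/
def fr (st : List Frame) (p : ℕ) : Frame := st.getD p (0, (0, []))

/-- The requirement of the frame at position `p`. -/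
def fe (st : List Frame) (p : ℕ) : ℕ := (fr st p).1

/-- The index of the cone of the frame at position `p`. -/
def fi (st : List Frame) (p : ℕ) : ℕ := (fr st p).2.1

/-- The snapshot of the frame at position `p`. -/
def fv (st : List Frame) (p : ℕ) : Vec := (fr st p).2.2

/-- Append a `0` to all strings. -/
def ext (V : Vec) : Vec := V.map fun σ => σ ++ [false]

/-- The frame at position `p` is active. -/
def Active (st : List Frame) (p : ℕ) : Prop := ∀ q < st.length, p < q → fe st p < fe st q

/-- `i` is in the context of the frame at position `p`. -/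
def InCtx (st : List Frame) (p i : ℕ) : Prop := i = fi st p ∨ (fv st p).length ≤ i

/-- The frame at position `p` is the topmost frame whose requirement is at most `e`. -/
def TopFor (st : List Frame) (e p : ℕ) : Prop := fe st p ≤ e ∧ ∀ q < st.length, p < q → e < fe st q

variable (conv : ℕ → ℕ → Str → ℕ → Bool)

/-- The frame at position `p` can be popped because of the `j`-th string. -/
def CanPop (s : ℕ) (S : State) (p j : ℕ) : Prop :=
  p < S.2.length ∧ j < S.1.length ∧ Active S.2 p ∧ InCtx S.2 p j ∧
    conv (fe S.2 p) (fv S.2 p).length (at' S.1 j) s = true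

/-- The requirement `e` has to act because of the `i`-th string. -/
def Bad (s : ℕ) (S : State) (e i : ℕ) : Prop :=
  e < S.1.length ∧ i < S.1.length ∧
    (∀ p < S.2.length, TopFor S.2 e p → fe S.2 p ≠ e ∧ InCtx S.2 p i) ∧
    conv e S.1.length (at' S.1 i) s = false

/-- The result of a pop. -/
def doPop (S : State) (p j : ℕ) : State :=
  (ext ((S.1.take (fv S.2 p).length).set (fi S.2 p) (at' S.1 j)), S.2.take p)

/-- The result of a push. -/
def doPush (S : State) (e i : ℕ) : State := (ext S.1, S.2 ++ [(e, (i, S.1))])

/-- The index of the string which is split. -/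
def splitIdx (S : State) : ℕ :=
  if S.2.length = 0 then S.1.length - 1
  else if (fv S.2 (S.2.length - 1)).length < S.1.length then S.1.length - 1
  else fi S.2 (S.2.length - 1)

/-- The vector after a split, before the extension by `0`. -/
def splitVec (S : State) : Vec :=
  S.1.set (splitIdx S) (at' S.1 (splitIdx S) ++ [false]) ++ [at' S.1 (splitIdx S) ++ [true]]

/-- The result of a split. -/
def doSplit (S : State) : State := (ext (splitVec S), S.2)

/-- One step of the construction, as a relation. -/
inductive Step (s : ℕ) (S : State) : State → Prop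
  | pop (p j : ℕ) (h : CanPop conv s S p j) : Step s S (doPop S p j)
  | push (e i : ℕ) (h : ∀ p j, ¬ CanPop conv s S p j) (h' : Bad conv s S e i) :
      Step s S (doPush S e i)
  | split (h : ∀ p j, ¬ CanPop conv s S p j) (h' : ∀ e i, ¬ Bad conv s S e i) :
      Step s S (doSplit S)

/-! ## The order on vectors -/

/-- `V'` extends `V`. -/
def VLe (V V' : Vec) : Prop := V.length ≤ V'.length ∧ ∀ l < V.length, at' V l <+: at' V' l

theorem VLe.refl (V : Vec) : VLe V V := ⟨le_rfl, fun _ _ => List.prefix_rfl⟩

theorem VLe.trans {V V' V'' : Vec} (h : VLe V V') (h' : VLe V' V'') : VLe V V'' :=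
  ⟨h.1.trans h'.1, fun l hl => (h.2 l hl).trans (h'.2 l (hl.trans_le h.1))⟩

theorem at'_ext {V : Vec} {l : ℕ} (hl : l < V.length) : at' (ext V) l = at' V l ++ [false] := by
  simp [at', ext, List.getD, hl]

theorem length_ext (V : Vec) : (ext V).length = V.length := by simp [ext]

theorem VLe.ext (V : Vec) : VLe V (ext V) := by
  refine ⟨(length_ext V).ge, fun l hl => ?_⟩
  rw [at'_ext hl]
  exact List.prefix_append _ _

/-- Two strings are compatible if one of them extends the other one. -/
def Compat (σ τ : Str) : Prop := σ <+: τ ∨ τ <+: σ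

theorem Compat.symm {σ τ : Str} (h : Compat σ τ) : Compat τ σ := Or.symm h

theorem Compat.of_prefix {σ σ' τ τ' : Str} (h : Compat σ' τ') (hσ : σ <+: σ') (hτ : τ <+: τ') :
    Compat σ τ := by
  rcases h with h | h
  · exact List.prefix_or_prefix_of_prefix (hσ.trans h) hτ
  · exact List.prefix_or_prefix_of_prefix hσ (hτ.trans h)

/-- The strings of a vector are pairwise incompatible. -/
def Incomp (V : Vec) : Prop :=
  ∀ l < V.length, ∀ l' < V.length, Compat (at' V l) (at' V l') → l = l'

theorem Incomp.of_vLe {V V' : Vec} (h : Incomp V) (hle : VLe V V') (hlen : V'.length = V.length) :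
    Incomp V' := by
  intro l hl l' hl' hc
  rw [hlen] at hl hl'
  exact h l hl l' hl' (hc.of_prefix (hle.2 l hl) (hle.2 l' hl'))

/-! ## Layers -/

/-- The layer `p` of a state: the snapshot of the frame at position `p`, or the current vector. -/
def layer (S : State) (p : ℕ) : Vec := if p < S.2.length then fv S.2 p else S.1

/-- The invariant of the construction. -/
structure Inv (S : State) : Prop where
  pos : ∀ p, 0 < (layer S p).length
  fi_lt : ∀ p < S.2.length, fi S.2 p < (layer S p).length
  fe_lt : ∀ p < S.2.length, fe S.2 p < (layer S p).length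
  j1 : ∀ p < S.2.length, VLe (layer S p) (layer S (p + 1))
  j2 : ∀ p < S.2.length, ∀ q ≤ S.2.length, p < q →
    (∀ p' < q, p < p' → fe S.2 p < fe S.2 p') →
    ∀ j < (layer S q).length, (layer S p).length ≤ j →
      at' (layer S p) (fi S.2 p) <+: at' (layer S q) j
  j3 : ∀ q < S.2.length, ∀ p < q, (∀ p' ≤ q, p < p' → fe S.2 p < fe S.2 p') →
    at' (layer S p) (fi S.2 p) <+: at' (layer S q) (fi S.2 q)
  j4 : ∀ q < S.2.length, ∀ p < q, fe S.2 p = fe S.2 q →
    ∃ p' < q, p < p' ∧ fe S.2 p' < fe S.2 p
  j5 : ∀ p, Incomp (layer S p)

theorem Inv.j1' {S : State} (h : Inv S) {p q : ℕ} (hpq : p ≤ q) (hq : q ≤ S.2.length) :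
    VLe (layer S p) (layer S q) := by
  induction q, hpq using Nat.le_induction with
  | base => exact VLe.refl _
  | succ q hpq ih => exact (ih (by omega)).trans (h.j1 q (by omega))

theorem layer_of_ge {S : State} {p : ℕ} (h : S.2.length ≤ p) : layer S p = S.1 := by
  simp [layer, not_lt.2 h]

theorem layer_of_lt {S : State} {p : ℕ} (h : p < S.2.length) : layer S p = fv S.2 p := by
  simp [layer, h]

theorem fr_take {st : List Frame} {p q : ℕ} (h : q < p) : fr (st.take p) q = fr st q := by
  simp [fr, List.getD, h]

theorem fr_append_lt {st : List Frame} {f : Frame} {q : ℕ} (h : q < st.length) :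
    fr (st ++ [f]) q = fr st q := by
  simp [fr, List.getD, List.getElem?_append_left h]

theorem fr_append_eq {st : List Frame} {f : Frame} : fr (st ++ [f]) st.length = f := by
  simp [fr, List.getD]

/-- Restriction of a state to its first `p` frames. -/
def restrict (S : State) (p : ℕ) : State := (layer S p, S.2.take p)

theorem layer_restrict {S : State} {p q : ℕ} (hp : p ≤ S.2.length) (hq : q ≤ p) :
    layer (restrict S p) q = layer S q := by
  have hlen : (restrict S p).2.length = p := by simp [restrict, hp]
  rcases Nat.lt_or_ge q p with h | h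
  · rw [layer_of_lt (by rw [hlen]; exact h), layer_of_lt (by omega)]
    unfold fv
    rw [show (restrict S p).2 = S.2.take p from rfl, fr_take h]
  · have : q = p := by omega
    subst this
    rw [layer_of_ge (by rw [hlen])]
    rfl

theorem layer_restrict_ge {S : State} {p q : ℕ} (hp : p ≤ S.2.length) (hq : p ≤ q) :
    layer (restrict S p) q = layer S p := by
  have hlen : (restrict S p).2.length = p := by simp [restrict, hp]
  rw [layer_of_ge (by rw [hlen]; exact hq)]
  rfl

theorem Inv.restrict {S : State} (h : Inv S) {p : ℕ} (hp : p ≤ S.2.length) :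
    Inv (restrict S p) := by
  have hlen : (Pool.Agent.Lib.P2f7dfd.restrict S p).2.length = p := by
    simp [Pool.Agent.Lib.P2f7dfd.restrict, hp]
  have hfr : ∀ q < p, fr (Pool.Agent.Lib.P2f7dfd.restrict S p).2 q = fr S.2 q :=
    fun q hq => fr_take hq
  have hfe : ∀ q < p, fe (Pool.Agent.Lib.P2f7dfd.restrict S p).2 q = fe S.2 q :=
    fun q hq => by unfold fe; rw [hfr q hq]
  have hfi : ∀ q < p, fi (Pool.Agent.Lib.P2f7dfd.restrict S p).2 q = fi S.2 q :=
    fun q hq => by unfold fi; rw [hfr q hq]
  refine ⟨?_, ?_, ?_, ?_, ?_, ?_, ?_, ?_⟩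
  · intro q
    rcases le_total q p with hq | hq
    · rw [layer_restrict hp hq]; exact h.pos q
    · rw [layer_restrict_ge hp hq]; exact h.pos p
  · intro q hq
    rw [hlen] at hq
    rw [layer_restrict hp hq.le, hfi q hq]
    exact h.fi_lt q (by omega)
  · intro q hq
    rw [hlen] at hq
    rw [layer_restrict hp hq.le, hfe q hq]
    exact h.fe_lt q (by omega)
  · intro q hq
    rw [hlen] at hq
    rw [layer_restrict hp hq.le, layer_restrict hp hq]
    exact h.j1 q (by omega)
  · intro r hr q hq hrq hcond j hj hj'
    rw [hlen] at hr hq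
    rw [layer_restrict hp hq] at hj ⊢
    rw [layer_restrict hp hr.le] at hj' ⊢
    rw [hfi r hr]
    refine h.j2 r (by omega) q (by omega) hrq ?_ j hj hj'
    intro p' hp' hrp'
    have := hcond p' hp' hrp'
    rwa [hfe r hr, hfe p' (by omega)] at this
  · intro q hq r hrq hcond
    rw [hlen] at hq
    rw [layer_restrict hp (by omega), layer_restrict hp hq.le, hfi r (by omega), hfi q hq]
    refine h.j3 q (by omega) r hrq ?_
    intro p' hp' hrp'
    have := hcond p' hp' hrp'
    rwa [hfe r (by omega), hfe p' (by omega)] at this
  · intro q hq r hrq heq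
    rw [hlen] at hq
    rw [hfe r (by omega), hfe q hq] at heq
    obtain ⟨p', h1, h2, h3⟩ := h.j4 q (by omega) r hrq heq
    exact ⟨p', h1, h2, by rwa [hfe p' (by omega), hfe r (by omega)]⟩
  · intro q
    rcases le_total q p with hq | hq
    · rw [layer_restrict hp hq]; exact h.j5 q
    · rw [layer_restrict_ge hp hq]; exact h.j5 p

theorem layer_mk {V : Vec} {st : List Frame} {q : ℕ} :
    layer (V, st) q = if q < st.length then fv st q else V := rfl

/-- Replace the current vector by an extension of the same length. -/
theorem Inv.extend {V V' : Vec} {st : List Frame} (h : Inv (V, st)) (hle : VLe V V')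
    (hlen : V'.length = V.length) : Inv (V', st) := by
  have hl : ∀ q, q < st.length → layer (V', st) q = layer (V, st) q := by
    intro q hq
    rw [layer_mk, layer_mk, if_pos hq, if_pos hq]
  have hg : ∀ q, st.length ≤ q → layer (V', st) q = V' := fun q hq => layer_of_ge hq
  have hg' : ∀ q, st.length ≤ q → layer (V, st) q = V := fun q hq => layer_of_ge hq
  have hlen' : ∀ q, (layer (V', st) q).length = (layer (V, st) q).length := by
    intro q
    rcases Nat.lt_or_ge q st.length with hq | hq
    · rw [hl q hq]
    · rw [hg q hq, hg' q hq, hlen]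
  have hVle : ∀ q, VLe (layer (V, st) q) (layer (V', st) q) := by
    intro q
    rcases Nat.lt_or_ge q st.length with hq | hq
    · rw [hl q hq]; exact VLe.refl _
    · rw [hg q hq, hg' q hq]; exact hle
  refine ⟨?_, ?_, ?_, ?_, ?_, ?_, ?_, ?_⟩
  · intro q
    rw [hlen']
    exact h.pos q
  · intro q hq
    rw [hlen']
    exact h.fi_lt q hq
  · intro q hq
    rw [hlen']
    exact h.fe_lt q hq
  · intro q hq
    rw [hl q hq]
    exact (h.j1 q hq).trans (hVle _)
  · intro p hp q hq hpq hcond j hj hj'
    rw [hlen'] at hj
    rw [hl p hp] at hj' ⊢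
    exact (h.j2 p hp q hq hpq hcond j hj hj').trans ((hVle q).2 j hj)
  · intro q hq p hpq hcond
    rw [hl p (hpq.trans hq), hl q hq]
    exact h.j3 q hq p hpq hcond
  · exact h.j4
  · intro q
    exact (h.j5 q).of_vLe (hVle q) (hlen' q)

/-! ## Preservation of the invariant -/

theorem state_eta (S : State) : (S.1, S.2) = S := rfl

theorem Inv.ext_cur {S : State} (h : Inv S) : Inv (ext S.1, S.2) :=
  Inv.extend (V := S.1) h (VLe.ext _) (length_ext _)

/-- In the context of an active frame, all strings extend the string of the frame. -/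
theorem Inv.ctx {S : State} (h : Inv S) {p : ℕ} (hp : p < S.2.length) {q : ℕ} (hpq : p < q)
    (hq : q ≤ S.2.length) (hact : ∀ p' < q, p < p' → fe S.2 p < fe S.2 p') {j : ℕ}
    (hj : j < (layer S q).length) (hctx : InCtx S.2 p j) :
    at' (layer S p) (fi S.2 p) <+: at' (layer S q) j := by
  rcases hctx with rfl | hctx
  · exact (h.j1' hpq.le hq).2 _ (h.fi_lt p hp)
  · exact h.j2 p hp q hq hpq hact j hj (by rwa [layer_of_lt hp])

theorem Inv.ctx_cur {S : State} (h : Inv S) {p : ℕ} (hp : p < S.2.length)
    (hact : Active S.2 p) {j : ℕ} (hj : j < S.1.length) (hctx : InCtx S.2 p j) :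
    at' (layer S p) (fi S.2 p) <+: at' S.1 j := by
  have := h.ctx hp hp le_rfl hact (j := j) (by rwa [layer_of_ge le_rfl]) hctx
  rwa [layer_of_ge le_rfl] at this

theorem vLe_pop {S : State} (h : Inv S) {p j : ℕ} (hp : p < S.2.length)
    (hact : Active S.2 p) (hj : j < S.1.length) (hctx : InCtx S.2 p j) :
    VLe (layer S p) ((S.1.take (fv S.2 p).length).set (fi S.2 p) (at' S.1 j)) ∧
      ((S.1.take (fv S.2 p).length).set (fi S.2 p) (at' S.1 j)).length =
        (layer S p).length := by
  have h1 := h.j1' hp.le le_rfl
  rw [layer_of_ge le_rfl] at h1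
  have hlen : ((S.1.take (fv S.2 p).length).set (fi S.2 p) (at' S.1 j)).length =
      (layer S p).length := by
    rw [List.length_set, List.length_take, ← layer_of_lt hp]
    exact min_eq_left h1.1
  refine ⟨⟨hlen.ge, fun l hl => ?_⟩, hlen⟩
  by_cases hli : l = fi S.2 p
  · subst hli
    have : at' ((S.1.take (fv S.2 p).length).set (fi S.2 p) (at' S.1 j)) (fi S.2 p)
        = at' S.1 j := by
      have : fi S.2 p < ((S.1.take (fv S.2 p).length).set (fi S.2 p) (at' S.1 j)).length := by
        rwa [hlen]
      rw [List.length_set] at this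
      simp only [at', List.getD]
      rw [List.getElem?_set_self this]
      rfl
    rw [this]
    exact h.ctx_cur hp hact hj hctx
  · have : at' ((S.1.take (fv S.2 p).length).set (fi S.2 p) (at' S.1 j)) l = at' S.1 l := by
      simp only [at', List.getD]
      rw [List.getElem?_set_ne (Ne.symm hli), List.getElem?_take]
      rw [← layer_of_lt hp, if_pos hl]
    rw [this]
    exact h1.2 l hl

theorem Inv.pop {S : State} (h : Inv S) {p j : ℕ} (hp : p < S.2.length)
    (hact : Active S.2 p) (hj : j < S.1.length) (hctx : InCtx S.2 p j) :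
    Inv (doPop S p j) := by
  obtain ⟨h1, h2⟩ := vLe_pop h hp hact hj hctx
  have h3 : Inv (layer S p, S.2.take p) := h.restrict hp.le
  have h4 := h3.extend h1 h2
  exact Inv.ext_cur h4

theorem Inv.push {s : ℕ} {S : State} (h : Inv S) {e i : ℕ} (hb : Bad conv s S e i) :
    Inv (doPush S e i) := by
  obtain ⟨he, hi, htop, -⟩ := hb
  -- first show the invariant for the state without the extension
  suffices h' : Inv (S.1, S.2 ++ [(e, (i, S.1))]) from
    Inv.extend (V := S.1) h' (VLe.ext _) (length_ext _)
  set st' : List Frame := S.2 ++ [(e, (i, S.1))] with hst'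
  have hlen : st'.length = S.2.length + 1 := by simp [hst']
  have hlt : ∀ q < S.2.length, fr st' q = fr S.2 q := fun q hq => fr_append_lt hq
  have heq : fr st' S.2.length = (e, (i, S.1)) := fr_append_eq
  have hfe : ∀ q < S.2.length, fe st' q = fe S.2 q := fun q hq => by unfold fe; rw [hlt q hq]
  have hfi : ∀ q < S.2.length, fi st' q = fi S.2 q := fun q hq => by unfold fi; rw [hlt q hq]
  have hfe' : fe st' S.2.length = e := by unfold fe; rw [heq]
  have hfi' : fi st' S.2.length = i := by unfold fi; rw [heq]
  have hlay : ∀ q, layer (S.1, st') q = layer S q := by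
    intro q
    rcases lt_trichotomy q S.2.length with hq | hq | hq
    · rw [layer_of_lt (show q < (S.1, st').2.length by simp [hlen]; omega), layer_of_lt hq]
      show fv st' q = fv S.2 q
      unfold fv
      rw [hlt q hq]
    · subst hq
      rw [layer_of_lt (show S.2.length < (S.1, st').2.length by simp [hlen]),
        layer_of_ge le_rfl]
      show fv st' S.2.length = S.1
      unfold fv
      rw [heq]
    · rw [layer_of_ge (show (S.1, st').2.length ≤ q by simp [hlen]; omega), layer_of_ge hq.le]
  have hcur : layer S S.2.length = S.1 := layer_of_ge le_rfl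
  -- the top frame for `e` above a frame with a smaller or equal requirement
  have htop' : ∀ p < S.2.length, fe S.2 p ≤ e → ∃ p', p ≤ p' ∧ p' < S.2.length ∧
      TopFor S.2 e p' := by
    intro p hp hpe
    have hne : ((Finset.range S.2.length).filter fun q => p ≤ q ∧ fe S.2 q ≤ e).Nonempty :=
      ⟨p, by simp [hp, hpe]⟩
    let m := ((Finset.range S.2.length).filter fun q => p ≤ q ∧ fe S.2 q ≤ e).max' hne
    have hm := Finset.max'_mem _ hne
    rw [Finset.mem_filter, Finset.mem_range] at hm
    refine ⟨m, hm.2.1, hm.1, hm.2.2, fun q hq hmq => ?_⟩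
    by_contra hcon
    have : q ∈ (Finset.range S.2.length).filter fun q => p ≤ q ∧ fe S.2 q ≤ e := by
      rw [Finset.mem_filter, Finset.mem_range]
      exact ⟨hq, hm.2.1.trans hmq.le, not_lt.1 hcon⟩
    exact absurd (Finset.le_max' _ _ this) (not_le.2 hmq)
  refine ⟨?_, ?_, ?_, ?_, ?_, ?_, ?_, ?_⟩
  · intro q
    rw [hlay]
    exact h.pos q
  · intro q hq
    rw [hlay]
    show fi st' q < _
    rcases Nat.lt_or_ge q S.2.length with hq' | hq'
    · rw [hfi q hq']
      exact h.fi_lt q hq'
    · have : q = S.2.length := by
        simp only [hlen] at hq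
        omega
      subst this
      rw [hfi', hcur]
      exact hi
  · intro q hq
    rw [hlay]
    show fe st' q < _
    rcases Nat.lt_or_ge q S.2.length with hq' | hq'
    · rw [hfe q hq']
      exact h.fe_lt q hq'
    · have : q = S.2.length := by
        simp only [hlen] at hq
        omega
      subst this
      rw [hfe', hcur]
      exact he
  · intro q hq
    rw [hlay, hlay]
    rcases Nat.lt_or_ge q S.2.length with hq' | hq'
    · exact h.j1 q hq'
    · rw [layer_of_ge hq', layer_of_ge (by omega)]
      exact VLe.refl _
  · intro p hp q hq hpq hcond j hj hj'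
    simp only [hlen] at hp hq
    rw [hlay] at hj hj' ⊢
    rw [hlay]
    show at' (layer S p) (fi st' p) <+: _
    rcases Nat.lt_or_ge p S.2.length with hp' | hp'
    · rw [hfi p hp']
      rcases Nat.lt_or_ge S.2.length q with hq' | hq'
      · -- `q = S.2.length + 1`
        have e1 : layer S q = layer S S.2.length := by
          rw [layer_of_ge hq'.le, layer_of_ge le_rfl]
        rw [e1] at hj ⊢
        refine h.j2 p hp' _ le_rfl hp' ?_ j hj hj'
        intro p' hp'' hpp'
        have := hcond p' (by omega) hpp'
        change fe st' p < fe st' p' at this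
        rwa [hfe p hp', hfe p' hp''] at this
      · refine h.j2 p hp' q hq' hpq ?_ j hj hj'
        intro p' hp'' hpp'
        have := hcond p' hp'' hpp'
        change fe st' p < fe st' p' at this
        rwa [hfe p hp', hfe p' (by omega)] at this
    · have : p = S.2.length := by omega
      subst this
      have : q = S.2.length + 1 := by omega
      subst this
      rw [hcur] at hj'
      rw [layer_of_ge (by omega)] at hj
      exact absurd hj (not_lt.2 hj')
  · intro q hq p hpq hcond
    simp only [hlen] at hq
    rw [hlay, hlay]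
    show at' (layer S p) (fi st' p) <+: at' (layer S q) (fi st' q)
    rcases Nat.lt_or_ge q S.2.length with hq' | hq'
    · rw [hfi p (by omega), hfi q hq']
      refine h.j3 q hq' p hpq ?_
      intro p' hp' hpp'
      have := hcond p' hp' hpp'
      change fe st' p < fe st' p' at this
      rwa [hfe p (by omega), hfe p' (by omega)] at this
    · have : q = S.2.length := by omega
      subst this
      rw [hfi p hpq, hfi', hcur]
      have hep : fe S.2 p < e := by
        have := hcond S.2.length le_rfl hpq
        change fe st' p < fe st' _ at this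
        rwa [hfe p hpq, hfe'] at this
      have hcond' : ∀ p' < S.2.length, p < p' → fe S.2 p < fe S.2 p' := by
        intro p' hp' hpp'
        have := hcond p' hp'.le hpp'
        change fe st' p < fe st' p' at this
        rwa [hfe p hpq, hfe p' hp'] at this
      obtain ⟨p', hpp', hp', htp⟩ := htop' p hpq hep.le
      obtain ⟨hne, hctx⟩ := htop p' hp' htp
      have h1 : at' (layer S p') (fi S.2 p') <+: at' S.1 i := by
        refine h.ctx_cur hp' ?_ hi hctx
        intro q' hq'' hpq'
        exact lt_of_le_of_lt htp.1 (htp.2 q' hq'' hpq')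
      rcases hpp'.eq_or_lt with rfl | hlt'
      · exact h1
      · refine List.IsPrefix.trans ?_ h1
        exact h.j3 p' hp' p hlt' fun r hr hpr => hcond' r (by omega) hpr
  · intro q hq p hpq heq'
    simp only [hlen] at hq
    change fe st' p = fe st' q at heq'
    show ∃ p' < q, p < p' ∧ fe st' p' < fe st' p
    rcases Nat.lt_or_ge q S.2.length with hq' | hq'
    · rw [hfe p (by omega), hfe q hq'] at heq'
      obtain ⟨p', h1, h2, h3⟩ := h.j4 q hq' p hpq heq'
      exact ⟨p', h1, h2, by rwa [hfe p' (by omega), hfe p (by omega)]⟩
    · have : q = S.2.length := by omega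
      subst this
      rw [hfe p hpq, hfe'] at heq'
      obtain ⟨p', hpp', hp', htp⟩ := htop' p hpq heq'.le
      obtain ⟨hne, -⟩ := htop p' hp' htp
      have hlt' : fe S.2 p' < e := lt_of_le_of_ne htp.1 hne
      refine ⟨p', hp', lt_of_le_of_ne hpp' ?_, ?_⟩
      · rintro rfl
        exact hne heq'
      · rw [hfe p' hp', hfe p hpq, heq']
        exact hlt'
  · intro q
    rw [hlay]
    exact h.j5 q

theorem at'_splitVec {S : State} {l : ℕ} (hl : l < S.1.length) :
    at' (splitVec S) l = if l = splitIdx S then at' S.1 l ++ [false] else at' S.1 l := by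
  unfold splitVec at'
  simp only [List.getD]
  rw [List.getElem?_append_left (by simpa using hl)]
  split_ifs with h
  · subst h
    rw [List.getElem?_set_self hl]
    rfl
  · rw [List.getElem?_set_ne (Ne.symm h)]

theorem at'_splitVec_last {S : State} :
    at' (splitVec S) S.1.length = at' S.1 (splitIdx S) ++ [true] := by
  unfold splitVec at'
  simp [List.getD]

theorem length_splitVec {S : State} : (splitVec S).length = S.1.length + 1 := by
  simp [splitVec]

theorem vLe_splitVec (S : State) : VLe S.1 (splitVec S) := by
  refine ⟨by rw [length_splitVec]; omega, fun l hl => ?_⟩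
  rw [at'_splitVec hl]
  split_ifs
  · exact List.prefix_append _ _
  · exact List.prefix_rfl

theorem splitIdx_lt {S : State} (h : Inv S) : splitIdx S < S.1.length := by
  have h0 := h.pos S.2.length
  rw [layer_of_ge le_rfl] at h0
  unfold splitIdx
  split_ifs with h1 h2
  · omega
  · omega
  · have h3 := h.fi_lt (S.2.length - 1) (by omega)
    have h4 := (h.j1' (p := S.2.length - 1) (q := S.2.length) (by omega) le_rfl).1
    rw [layer_of_ge le_rfl] at h4
    omega

theorem splitIdx_ctx {S : State} (h0 : 0 < S.2.length) :
    InCtx S.2 (S.2.length - 1) (splitIdx S) := by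
  unfold splitIdx
  rw [if_neg (by omega)]
  split_ifs with h2
  · right; omega
  · left; rfl

/-- Every string which is split extends the strings of all active frames. -/
theorem prefix_split {S : State} (h : Inv S) {p : ℕ} (hp : p < S.2.length)
    (hact : Active S.2 p) :
    at' (layer S p) (fi S.2 p) <+: at' S.1 (splitIdx S) := by
  have h0 : 0 < S.2.length := by omega
  have h1 : at' (layer S (S.2.length - 1)) (fi S.2 (S.2.length - 1)) <+:
      at' S.1 (splitIdx S) := by
    refine h.ctx_cur (by omega) ?_ (splitIdx_lt h) (splitIdx_ctx h0)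
    intro q hq hq'
    omega
  rcases Nat.lt_or_ge p (S.2.length - 1) with hlt | hge
  · refine List.IsPrefix.trans ?_ h1
    exact h.j3 _ (by omega) p hlt fun p' hp' hpp' => hact p' (by omega) hpp'
  · have : p = S.2.length - 1 := by omega
    rwa [this]

theorem not_compat_false_true (σ : Str) : ¬ Compat (σ ++ [false]) (σ ++ [true]) := by
  rintro (h | h)
  · have := List.IsPrefix.eq_of_length h (by simp)
    simp at this
  · have := List.IsPrefix.eq_of_length h (by simp)
    simp at this

theorem incomp_splitVec {S : State} (h : Inv S) : Incomp (splitVec S) := by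
  have hS : Incomp S.1 := by
    have := h.j5 S.2.length
    rwa [layer_of_ge le_rfl] at this
  have ha := splitIdx_lt h
  have key : ∀ l < S.1.length, ¬ Compat (at' (splitVec S) l) (at' (splitVec S) S.1.length) := by
    intro l hl hc
    rw [at'_splitVec_last, at'_splitVec hl] at hc
    split_ifs at hc with hla
    · subst hla
      exact not_compat_false_true _ hc
    · exact hla (hS l hl _ ha (hc.of_prefix List.prefix_rfl (List.prefix_append _ _)))
  intro l hl l' hl' hc
  rw [length_splitVec] at hl hl'
  rcases Nat.lt_or_ge l S.1.length with h1 | h1 <;>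
    rcases Nat.lt_or_ge l' S.1.length with h2 | h2
  · exact hS l h1 l' h2 (hc.of_prefix ((vLe_splitVec S).2 l h1) ((vLe_splitVec S).2 l' h2))
  · have : l' = S.1.length := by omega
    subst this
    exact absurd hc (key l h1)
  · have : l = S.1.length := by omega
    subst this
    exact absurd hc.symm (key l' h2)
  · omega

theorem Inv.split {S : State} (h : Inv S) : Inv (doSplit S) := by
  suffices h' : Inv (splitVec S, S.2) from
    Inv.extend (V := splitVec S) h' (VLe.ext _) (length_ext _)
  have hl : ∀ q, q < S.2.length → layer (splitVec S, S.2) q = layer S q := by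
    intro q hq
    rw [layer_of_lt hq]
    exact layer_of_lt hq
  have hg : ∀ q, S.2.length ≤ q → layer (splitVec S, S.2) q = splitVec S :=
    fun q hq => layer_of_ge hq
  have hg' : ∀ q, S.2.length ≤ q → layer S q = S.1 := fun q hq => layer_of_ge hq
  have hle : ∀ q, VLe (layer S q) (layer (splitVec S, S.2) q) := by
    intro q
    rcases Nat.lt_or_ge q S.2.length with hq | hq
    · rw [hl q hq]; exact VLe.refl _
    · rw [hg q hq, hg' q hq]; exact vLe_splitVec S
  refine ⟨?_, ?_, ?_, ?_, ?_, ?_, ?_, ?_⟩
  · intro q
    exact (h.pos q).trans_le (hle q).1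
  · intro q hq
    exact (h.fi_lt q hq).trans_le (hle q).1
  · intro q hq
    exact (h.fe_lt q hq).trans_le (hle q).1
  · intro q hq
    rw [hl q hq]
    exact (h.j1 q hq).trans (hle _)
  · intro p hp q hq hpq hcond j hj hj'
    change p < S.2.length at hp
    change q ≤ S.2.length at hq
    rw [hl p hp] at hj' ⊢
    rcases hq.lt_or_eq with hq' | rfl
    · rw [hl q hq'] at hj ⊢
      exact h.j2 p hp q hq hpq hcond j hj hj'
    · rw [hg _ le_rfl] at hj ⊢
      rw [length_splitVec] at hj
      rcases Nat.lt_or_ge j S.1.length with hj1 | hj1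
      · have h1 := h.j2 p hp _ hq hpq hcond j (by rwa [hg' _ le_rfl]) hj'
        rw [hg' _ le_rfl] at h1
        exact h1.trans ((vLe_splitVec S).2 j hj1)
      · have : j = S.1.length := by omega
        subst this
        rw [at'_splitVec_last]
        exact (prefix_split h hp hcond).trans (List.prefix_append _ _)
  · intro q hq p hpq hcond
    change q < S.2.length at hq
    rw [hl q hq, hl p (hpq.trans hq)]
    exact h.j3 q hq p hpq hcond
  · exact h.j4
  · intro q
    rcases Nat.lt_or_ge q S.2.length with hq | hq
    · rw [hl q hq]; exact h.j5 q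
    · rw [hg q hq]; exact incomp_splitVec h

theorem Inv.step {s : ℕ} {S S' : State} (h : Inv S) (hs : Step conv s S S') : Inv S' := by
  cases hs with
  | pop p j hc => exact h.pop hc.1 hc.2.2.1 hc.2.1 hc.2.2.2.1
  | push e i _ hb => exact h.push conv hb
  | split _ _ => exact h.split

/-- The initial state. -/
def init : State := ([[]], [])

theorem inv_init : Inv init := by
  refine ⟨?_, ?_, ?_, ?_, ?_, ?_, ?_, ?_⟩
  · intro p; simp [layer, init]
  · intro p hp; simp [init] at hp
  · intro p hp; simp [init] at hp
  · intro p hp; simp [init] at hp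
  · intro p hp; simp [init] at hp
  · intro p hp; simp [init] at hp
  · intro p hp; simp [init] at hp
  · intro p l hl l' hl' _
    simp [layer, init] at hl hl'
    omega

end Pool.Agent.Lib.P2f7dfd
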