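import Mathlib

/-!
# Total functions recursive in an oracle
-/

namespace Pool.Agent.Lib.P2f7dfd

open Encodable Denumerable

/-- The total function `f` is recursive in the oracles `O`. -/
def RT (O : Set (ℕ →. ℕ)) (f : ℕ → ℕ) : Prop := Nat.RecursiveIn O fun n => Part.some (f n)

variable {O : Set (ℕ →. ℕ)}

theorem RT.of_computable {f : ℕ → ℕ} (hf : Computable f) : RT O f := by
  have h1 : Nat.Partrec fun n => Part.some (f n) := Partrec.nat_iff.1 hf.partrec
  exact h1.recursiveIn

theorem RT.comp {f g : ℕ → ℕ} (hf : RT O f) (hg : RT O g) : RT O fun n => f (g n) := by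
  have h := Nat.RecursiveIn.comp hf hg
  refine h.of_eq fun n => ?_
  simp

theorem RT.pair {f g : ℕ → ℕ} (hf : RT O f) (hg : RT O g) : RT O fun n => Nat.pair (f n) (g n) := by
  have h := Nat.RecursiveIn.pair hf hg
  refine h.of_eq fun n => ?_
  simp [Seq.seq]

theorem RT.prec {f g : ℕ → ℕ} (hf : RT O f) (hg : RT O g) :
    RT O fun p => Nat.rec (f p.unpair.1)
      (fun y IH => g (Nat.pair p.unpair.1 (Nat.pair y IH))) p.unpair.2 := by
  have h := Nat.RecursiveIn.prec hf hg
  refine h.of_eq fun p => ?_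
  simp only
  generalize p.unpair.1 = a
  generalize p.unpair.2 = n
  induction n with
  | zero => rfl
  | succ n ih =>
    simp only at ih ⊢
    rw [ih]
    simp

theorem RT.list {g : ℕ → ℕ} (hg : RT O g) : RT O fun n => encode ((List.range n).map g) := by
  have h1 : RT O fun _ : ℕ => encode ([] : List ℕ) := RT.of_computable (Computable.const _)
  have h2 : RT O fun p : ℕ => encode ((ofNat (List ℕ) p.unpair.2) ++ [p.unpair.1]) := by
    refine RT.of_computable (Primrec.to_comp ?_)
    refine Primrec.encode.comp (Primrec.list_concat.comp ((Primrec.ofNat (List ℕ)).comp ?_) ?_)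
    · exact Primrec.snd.comp Primrec.unpair
    · exact Primrec.fst.comp Primrec.unpair
  have h3 : RT O fun p : ℕ => Nat.pair (g p.unpair.2.unpair.1) p.unpair.2.unpair.2 := by
    refine RT.pair (hg.comp (RT.of_computable (Primrec.to_comp ?_)))
      (RT.of_computable (Primrec.to_comp ?_))
    · exact Primrec.fst.comp (Primrec.unpair.comp (Primrec.snd.comp Primrec.unpair))
    · exact Primrec.snd.comp (Primrec.unpair.comp (Primrec.snd.comp Primrec.unpair))
  have h4 := (RT.prec h1 (h2.comp h3)).comp
    (RT.pair (RT.of_computable (Computable.const 0)) (RT.of_computable Computable.id))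
  refine h4.of_eq fun n => ?_
  congr 1
  simp only [Nat.unpair_pair, id]
  induction n with
  | zero => rfl
  | succ n ih =>
    simp only at ih ⊢
    rw [ih]
    simp [List.range_succ]

theorem RT.uses {g : ℕ → ℕ} (hg : RT O g) {m : ℕ → ℕ} (hm : Computable m)
    {q : ℕ → List ℕ → ℕ} (hq : Computable₂ q) :
    RT O fun x => q x ((List.range (m x)).map g) := by
  have h1 : RT O fun p : ℕ => q p.unpair.1 (ofNat (List ℕ) p.unpair.2) := by
    refine RT.of_computable (hq.comp ?_ ?_)
    · exact (Primrec.fst.comp Primrec.unpair).to_comp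
    · exact ((Primrec.ofNat (List ℕ)).comp (Primrec.snd.comp Primrec.unpair)).to_comp
  have h2 := h1.comp (RT.pair (RT.of_computable Computable.id)
    (hg.list.comp (RT.of_computable hm)))
  refine h2.of_eq fun n => ?_
  simp

theorem RT.search {f : ℕ → ℕ} (hf : RT O f) :
    ∃ φ : ℕ →. ℕ, Nat.RecursiveIn O φ ∧ ∀ a, (φ a).Dom ↔ ∃ n, f (Nat.pair a n) = 0 := by
  refine ⟨_, Nat.RecursiveIn.rfind hf, fun a => ?_⟩
  rw [Nat.rfind_dom]
  constructor
  · rintro ⟨n, hn, -⟩
    refine ⟨n, ?_⟩
    simpa using hn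
  · rintro ⟨n, hn⟩
    refine ⟨n, ?_, fun {m} _ => ?_⟩
    · simpa using hn
    · simp

end Pool.Agent.Lib.P2f7dfd
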