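import Pool.Agent.Lib.P2f7dfd.Delta
import Pool.Agent.Lib.P2f7dfd.RecIn

/-!
# Reals computable from a hyperimmune-free member of a countable effectively closed set are
never continuously random
-/

namespace Pool.Agent.Lib.P2f7dfd

open Nat.Partrec (Code)
open Nat.Partrec.Code
open Encodable Denumerable MeasureTheory Filter Topology

/-! ## All strings of a given length -/

/-- All strings of length `N`. -/
def allStr (N : ℕ) : List Str :=
  Nat.rec [[]] (fun _ l => l.map (fun σ => σ ++ [false]) ++ l.map (fun σ => σ ++ [true])) N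

theorem allStr_succ (N : ℕ) : allStr (N + 1) =
    (allStr N).map (fun σ => σ ++ [false]) ++ (allStr N).map (fun σ => σ ++ [true]) := rfl

theorem length_allStr (N : ℕ) : (allStr N).length = 2 ^ N := by
  induction N with
  | zero => rfl
  | succ N ih =>
    rw [allStr_succ, List.length_append, List.length_map, List.length_map, ih]
    ring

theorem mem_allStr {N : ℕ} {σ : Str} : σ ∈ allStr N ↔ σ.length = N := by
  induction N generalizing σ with
  | zero =>
    show σ ∈ [[]] ↔ _
    simp
  | succ N ih =>
    rw [allStr_succ, List.mem_append, List.mem_map, List.mem_map]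
    constructor
    · rintro (⟨τ, hτ, rfl⟩ | ⟨τ, hτ, rfl⟩)
      · simp [ih.1 hτ]
      · simp [ih.1 hτ]
    · intro h
      have hne : σ ≠ [] := by
        rintro rfl
        simp at h
      have h1 : σ.dropLast.length = N := by
        rw [List.length_dropLast, h]
        rfl
      have h2 := List.dropLast_append_getLast hne
      cases hb : σ.getLast hne with
      | false =>
        rw [hb] at h2
        exact Or.inl ⟨_, ih.2 h1, h2⟩
      | true =>
        rw [hb] at h2
        exact Or.inr ⟨_, ih.2 h1, h2⟩

theorem nodup_allStr (N : ℕ) : (allStr N).Nodup := by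
  induction N with
  | zero =>
    show ([[]] : List Str).Nodup
    simp
  | succ N ih =>
    rw [allStr_succ]
    refine List.Nodup.append (ih.map ?_) (ih.map ?_) ?_
    · intro σ τ h
      exact (List.append_left_inj _).1 h
    · intro σ τ h
      exact (List.append_left_inj _).1 h
    · intro σ h1 h2
      rw [List.mem_map] at h1 h2
      obtain ⟨τ, -, rfl⟩ := h1
      obtain ⟨τ', -, h⟩ := h2
      have h3 := congrArg List.getLast? h
      simp at h3

theorem primrec_allStr : Primrec allStr := by
  refine Primrec.nat_rec₁ (f := fun (_ : ℕ) (l : List Str) =>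
    l.map (fun σ => σ ++ [false]) ++ l.map (fun σ => σ ++ [true])) _ ?_
  have h : ∀ b : Bool, Primrec fun a : ℕ × List Str => a.2.map (fun σ => σ ++ [b]) := fun b =>
    Primrec.list_map Primrec.snd (Primrec.list_concat.comp Primrec.snd (Primrec.const b)).to₂
  exact (Primrec.list_append.comp (h false) (h true)).to₂

/-! ## Cylinders -/

/-- The cylinder of a string. -/
def cyl (σ : Str) : Set (ℕ → Bool) := {X | Pre σ X}

theorem mem_cyl_iff {σ : Str} {X : ℕ → Bool} : X ∈ cyl σ ↔ ∀ i < σ.length, σ.getD i false = X i := by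
  constructor
  · intro h i hi
    have h1 := Pre.getElem? h hi
    simp [List.getD, h1]
  · intro h
    show σ = res X σ.length
    apply List.ext_getElem
    · rw [res_length]
    · intro i hi hi'
      have h1 := h i hi
      simp only [List.getD_eq_getElem?_getD, List.getElem?_eq_getElem hi, Option.getD_some] at h1
      rw [h1]
      simp [res]

theorem measurableSet_cyl (σ : Str) : MeasurableSet (cyl σ) := by
  have h : cyl σ = ⋂ i ∈ Finset.range σ.length, {X | X i = σ.getD i false} := by
    ext X
    rw [mem_cyl_iff]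
    simp [eq_comm]
  rw [h]
  refine Finset.measurableSet_biInter _ fun i _ => ?_
  exact (measurable_pi_apply i : Measurable fun X : ℕ → Bool => X i)
    (MeasurableSet.singleton (σ.getD i false))

/-- The real extending a string by zeros. -/
def ext0 (σ : Str) : ℕ → Bool := fun n => σ.getD n false

theorem pre_ext0 (σ : Str) : Pre σ (ext0 σ) := by
  have : ext0 σ ∈ cyl σ := mem_cyl_iff.2 fun i _ => rfl
  exact this

theorem res_eq_of_pre {σ : Str} {X : ℕ → Bool} (h : Pre σ X) {k : ℕ} (hk : k ≤ σ.length) :
    σ.take k = res X k := by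
  rw [h, res_take X hk]

/-! ## The approximation of the image -/

section

variable (h : ℕ → ℕ) (c : Code)

/-- The time bound. -/
def mx (N : ℕ) : ℕ := Nat.rec 0 (fun y IH => IH + h y + 1) N

theorem mx_succ (N : ℕ) : mx h (N + 1) = mx h N + h N + 1 := rfl

theorem mx_mono {N M : ℕ} (hNM : N ≤ M) : mx h N ≤ mx h M := by
  induction M, hNM using Nat.le_induction with
  | base => exact le_rfl
  | succ M _ ih => rw [mx_succ]; omega

theorem le_mx (N : ℕ) : N ≤ mx h N := by
  induction N with
  | zero => exact Nat.zero_le _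
  | succ N ih => rw [mx_succ]; omega

theorem h_le_mx {n N : ℕ} (hn : n < N) : h n ≤ mx h N := by
  have h1 := mx_mono h (Nat.succ_le_of_lt hn)
  rw [mx_succ] at h1
  omega

/-- The value of the functional on `Z` at the argument `n`. -/
def V (Z : ℕ → Bool) (n v : ℕ) : Prop := ∃ k, evaln (h n) c (encode (res Z k, n)) = some v

theorem V.congr {Z Z' : ℕ → Bool} {n v : ℕ} (hv : V h c Z n v) (hZ : res Z (h n) = res Z' (h n)) :
    V h c Z' n v := by
  obtain ⟨k, hk⟩ := hv
  refine ⟨k, ?_⟩
  have h1 := evaln_bound (Option.mem_def.2 hk)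
  have h2 := encode_pair_ge (res Z k) n
  rw [res_length] at h2
  have h3 : k ≤ h n := by omega
  rw [← res_take Z' h3, ← hZ, res_take Z h3]
  exact hk

/-- The `N`-th approximation of the image. -/
def U (N : ℕ) : Set (ℕ → Bool) :=
  {Y | ∃ Z, Covers (run (mx h N)).1 Z ∧ ∀ n < N, V h c Z n (Y n).toNat}

theorem U_anti : Antitone (U h c) := by
  intro N M hNM Y hY
  obtain ⟨Z, hZ, hV⟩ := hY
  exact ⟨Z, isRun_run.covers_le (mx_mono h hNM) hZ, fun n hn => hV n (hn.trans_le hNM)⟩

theorem iInter_U_subset : (⋂ N, U h c N) ⊆ ⋃ X ∈ Cls, {Y | ∀ n, V h c X n (Y n).toNat} := by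
  intro Y hY
  rw [Set.mem_iInter] at hY
  choose Z hZ hV using hY
  obtain ⟨X, -, φ, hφ, hlim⟩ := isCompact_univ.tendsto_subseq (x := Z) (fun n => Set.mem_univ _)
  have hres : ∀ L, ∃ i₀, ∀ i ≥ i₀, res (Z (φ i)) L = res X L := by
    intro L
    induction L with
    | zero => exact ⟨0, fun i _ => rfl⟩
    | succ L ih =>
      obtain ⟨i₀, hi₀⟩ := ih
      have h1 := tendsto_pi_nhds.1 hlim L
      rw [nhds_discrete, tendsto_pure] at h1
      obtain ⟨i₁, hi₁⟩ := eventually_atTop.1 h1
      refine ⟨max i₀ i₁, fun i hi => ?_⟩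
      have h2 : ∀ X : ℕ → Bool, res X (L + 1) = res X L ++ [X L] := by
        intro X
        simp [res, List.range_succ]
      rw [h2, h2, hi₀ i ((le_max_left _ _).trans hi)]
      have h3 := hi₁ i ((le_max_right _ _).trans hi)
      simp only [Function.comp] at h3
      rw [h3]
  simp only [Set.mem_iUnion, Set.mem_ofPred_eq]
  refine ⟨X, ?_, ?_⟩
  · intro s
    obtain ⟨i₀, hi₀⟩ := hres (((run s).1.map List.length).sum)
    let i := max i₀ s
    have h1 : s ≤ mx h (φ i) := by
      have h2 := le_mx h (φ i)
      have h3 := hφ.id_le i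
      have h4 : s ≤ i := le_max_right _ _
      simp only [id] at h3
      omega
    obtain ⟨l, hl, hpre⟩ := isRun_run.covers_le h1 (hZ (φ i))
    refine ⟨l, hl, ?_⟩
    have h5 : (at' (run s).1 l).length ≤ ((run s).1.map List.length).sum := by
      refine List.single_le_sum (fun x _ => Nat.zero_le x) _ ?_
      refine List.mem_map.2 ⟨_, ?_, rfl⟩
      unfold at'
      rw [List.getD_eq_getElem?_getD, List.getElem?_eq_getElem hl]
      exact List.getElem_mem hl
    show at' (run s).1 l = res X (at' (run s).1 l).length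
    rw [← res_take X h5, ← hi₀ i (le_max_left _ _), res_take _ h5]
    exact hpre
  · intro n
    obtain ⟨i₀, hi₀⟩ := hres (h n)
    let i := max i₀ (n + 1)
    have h1 : n < φ i := by
      have h3 := hφ.id_le i
      have h4 : n + 1 ≤ i := le_max_right _ _
      simp only [id] at h3
      omega
    exact (hV (φ i) n h1).congr h c (hi₀ i (le_max_left _ _))

/-! ## The computable description of the approximations -/

/-- The list of the time bounds. -/
def hl (N : ℕ) : List ℕ := Nat.rec [] (fun y IH => IH ++ [h y]) N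

theorem length_hl (N : ℕ) : (hl h N).length = N := by
  induction N with
  | zero => rfl
  | succ N ih =>
    show (hl h N ++ [h N]).length = N + 1
    rw [List.length_append, ih]
    rfl

theorem hl_getD {n N : ℕ} (hn : n < N) : (hl h N).getD n 0 = h n := by
  induction N with
  | zero => exact absurd hn (Nat.not_lt_zero n)
  | succ N ih =>
    show (hl h N ++ [h N]).getD n 0 = h n
    rcases Nat.lt_succ_iff_lt_or_eq.1 hn with hn | rfl
    · rw [List.getD_append _ _ _ _ (by rw [length_hl]; exact hn)]
      exact ih hn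
    · rw [List.getD_append_right _ _ _ _ (by rw [length_hl])]
      simp [length_hl]

theorem computable_hl (hh : Computable h) : Computable (hl h) := by
  refine (Computable.nat_rec (h := fun _ (p : ℕ × List ℕ) => p.2 ++ [h p.1]) Computable.id
    (Computable.const []) ?_ :)
  exact (Primrec.list_concat.to_comp.comp (Computable.snd.comp Computable.snd)
    (hh.comp (Computable.fst.comp Computable.snd))).to₂

theorem computable_mx (hh : Computable h) : Computable (mx h) := by
  refine (Computable.nat_rec (h := fun _ (p : ℕ × ℕ) => p.2 + h p.1 + 1) Computable.id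
    (Computable.const 0) ?_ :)
  exact (Primrec.succ.to_comp.comp (Primrec.nat_add.to_comp.comp
    (Computable.snd.comp Computable.snd) (hh.comp (Computable.fst.comp Computable.snd)))).to₂

/-- The string `β` is the image of a living string; the arguments are the length, the stage, and
the list of time bounds. -/
def DP (a : ℕ × (ℕ × List ℕ)) (β : Str) : Prop :=
  ∃ i < (run a.2.1).1.length, ∀ n < a.1, ∃ k < (at' (run a.2.1).1 i).length + 1,
    evaln (a.2.2.getD n 0) c (encode ((at' (run a.2.1).1 i).take k, n)) =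
      some ((β.getD n false).toNat)

theorem prim_DP : PrimrecRel fun (β : Str) (a : ℕ × (ℕ × List ℕ)) => DP c a β := by
  have hr : Primrec fun a : ℕ × (ℕ × List ℕ) => (run a.2.1).1 :=
    Primrec.fst.comp (primrec_run.comp (Primrec.fst.comp Primrec.snd))
  have hrl : Primrec fun x : Str × (ℕ × (ℕ × List ℕ)) => (run x.2.2.1).1.length :=
    Primrec.list_length.comp (hr.comp Primrec.snd)
  suffices hmain : PrimrecPred fun x : Str × (ℕ × (ℕ × List ℕ)) => DP c x.2 x.1 from hmain
  refine prim_exists_lt hrl ?_
  have hl : Primrec fun b : ℕ × (Str × (ℕ × (ℕ × List ℕ))) => b.2.2.1 :=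
    Primrec.fst.comp (Primrec.snd.comp Primrec.snd)
  refine prim_forall_lt hl ?_
  -- n, i, (β, a)
  have hs : Primrec fun b : ℕ × (ℕ × (Str × (ℕ × (ℕ × List ℕ)))) =>
      at' (run b.2.2.2.2.1).1 b.2.1 :=
    primrec_at.comp (hr.comp (Primrec.snd.comp (Primrec.snd.comp Primrec.snd)))
      (Primrec.fst.comp Primrec.snd)
  refine prim_exists_lt (Primrec.succ.comp (Primrec.list_length.comp hs)) ?_
  have ha : Primrec fun b : ℕ × (ℕ × (ℕ × (Str × (ℕ × (ℕ × List ℕ))))) => b.2.2.2.2 :=
    Primrec.snd.comp (Primrec.snd.comp (Primrec.snd.comp Primrec.snd))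
  have hn : Primrec fun b : ℕ × (ℕ × (ℕ × (Str × (ℕ × (ℕ × List ℕ))))) => b.2.1 :=
    Primrec.fst.comp Primrec.snd
  have hβ : Primrec fun b : ℕ × (ℕ × (ℕ × (Str × (ℕ × (ℕ × List ℕ))))) => b.2.2.2.1 :=
    Primrec.fst.comp (Primrec.snd.comp (Primrec.snd.comp Primrec.snd))
  refine Primrec.eq.comp (Code.primrec_evaln.comp (Primrec.pair (Primrec.pair ?_
    (Primrec.const c)) (Primrec.encode.comp (Primrec.pair ?_ hn)))) ?_
  · exact (Primrec.list_getD 0).comp (Primrec.snd.comp (Primrec.snd.comp ha)) hn
  · exact Primrec.list_take.comp Primrec.fst (hs.comp Primrec.snd)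
  · exact Primrec.option_some.comp ((Primrec.dom_bool Bool.toNat).comp
      ((Primrec.list_getD false).comp hβ hn))

open scoped Classical in
/-- The list of the strings `β` of length `N` which are images of living strings. -/
noncomputable def D (N : ℕ) : List Str :=
  (allStr N).filter fun β => decide (DP c (N, (mx h N, hl h N)) β)

theorem computable_D (hh : Computable h) : Computable (D h c) := by
  classical
  have h1 : Primrec fun a : ℕ × (ℕ × List ℕ) =>
      (allStr a.1).filter fun β => decide (DP c a β) :=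
    (prim_DP c).listFilter.comp (primrec_allStr.comp Primrec.fst) Primrec.id
  have h2 : Computable fun N => (N, (mx h N, hl h N)) :=
    Computable.id.pair ((computable_mx h hh).pair (computable_hl h hh))
  refine (h1.to_comp.comp h2).of_eq fun N => ?_
  unfold D
  congr

theorem mem_D {N : ℕ} {β : Str} : β ∈ D h c N ↔
    β.length = N ∧ DP c (N, (mx h N, hl h N)) β := by
  classical
  unfold D
  rw [List.mem_filter, mem_allStr, decide_eq_true_eq]

theorem nodup_D (N : ℕ) : (D h c N).Nodup := by
  unfold D
  exact (nodup_allStr N).filter _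

theorem length_D (N : ℕ) : (D h c N).length ≤ 2 ^ N := by
  unfold D
  exact (List.length_filter_le _ _).trans (length_allStr N).le

theorem mem_U_iff {N : ℕ} {Y : ℕ → Bool} : Y ∈ U h c N ↔ res Y N ∈ D h c N := by
  rw [mem_D]
  have hY : ∀ n < N, (res Y N).getD n false = Y n := by
    intro n hn
    rw [List.getD_eq_getElem?_getD, res_getElem? Y hn]
    rfl
  constructor
  · rintro ⟨Z, ⟨i, hi, hZ⟩, hV⟩
    refine ⟨res_length _ _, i, hi, fun n hn => ?_⟩
    simp only at hn ⊢
    obtain ⟨k, hk⟩ := hV n hn
    have h1 := evaln_bound (Option.mem_def.2 hk)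
    have h2 := encode_pair_ge (res Z k) n
    rw [res_length] at h2
    have h3 := h_le_mx h hn
    have h4 := isRun_run.length_ge (mx h N) i hi
    refine ⟨k, by omega, ?_⟩
    rw [hl_getD h hn, res_eq_of_pre hZ (by omega), hY n hn]
    exact hk
  · rintro ⟨-, i, hi, hD⟩
    refine ⟨ext0 (at' (run (mx h N)).1 i), ⟨i, hi, pre_ext0 _⟩, fun n hn => ?_⟩
    obtain ⟨k, hk, hk'⟩ := hD n hn
    simp only at hk'
    rw [hl_getD h hn, hY n hn, res_eq_of_pre (pre_ext0 _) (Nat.lt_succ_iff.1 hk)] at hk'
    exact ⟨k, hk'⟩

theorem U_eq (N : ℕ) : U h c N = ⋃ β ∈ (D h c N).toFinset, cyl β := by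
  ext Y
  rw [mem_U_iff]
  simp only [Set.mem_iUnion, List.mem_toFinset, exists_prop]
  constructor
  · intro hY
    exact ⟨_, hY, pre_res Y N⟩
  · rintro ⟨β, hβ, hY⟩
    have h1 : β = res Y β.length := hY
    rw [((mem_D h c).1 hβ).1] at h1
    rw [← h1]
    exact hβ

theorem measurableSet_U (N : ℕ) : MeasurableSet (U h c N) := by
  rw [U_eq]
  exact Finset.measurableSet_biUnion _ fun β _ => measurableSet_cyl β

theorem measure_U (μ : Measure (ℕ → Bool)) [IsProbabilityMeasure μ] (N : ℕ) :
    μ.real (U h c N) = ((D h c N).map fun β => μ.real (cyl β)).sum := by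
  rw [U_eq, measureReal_biUnion_finset]
  · exact List.sum_toFinset _ (nodup_D h c N)
  · intro β hβ β' hβ' hne
    rw [Function.onFun, Set.disjoint_left]
    intro X hX hX'
    apply hne
    simp only [List.coe_toFinset, Set.mem_ofPred_eq] at hβ hβ'
    have h1 : β = res X β.length := hX
    have h2 : β' = res X β'.length := hX'
    rw [((mem_D h c).1 hβ).1] at h1
    rw [((mem_D h c).1 hβ').1] at h2
    rw [h1, h2]
  · intro β _
    exact measurableSet_cyl β

end

end Pool.Agent.Lib.P2f7dfd
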