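import Pool.Agent.Lib.P2f7dfd.Machine

/-!
# Infinite runs of the stack machine

The limit behaviour: permanent frames, the non-isolated point, countability, and the requirements.
-/

namespace Pool.Agent.Lib.P2f7dfd

/-! ## Initial segments of reals -/

theorem res_length (X : ℕ → Bool) (k : ℕ) : (res X k).length = k := by simp [res]

theorem res_take (X : ℕ → Bool) {j k : ℕ} (h : j ≤ k) : (res X k).take j = res X j := by
  simp [res, ← List.map_take, List.take_range, h]

theorem res_prefix (X : ℕ → Bool) {j k : ℕ} (h : j ≤ k) : res X j <+: res X k := by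
  rw [← res_take X h]
  exact List.take_prefix _ _

theorem res_getElem? (X : ℕ → Bool) {j k : ℕ} (h : j < k) : (res X k)[j]? = some (X j) := by
  simp [res, h]

/-- The string `σ` is an initial segment of `X`. -/
def Pre (σ : Str) (X : ℕ → Bool) : Prop := σ = res X σ.length

theorem pre_res (X : ℕ → Bool) (k : ℕ) : Pre (res X k) X := by
  unfold Pre; rw [res_length]

theorem Pre.mono {σ τ : Str} {X : ℕ → Bool} (h : Pre σ X) (hτ : τ <+: σ) : Pre τ X := by
  unfold Pre at h ⊢
  have h1 : τ = σ.take τ.length := List.prefix_iff_eq_take.1 hτ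
  have h2 := res_take X hτ.length_le
  rw [← h] at h2
  rw [h2] at h1
  exact h1

theorem Pre.compat {σ τ : Str} {X : ℕ → Bool} (h : Pre σ X) (h' : Pre τ X) : Compat σ τ := by
  rw [h, h']
  rcases le_total σ.length τ.length with hl | hl
  · exact Or.inl (res_prefix X hl)
  · exact Or.inr (res_prefix X hl)

theorem Pre.res_prefix {σ : Str} {X : ℕ → Bool} (h : Pre σ X) {k : ℕ} (hk : k ≤ σ.length) :
    res X k <+: σ := by
  rw [h]
  exact Pool.Agent.Lib.P2f7dfd.res_prefix X hk

theorem Pre.getElem? {σ : Str} {X : ℕ → Bool} (h : Pre σ X) {n : ℕ} (hn : n < σ.length) :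
    σ[n]? = some (X n) := by
  rw [h]
  exact res_getElem? X hn

/-- A chain of strings of unbounded length has a limit. -/
theorem exists_real (C : Set Str) (hC : ∀ σ ∈ C, ∀ τ ∈ C, Compat σ τ)
    (hub : ∀ n, ∃ σ ∈ C, n < σ.length) : ∃ X : ℕ → Bool, ∀ σ ∈ C, Pre σ X := by
  choose c hcC hcl using hub
  refine ⟨fun n => (c n).getD n false, fun σ hσ => ?_⟩
  unfold Pre
  apply List.ext_getElem?
  intro n
  rcases Nat.lt_or_ge n σ.length with hn | hn
  · rw [res_getElem? _ hn]
    have h1 : (c n)[n]? = some ((c n).getD n false) := by
      simp [List.getD, hcl n]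
    rw [← h1]
    rcases hC σ hσ (c n) (hcC n) with h | h
    · obtain ⟨t, ht⟩ := h
      rw [← ht, List.getElem?_append_left hn]
    · obtain ⟨t, ht⟩ := h
      rw [← ht, List.getElem?_append_left (hcl n)]
  · rw [List.getElem?_eq_none hn, List.getElem?_eq_none (by rw [res_length]; exact hn)]

theorem eq_of_pre_unbounded {X Y : ℕ → Bool} (h : ∀ n, ∃ σ : Str, n < σ.length ∧ Pre σ X ∧ Pre σ Y) :
    X = Y := by
  funext n
  obtain ⟨σ, hn, hX, hY⟩ := h n
  have h1 := hX.getElem? hn
  have h2 := hY.getElem? hn
  rw [h1] at h2
  exact Option.some_injective _ h2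

/-- `X` lies in one of the cones of the vector `V`. -/
def Covers (V : Vec) (X : ℕ → Bool) : Prop := ∃ l < V.length, Pre (at' V l) X

/-! ## Runs -/

/-- The convergence predicate is monotone in the string and in time. -/
def ConvMono (conv : ℕ → ℕ → Str → ℕ → Bool) : Prop :=
  ∀ e n σ τ s t, σ <+: τ → s ≤ t → conv e n σ s = true → conv e n τ t = true

/-- A run of the machine. -/
structure IsRun (conv : ℕ → ℕ → Str → ℕ → Bool) (S : ℕ → State) : Prop where
  zero : S 0 = init
  step : ∀ s, Step conv s (S s) (S (s + 1))

variable {conv : ℕ → ℕ → Str → ℕ → Bool} {S : ℕ → State}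

namespace IsRun

theorem inv (hS : IsRun conv S) (s : ℕ) : Inv (S s) := by
  induction s with
  | zero => rw [hS.zero]; exact inv_init
  | succ s ih => exact ih.step conv (hS.step s)

theorem length_pos (hS : IsRun conv S) (s : ℕ) : 0 < (S s).1.length := by
  have := (hS.inv s).pos (S s).2.length
  rwa [layer_of_ge le_rfl] at this

theorem length_ge_ext {V : Vec} {s : ℕ} (h : ∀ l < V.length, s ≤ (at' V l).length) :
    ∀ l < (ext V).length, s + 1 ≤ (at' (ext V) l).length := by
  intro l hl
  rw [length_ext] at hl
  rw [at'_ext hl, List.length_append]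
  have := h l hl
  simp
  omega

theorem length_ge (hS : IsRun conv S) (s : ℕ) :
    ∀ l < (S s).1.length, s ≤ (at' (S s).1 l).length := by
  induction s with
  | zero => intro l _; exact Nat.zero_le _
  | succ s ih =>
    have hI := hS.inv s
    have hstep := hS.step s
    generalize S (s + 1) = S' at hstep ⊢
    cases hstep with
    | pop p j h =>
      obtain ⟨hp, hj, hact, hctx, -⟩ := h
      apply length_ge_ext
      obtain ⟨h1, h2⟩ := vLe_pop hI hp hact hj hctx
      intro l hl
      rw [h2] at hl
      by_cases hli : l = fi (S s).2 p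
      · subst hli
        have : at' (((S s).1.take (fv (S s).2 p).length).set (fi (S s).2 p) (at' (S s).1 j))
            (fi (S s).2 p) = at' (S s).1 j := by
          have h3 : fi (S s).2 p < (((S s).1.take (fv (S s).2 p).length).set (fi (S s).2 p)
              (at' (S s).1 j)).length := by rwa [h2]
          rw [List.length_set] at h3
          simp only [at', List.getD]
          rw [List.getElem?_set_self h3]
          rfl
        rw [this]
        exact ih j hj
      · have : at' (((S s).1.take (fv (S s).2 p).length).set (fi (S s).2 p) (at' (S s).1 j)) l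
            = at' (S s).1 l := by
          simp only [at', List.getD]
          rw [List.getElem?_set_ne (Ne.symm hli), List.getElem?_take, ← layer_of_lt hp, if_pos hl]
        rw [this]
        apply ih
        have h3 := (hI.j1' hp.le le_rfl).1
        rw [layer_of_ge le_rfl] at h3
        omega
    | push e i h h' => exact length_ge_ext ih
    | split h h' =>
      apply length_ge_ext
      intro l hl
      rw [length_splitVec] at hl
      rcases Nat.lt_or_ge l (S s).1.length with h1 | h1
      · exact (ih l h1).trans ((vLe_splitVec (S s)).2 l h1).length_le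
      · have : l = (S s).1.length := by omega
        subst this
        rw [at'_splitVec_last, List.length_append]
        have := ih _ (splitIdx_lt hI)
        omega

theorem covers_of_ext {V : Vec} {X : ℕ → Bool} (h : Covers (ext V) X) : Covers V X := by
  obtain ⟨l, hl, hX⟩ := h
  rw [length_ext] at hl
  refine ⟨l, hl, hX.mono ?_⟩
  rw [at'_ext hl]
  exact List.prefix_append _ _

theorem covers_succ (hS : IsRun conv S) (s : ℕ) {X : ℕ → Bool} (h : Covers (S (s + 1)).1 X) :
    Covers (S s).1 X := by
  have hI := hS.inv s
  have hstep := hS.step s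
  generalize S (s + 1) = S' at hstep h
  cases hstep with
  | pop p j hc =>
    obtain ⟨hp, hj, hact, hctx, -⟩ := hc
    obtain ⟨l, hl, hX⟩ := covers_of_ext h
    obtain ⟨h1, h2⟩ := vLe_pop hI hp hact hj hctx
    by_cases hli : l = fi (S s).2 p
    · subst hli
      have : at' (((S s).1.take (fv (S s).2 p).length).set (fi (S s).2 p) (at' (S s).1 j))
          (fi (S s).2 p) = at' (S s).1 j := by
        rw [List.length_set] at hl
        simp only [at', List.getD]
        rw [List.getElem?_set_self hl]
        rfl
      rw [this] at hX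
      exact ⟨j, hj, hX⟩
    · rw [h2] at hl
      have : at' (((S s).1.take (fv (S s).2 p).length).set (fi (S s).2 p) (at' (S s).1 j)) l
          = at' (S s).1 l := by
        simp only [at', List.getD]
        rw [List.getElem?_set_ne (Ne.symm hli), List.getElem?_take, ← layer_of_lt hp, if_pos hl]
      rw [this] at hX
      refine ⟨l, ?_, hX⟩
      have h3 := (hI.j1' hp.le le_rfl).1
      rw [layer_of_ge le_rfl] at h3
      omega
  | push e i h1 h2 => exact covers_of_ext h
  | split h1 h2 =>
    obtain ⟨l, hl, hX⟩ := covers_of_ext h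
    rw [length_splitVec] at hl
    rcases Nat.lt_or_ge l (S s).1.length with h1 | h1
    · exact ⟨l, h1, hX.mono ((vLe_splitVec (S s)).2 l h1)⟩
    · have : l = (S s).1.length := by omega
      subst this
      rw [at'_splitVec_last] at hX
      exact ⟨_, splitIdx_lt hI, hX.mono (List.prefix_append _ _)⟩

theorem covers_le (hS : IsRun conv S) {s s' : ℕ} (hs : s ≤ s') {X : ℕ → Bool}
    (h : Covers (S s').1 X) : Covers (S s).1 X := by
  induction s', hs using Nat.le_induction with
  | base => exact h
  | succ s' _ ih => exact ih (hS.covers_succ s' h)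

/-! ### Heights -/

theorem ht_succ_le (hS : IsRun conv S) (s : ℕ) : (S (s + 1)).2.length ≤ (S s).2.length + 1 := by
  have hstep := hS.step s
  generalize S (s + 1) = S' at hstep ⊢
  cases hstep with
  | pop p j hc => simp [doPop]
  | push e i h h' => simp [doPush]
  | split h h' => simp [doSplit]

theorem fr_succ (hS : IsRun conv S) {s p : ℕ} (h : p < (S s).2.length)
    (h' : p < (S (s + 1)).2.length) : fr (S (s + 1)).2 p = fr (S s).2 p := by
  have hstep := hS.step s
  generalize S (s + 1) = S' at hstep h' ⊢
  cases hstep with
  | pop q j hc =>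
    have hlen : ((S s).2.take q).length = q := by
      rw [List.length_take]; exact min_eq_left hc.1.le
    have : p < q := by
      change p < ((S s).2.take q).length at h'
      rwa [hlen] at h'
    exact fr_take this
  | push e i h1 h2 => exact fr_append_lt h
  | split h1 h2 => rfl

theorem fr_persist (hS : IsRun conv S) {s s' p : ℕ} (hs : s ≤ s')
    (h : ∀ u, s ≤ u → u ≤ s' → p < (S u).2.length) : fr (S s').2 p = fr (S s).2 p := by
  induction s', hs using Nat.le_induction with
  | base => rfl
  | succ s' hs ih =>
    rw [hS.fr_succ (h s' hs (Nat.le_succ _)) (h (s' + 1) (by omega) le_rfl)]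
    exact ih fun u hu hu' => h u hu (by omega)

/-! ### The height of the stack tends to infinity -/

/-- The set of converged pairs. -/
def cset (conv : ℕ → ℕ → Str → ℕ → Bool) (S : ℕ → State) (s : ℕ) : Finset (ℕ × ℕ) :=
  ((Finset.range (S s).1.length) ×ˢ (Finset.range (S s).1.length)).filter
    fun q => conv q.1 (S s).1.length (at' (S s).1 q.2) s = true

theorem card_cset_le (s : ℕ) :
    (cset conv S s).card ≤ (S s).1.length * (S s).1.length := by
  refine (Finset.card_filter_le _ _).trans ?_
  simp

theorem next_aux (hS : IsRun conv S) (hconv : ConvMono conv) {r t : ℕ}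
    (ht : ∀ s ≥ t, r ≤ (S s).2.length)
    (hinf : ∀ t', ∃ s ≥ t', (S s).2.length = r) {s : ℕ} (hst : t ≤ s)
    (hsr : (S s).2.length = r) :
    ∃ s' > s, (S s').2.length = r ∧
      (((S s').1.length = (S s).1.length + 1 ∧ ∀ e i, ¬ Bad conv s (S s) e i) ∨
        ((S s').1.length = (S s).1.length ∧ (cset conv S s).card < (cset conv S s').card)) := by
  classical
  have hI := hS.inv s
  have hstep := hS.step s
  have hlt := ht (s + 1) (by omega)
  rcases hS1 : S (s + 1) with ⟨c1, st1⟩
  rw [hS1] at hstep hlt
  generalize hgen : (c1, st1) = S' at hstep hlt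
  cases hstep with
  | pop p j hc =>
    exfalso
    have hlen : ((S s).2.take p).length = p := by
      rw [List.length_take]; exact min_eq_left hc.1.le
    change r ≤ ((S s).2.take p).length at hlt
    have := hc.1
    omega
  | split h1 h2 =>
    refine ⟨s + 1, Nat.lt_succ_self _, ?_, Or.inl ⟨?_, h2⟩⟩
    · rw [hS1, hgen]; exact hsr
    · rw [hS1, hgen]
      show (ext (splitVec (S s))).length = _
      rw [length_ext, length_splitVec]
  | push e i h1 h2 =>
    -- the first stage after `s` at which the height is `r` again
    have hex : ∃ s', s < s' ∧ (S s').2.length = r := by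
      obtain ⟨s', hs', hr⟩ := hinf (s + 1)
      exact ⟨s', by omega, hr⟩
    let s' := Nat.find hex
    obtain ⟨hs', hr'⟩ : s < s' ∧ (S s').2.length = r := Nat.find_spec hex
    have hmin : ∀ u, s < u → u < s' → r < (S u).2.length := by
      intro u hu hu'
      have h3 := Nat.find_min hex hu'
      have h4 := ht u (by omega)
      have h5 : (S u).2.length ≠ r := fun h => h3 ⟨hu, h⟩
      omega
    have hlen1 : (S (s + 1)).2.length = r + 1 := by
      rw [hS1, hgen]
      show ((S s).2 ++ [(e, (i, (S s).1))]).length = _
      rw [List.length_append, hsr]; rfl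
    have hs'2 : s + 2 ≤ s' := by
      by_contra hcon
      have : s' = s + 1 := by omega
      rw [this] at hr'
      omega
    obtain ⟨u, hu⟩ : ∃ u, s' = u + 1 := ⟨s' - 1, by omega⟩
    have hhu : r < (S u).2.length := hmin u (by omega) (by omega)
    have hfru : fr (S u).2 r = (e, (i, (S s).1)) := by
      have h3 : fr (S u).2 r = fr (S (s + 1)).2 r :=
        hS.fr_persist (by omega) fun v hv hv' => hmin v (by omega) (by omega)
      rw [h3, hS1, hgen, ← hsr]
      exact fr_append_eq
    have hIu := hS.inv u
    have hstepu := hS.step u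
    rcases hS2 : S (u + 1) with ⟨c2, st2⟩
    rw [hS2] at hstepu
    rw [hu, hS2] at hr'
    generalize hgen2 : (c2, st2) = S'' at hstepu hr'
    refine ⟨s', hs', by rw [hu, hS2, hgen2]; exact hr', Or.inr ?_⟩
    cases hstepu with
    | push e' i' h3 h4 =>
      exfalso
      change ((S u).2 ++ [(e', (i', (S u).1))]).length = r at hr'
      rw [List.length_append] at hr'
      omega
    | split h3 h4 =>
      exfalso
      change (S u).2.length = r at hr'
      omega
    | pop p j hc =>
      obtain ⟨hp, hj, hact, hctx, hcv⟩ := hc
      have hlen : ((S u).2.take p).length = p := by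
        rw [List.length_take]; exact min_eq_left hp.le
      have hpr : p = r := by
        change ((S u).2.take p).length = r at hr'
        omega
      subst hpr
      have hfe : fe (S u).2 p = e := by unfold fe; rw [hfru]
      have hfi : fi (S u).2 p = i := by unfold fi; rw [hfru]
      have hfv : fv (S u).2 p = (S s).1 := by unfold fv; rw [hfru]
      obtain ⟨hv1, hv2⟩ := vLe_pop hIu hp hact hj hctx
      rw [layer_of_lt hp, hfv, hfi] at hv1 hv2
      rw [hfe, hfv] at hcv
      obtain ⟨heN, hiN, -, hnc⟩ := h2
      have hcur : (S s').1 = ext ((List.take (S s).1.length (S u).1).set i (at' (S u).1 j)) := by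
        rw [hu, hS2, hgen2]
        show ext (((S u).1.take (fv (S u).2 p).length).set (fi (S u).2 p) (at' (S u).1 j)) = _
        rw [hfv, hfi]
      have hlen' : (S s').1.length = (S s).1.length := by rw [hcur, length_ext, hv2]
      refine ⟨hlen', ?_⟩
      have hle : VLe (S s).1 (S s').1 := by
        rw [hcur]; exact hv1.trans (VLe.ext _)
      apply Finset.card_lt_card
      rw [Finset.ssubset_iff_of_subset]
      · refine ⟨(e, i), ?_, ?_⟩
        · unfold cset
          rw [Finset.mem_filter, Finset.mem_product, Finset.mem_range, Finset.mem_range, hlen']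
          refine ⟨⟨heN, hiN⟩, ?_⟩
          simp only
          have h5 : at' (S u).1 j <+: at' (S s').1 i := by
            have h6 : at' ((List.take (S s).1.length (S u).1).set i (at' (S u).1 j)) i
                = at' (S u).1 j := by
              have h7 : i < ((List.take (S s).1.length (S u).1).set i (at' (S u).1 j)).length := by
                rwa [hv2]
              rw [List.length_set] at h7
              simp only [at', List.getD]
              rw [List.getElem?_set_self h7]
              rfl
            rw [hcur, at'_ext (by rwa [hv2]), h6]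
            exact List.prefix_append _ _
          exact hconv _ _ _ _ _ _ h5 (by omega) hcv
        · unfold cset
          rw [Finset.mem_filter]
          rintro ⟨-, h5⟩
          simp only at h5
          rw [hnc] at h5
          exact absurd h5 (by simp)
      · intro q hq
        unfold cset at hq ⊢
        rw [Finset.mem_filter, Finset.mem_product, Finset.mem_range, Finset.mem_range] at hq ⊢
        rw [hlen']
        refine ⟨hq.1, ?_⟩
        exact hconv _ _ _ _ _ _ (hle.2 _ hq.1.2) hs'.le hq.2

/-- The requirements which never converge. -/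
def Never (conv : ℕ → ℕ → Str → ℕ → Bool) : Prop :=
  ∀ N, ∃ e ≥ N, ∀ n σ s, conv e n σ s = false

theorem exists_large (hS : IsRun conv S) (hconv : ConvMono conv) {r t : ℕ}
    (ht : ∀ s ≥ t, r ≤ (S s).2.length)
    (hinf : ∀ t', ∃ s ≥ t', (S s).2.length = r) (M : ℕ) :
    ∃ s ≥ t, (S s).2.length = r ∧ M ≤ (S s).1.length := by
  have key : ∀ k, ∃ s ≥ t, (S s).2.length = r ∧ (M ≤ (S s).1.length ∨
      k ≤ (S s).1.length * (M * M + 1) + (cset conv S s).card) := by
    intro k
    induction k with
    | zero =>
      obtain ⟨s, hs, hr⟩ := hinf t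
      exact ⟨s, hs, hr, Or.inr (Nat.zero_le _)⟩
    | succ k ih =>
      obtain ⟨s, hs, hr, hk⟩ := ih
      rcases Nat.lt_or_ge (S s).1.length M with hlt | hge
      · rcases hk with hk | hk
        · omega
        · obtain ⟨s', hs', hr', h⟩ := hS.next_aux hconv ht hinf hs hr
          refine ⟨s', by omega, hr', Or.inr ?_⟩
          have hc := card_cset_le (conv := conv) (S := S) s
          rcases h with ⟨h1, -⟩ | ⟨h1, h2⟩
          · rw [h1]
            have h3 : (S s).1.length * (S s).1.length ≤ M * M := Nat.mul_le_mul hlt.le hlt.le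
            have h4 : ((S s).1.length + 1) * (M * M + 1) =
              (S s).1.length * (M * M + 1) + (M * M + 1) := by ring
            omega
          · rw [h1]
            omega
      · exact ⟨s, hs, hr, Or.inl hge⟩
  obtain ⟨s, hs, hr, h⟩ := key (M * (M * M + 1))
  refine ⟨s, hs, hr, ?_⟩
  rcases h with h | h
  · exact h
  · by_contra hcon
    have hc := card_cset_le (conv := conv) (S := S) s
    have h3 : (S s).1.length * (S s).1.length ≤ M * M := Nat.mul_le_mul (by omega) (by omega)
    have h4 : ((S s).1.length + 1) * (M * M + 1) ≤ M * (M * M + 1) :=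
      Nat.mul_le_mul_right _ (by omega)
    have h5 : ((S s).1.length + 1) * (M * M + 1) =
      (S s).1.length * (M * M + 1) + (M * M + 1) := by ring
    omega

theorem ht_tendsto (hS : IsRun conv S) (hconv : ConvMono conv) (hnever : Never conv) (r : ℕ) :
    ∃ t, ∀ s ≥ t, r ≤ (S s).2.length := by
  induction r with
  | zero => exact ⟨0, fun s _ => Nat.zero_le _⟩
  | succ r ih =>
    obtain ⟨t, ht⟩ := ih
    by_contra hcon
    push Not at hcon
    have hinf : ∀ t', ∃ s ≥ t', (S s).2.length = r := by
      intro t'
      obtain ⟨s, hs, hlt⟩ := hcon (max t t')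
      exact ⟨s, (le_max_right _ _).trans hs,
        le_antisymm (by omega) (ht s ((le_max_left _ _).trans hs))⟩
    -- the bottom `r` frames do not change after stage `t`
    have hfr : ∀ p < r, ∀ s ≥ t, fr (S s).2 p = fr (S t).2 p := fun p hp s hs =>
      hS.fr_persist hs fun u hu _ => hp.trans_le (ht u hu)
    obtain ⟨E, hE⟩ : ∃ E, ∀ p < r, fe (S t).2 p < E :=
      ⟨((Finset.range r).sup fun p => fe (S t).2 p) + 1, fun p hp =>
        Nat.lt_succ_of_le (Finset.le_sup (f := fun p => fe (S t).2 p) (Finset.mem_range.2 hp))⟩
    obtain ⟨e, heE, he⟩ := hnever E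
    obtain ⟨s₀, hs₀, hr₀, hN₀⟩ := hS.exists_large hconv ht hinf (e + 1)
    have hbad : ∀ s ≥ t, (S s).2.length = r → e < (S s).1.length →
        ∃ i, Bad conv s (S s) e i := by
      intro s hs hsr hlen
      have hI := hS.inv s
      refine ⟨if r = 0 then 0 else fi (S s).2 (r - 1), hlen, ?_, ?_, he _ _ _⟩
      · split_ifs with h0
        · exact hS.length_pos s
        · have h1 := hI.fi_lt (r - 1) (by omega)
          have h2 := (hI.j1' (p := r - 1) (q := (S s).2.length) (by omega) le_rfl).1
          rw [layer_of_ge le_rfl] at h2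
          omega
      · intro p hp htop
        rw [hsr] at hp
        have hpr : p = r - 1 := by
          by_contra hne
          have h1 := htop.2 (r - 1) (by omega) (by omega)
          have h2 := hE (r - 1) (by omega)
          have h3 : fe (S s).2 (r - 1) = fe (S t).2 (r - 1) := by
            unfold fe; rw [hfr (r - 1) (by omega) s hs]
          omega
        subst hpr
        rw [if_neg (by omega)]
        refine ⟨?_, Or.inl rfl⟩
        have h2 := hE (r - 1) (by omega)
        have h3 : fe (S s).2 (r - 1) = fe (S t).2 (r - 1) := by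
          unfold fe; rw [hfr (r - 1) (by omega) s hs]
        omega
    have key : ∀ k, ∃ s ≥ t, (S s).2.length = r ∧ (S s).1.length = (S s₀).1.length ∧
        k ≤ (cset conv S s).card := by
      intro k
      induction k with
      | zero => exact ⟨s₀, hs₀, hr₀, rfl, Nat.zero_le _⟩
      | succ k ih =>
        obtain ⟨s, hs, hr, hN, hk⟩ := ih
        obtain ⟨s', hs', hr', h⟩ := hS.next_aux hconv ht hinf hs hr
        obtain ⟨i, hi⟩ := hbad s hs hr (by omega)
        rcases h with ⟨-, h2⟩ | ⟨h1, h2⟩
        · exact absurd hi (h2 e i)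
        · exact ⟨s', by omega, hr', by omega, by omega⟩
    obtain ⟨s, hs, hr, hN, hk⟩ := key ((S s₀).1.length * (S s₀).1.length + 1)
    have hc := card_cset_le (conv := conv) (S := S) s
    rw [hN] at hc
    omega

end IsRun

end Pool.Agent.Lib.P2f7dfd
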