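import Pool.Agent.Lib.P2f7dfd.Ncr

/-!
# The Martin-Löf test
-/

namespace Pool.Agent.Lib.P2f7dfd

open Nat.Partrec (Code)
open Nat.Partrec.Code
open Encodable Denumerable MeasureTheory Filter Topology

theorem prim_sum : Primrec (List.sum : List ℕ → ℕ) := by
  have h : Primrec fun l : List ℕ => l.foldr (fun b s => b + s) 0 :=
    Primrec.list_foldr Primrec.id (Primrec.const 0)
      ((Primrec.nat_add.comp (Primrec.fst.comp Primrec.snd) (Primrec.snd.comp Primrec.snd)).to₂)
  exact h.of_eq fun l => rfl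

theorem prim_pow2 : Primrec fun n : ℕ => 2 ^ n := by
  refine (Primrec.nat_rec₁ (f := fun _ x => 2 * x) 1 ?_).of_eq fun n => ?_
  · exact (Primrec.nat_double.comp Primrec.snd).to₂
  · induction n with
    | zero => rfl
    | succ n ih =>
      simp only at ih ⊢
      rw [ih, pow_succ]
      ring

/-- Decoding of pairs, with a default value. -/
def dz (z : ℕ) : ℕ × Str := (decode (α := ℕ × Str) z).getD (0, [])

theorem prim_dz : Primrec dz := Primrec.option_getD.comp Primrec.decode (Primrec.const _)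

theorem dz_encode (n : ℕ) (β : Str) : dz (encode (n, β)) = (n, β) := by
  simp [dz]

/-- The open set given by a partial function. -/
def openOf (φ : ℕ →. ℕ) (n : ℕ) : Set (ℕ → Bool) := {X | ∃ k, (φ (encode (n, res X k))).Dom}

section

variable (h : ℕ → ℕ) (c : Code) (g : ℕ → ℕ)

/-- A certificate for a small measure. -/
def Cert (N n : ℕ) : Prop :=
  ((D h c N).map fun β => g (encode (β, n + N + 2)) + 1).sum ≤ 2 ^ (N + 2)

theorem exists_phi {O : Set (ℕ →. ℕ)} (hh : Computable h) (hg : RT O g) :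
    ∃ φ : ℕ →. ℕ, Nat.RecursiveIn O φ ∧
      ∀ (n : ℕ) (β : Str), (φ (encode (n, β))).Dom ↔ ∃ N, β ∈ D h c N ∧ Cert h c g N n := by
  classical
  let mv : List Str × ℕ → ℕ := fun a => (a.1.map fun β' => encode (β', a.2) + 1).sum
  have hmv : Primrec mv := by
    refine prim_sum.comp (Primrec.list_map Primrec.fst ?_)
    exact (Primrec.succ.comp (Primrec.encode.comp (Primrec.pair Primrec.snd
      (Primrec.snd.comp Primrec.fst)))).to₂
  let m : ℕ → ℕ := fun x => mv (D h c x.unpair.2, (dz x.unpair.1).1 + x.unpair.2 + 2)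
  have hN : Primrec fun x : ℕ => x.unpair.2 := Primrec.snd.comp Primrec.unpair
  have hz : Primrec fun x : ℕ => dz x.unpair.1 := prim_dz.comp (Primrec.fst.comp Primrec.unpair)
  have hp : Primrec fun x : ℕ => (dz x.unpair.1).1 + x.unpair.2 + 2 :=
    Primrec.nat_add.comp (Primrec.nat_add.comp (Primrec.fst.comp hz) hN) (Primrec.const 2)
  have hDx : Computable fun x : ℕ => D h c x.unpair.2 := (computable_D h c hh).comp hN.to_comp
  have hm : Computable m := hmv.to_comp.comp (hDx.pair hp.to_comp)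
  -- the test predicate
  let Q : (Str × (List Str × (ℕ × ℕ))) × List ℕ → Prop := fun a =>
    (∃ b ∈ a.1.2.1, b = a.1.1) ∧
      (a.1.2.1.map fun β' => a.2.getD (encode (β', a.1.2.2.1)) 0 + 1).sum ≤ 2 ^ (a.1.2.2.2 + 2)
  have hQ : PrimrecPred Q := by
    refine PrimrecPred.and ?_ ?_
    · have h1 : PrimrecRel fun (b : Str) (β : Str) => b = β := Primrec.eq
      exact h1.exists_mem_list.comp (Primrec.fst.comp (Primrec.snd.comp Primrec.fst))
        (Primrec.fst.comp Primrec.fst)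
    · refine Primrec.nat_le.comp (prim_sum.comp (Primrec.list_map
        (Primrec.fst.comp (Primrec.snd.comp Primrec.fst)) ?_)) (prim_pow2.comp
        (Primrec.nat_add.comp (Primrec.snd.comp (Primrec.snd.comp (Primrec.snd.comp Primrec.fst)))
          (Primrec.const 2)))
      have hpp : Primrec fun b : ((Str × (List Str × (ℕ × ℕ))) × List ℕ) × Str => b.1.1.2.2.1 :=
        Primrec.fst.comp (Primrec.snd.comp (Primrec.snd.comp (Primrec.fst.comp Primrec.fst)))
      exact (Primrec.succ.comp ((Primrec.list_getD 0).comp (Primrec.snd.comp Primrec.fst)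
        (Primrec.encode.comp (Primrec.pair Primrec.snd hpp)))).to₂
  let q : ℕ → List ℕ → ℕ := fun x L =>
    bif decide (Q (((dz x.unpair.1).2, (D h c x.unpair.2, ((dz x.unpair.1).1 + x.unpair.2 + 2,
      x.unpair.2))), L)) then 0 else 1
  have hq : Computable₂ q := by
    have h1 : Computable fun a : ℕ × List ℕ => (((dz a.1.unpair.1).2, (D h c a.1.unpair.2,
        ((dz a.1.unpair.1).1 + a.1.unpair.2 + 2, a.1.unpair.2))), a.2) := by
      refine Computable.pair (Computable.pair ?_ (Computable.pair ?_ (Computable.pair ?_ ?_)))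
        Computable.snd
      · exact ((Primrec.snd.comp hz).comp Primrec.fst).to_comp
      · exact hDx.comp Computable.fst
      · exact (hp.comp Primrec.fst).to_comp
      · exact (hN.comp Primrec.fst).to_comp
    exact Computable.cond (hQ.decide.to_comp.comp h1) (Computable.const 0) (Computable.const 1)
  obtain ⟨φ, hφ, hφ'⟩ := (hg.uses hm hq).search
  refine ⟨φ, hφ, fun n β => ?_⟩
  rw [hφ']
  refine exists_congr fun N => ?_
  have e1 : (Nat.pair (encode (n, β)) N).unpair = (encode (n, β), N) := Nat.unpair_pair _ _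
  show (bif decide (Q _) then 0 else 1) = 0 ↔ _
  simp only [e1, dz_encode, m, mv, Q]
  have e2 : ((D h c N).map fun β' => ((List.range ((D h c N).map fun β' =>
      encode (β', n + N + 2) + 1).sum).map g).getD (encode (β', n + N + 2)) 0 + 1) =
      (D h c N).map fun β' => g (encode (β', n + N + 2)) + 1 := by
    refine List.map_congr_left fun β' hβ' => ?_
    have h1 : encode (β', n + N + 2) < ((D h c N).map fun β' =>
        encode (β', n + N + 2) + 1).sum := by
      refine Nat.lt_of_succ_le (List.single_le_sum (fun x _ => Nat.zero_le x) _ ?_)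
      exact List.mem_map.2 ⟨β', hβ', rfl⟩
    rw [List.getD_eq_getElem?_getD, List.getElem?_map, List.getElem?_range h1]
    rfl
  rw [e2]
  unfold Cert
  simp only [exists_eq_right]
  by_cases hc : β ∈ D h c N ∧
    ((D h c N).map fun β => g (encode (β, n + N + 2)) + 1).sum ≤ 2 ^ (N + 2)
  · rw [decide_eq_true hc]
    exact ⟨fun _ => hc, fun _ => rfl⟩
  · rw [decide_eq_false hc]
    exact ⟨fun h => absurd h (by simp), fun h => absurd h hc⟩

theorem openOf_phi {φ : ℕ →. ℕ}
    (hφ : ∀ (n : ℕ) (β : Str), (φ (encode (n, β))).Dom ↔ ∃ N, β ∈ D h c N ∧ Cert h c g N n)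
    (n : ℕ) : openOf φ n = {X | ∃ N, X ∈ U h c N ∧ Cert h c g N n} := by
  ext X
  constructor
  · rintro ⟨k, hk⟩
    obtain ⟨N, hN, hc⟩ := (hφ _ _).1 hk
    refine ⟨N, ?_, hc⟩
    rw [mem_U_iff]
    have h1 := ((mem_D h c).1 hN).1
    rw [res_length] at h1
    rw [← h1]
    rw [h1]
    rw [← h1] at hN ⊢
    exact hN
  · rintro ⟨N, hN, hc⟩
    exact ⟨N, (hφ _ _).2 ⟨N, (mem_U_iff h c).1 hN, hc⟩⟩

variable {h c g}

theorem measure_le_of_cert {μ : Measure (ℕ → Bool)} [IsProbabilityMeasure μ]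
    (hgμ : ∀ (σ : Str) (n : ℕ), |(g (encode (σ, n)) : ℝ) / 2 ^ n - μ.real (cyl σ)| ≤ (1 / 2) ^ n)
    {N n : ℕ} (hc : Cert h c g N n) : μ.real (U h c N) ≤ (1 / 2) ^ n := by
  rw [measure_U]
  have h1 : ((D h c N).map fun β => μ.real (cyl β)).sum ≤
      ((D h c N).map fun β => ((g (encode (β, n + N + 2)) + 1 : ℕ) : ℝ) * (1 / 2) ^ (n + N + 2)).sum := by
    refine List.sum_le_sum fun β _ => ?_
    have h2 := (abs_le.1 (hgμ β (n + N + 2))).1
    have h3 : (g (encode (β, n + N + 2)) : ℝ) / 2 ^ (n + N + 2) =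
        (g (encode (β, n + N + 2)) : ℝ) * (1 / 2) ^ (n + N + 2) := by
      rw [div_eq_mul_inv, one_div, inv_pow]
    rw [h3] at h2
    push_cast
    linarith
  refine h1.trans ?_
  rw [List.sum_map_mul_right]
  have h4 : ((D h c N).map fun β => ((g (encode (β, n + N + 2)) + 1 : ℕ) : ℝ)).sum ≤ 2 ^ (N + 2) := by
    have h5 : ((((D h c N).map fun β => g (encode (β, n + N + 2)) + 1).sum : ℕ) : ℝ) ≤
        ((2 ^ (N + 2) : ℕ) : ℝ) := Nat.cast_le.2 hc
    rw [Nat.cast_list_sum, List.map_map] at h5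
    push_cast at h5
    refine le_trans (le_of_eq ?_) h5
    congr 1
  have h6 : (0 : ℝ) ≤ (1 / 2) ^ (n + N + 2) := by positivity
  refine (mul_le_mul_of_nonneg_right h4 h6).trans (le_of_eq ?_)
  have h7 : (2 : ℝ) ^ (N + 2) * (1 / 2) ^ (N + 2) = 1 := by
    rw [← mul_pow]; norm_num
  rw [show ((1 : ℝ) / 2) ^ (n + N + 2) = (1 / 2) ^ n * (1 / 2) ^ (N + 2) by
    rw [← pow_add, add_assoc]]
  calc (2 : ℝ) ^ (N + 2) * ((1 / 2) ^ n * (1 / 2) ^ (N + 2))
      = (1 / 2) ^ n * (2 ^ (N + 2) * (1 / 2) ^ (N + 2)) := by ring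
    _ = (1 / 2) ^ n := by rw [h7, mul_one]

theorem cert_of_measure {μ : Measure (ℕ → Bool)} [IsProbabilityMeasure μ]
    (hgμ : ∀ (σ : Str) (n : ℕ), |(g (encode (σ, n)) : ℝ) / 2 ^ n - μ.real (cyl σ)| ≤ (1 / 2) ^ n)
    {N n : ℕ} (hU : μ.real (U h c N) ≤ (1 / 2) ^ (n + 1)) : Cert h c g N n := by
  rw [measure_U] at hU
  have h1 : ((D h c N).map fun β => ((g (encode (β, n + N + 2)) + 1 : ℕ) : ℝ)).sum * (1 / 2) ^ (n + N + 2) ≤
      ((D h c N).map fun β => μ.real (cyl β)).sum + (2 ^ N : ℝ) * (2 * (1 / 2) ^ (n + N + 2)) := by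
    rw [← List.sum_map_mul_right]
    have h2 : ((D h c N).map fun β => ((g (encode (β, n + N + 2)) + 1 : ℕ) : ℝ) * (1 / 2) ^ (n + N + 2)).sum ≤
        ((D h c N).map fun β => (μ.real (cyl β) + 2 * (1 / 2) ^ (n + N + 2))).sum := by
      refine List.sum_le_sum fun β _ => ?_
      have h2 := (abs_le.1 (hgμ β (n + N + 2))).2
      have h3 : (g (encode (β, n + N + 2)) : ℝ) / 2 ^ (n + N + 2) =
          (g (encode (β, n + N + 2)) : ℝ) * (1 / 2) ^ (n + N + 2) := by
        rw [div_eq_mul_inv, one_div, inv_pow]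
      rw [h3] at h2
      push_cast
      linarith
    refine h2.trans ?_
    rw [List.sum_map_add]
    gcongr
    rw [List.map_const', List.sum_replicate, nsmul_eq_mul]
    have h3 : (((D h c N).length : ℕ) : ℝ) ≤ 2 ^ N := by
      have := length_D h c N
      exact_mod_cast this
    gcongr
  have h2 : ((D h c N).map fun β => ((g (encode (β, n + N + 2)) + 1 : ℕ) : ℝ)).sum * (1 / 2) ^ (n + N + 2) ≤
      2 ^ (N + 2) * (1 / 2) ^ (n + N + 2) := by
    refine h1.trans ((add_le_add_left hU _).trans (le_of_eq ?_))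
    rw [show n + N + 2 = n + (N + 2) by ring, pow_add, pow_add, pow_add]
    have h3 : (2 : ℝ) ^ N * (1 / 2) ^ N = 1 := by
      rw [← mul_pow]; norm_num
    linear_combination (-(1 / 2) ^ n / 2 : ℝ) * h3
  have h3 : (0 : ℝ) < (1 / 2) ^ (n + N + 2) := by positivity
  have h4 := le_of_mul_le_mul_right h2 h3
  unfold Cert
  have h5 : ((((D h c N).map fun β => g (encode (β, n + N + 2)) + 1).sum : ℕ) : ℝ) ≤
      ((2 ^ (N + 2) : ℕ) : ℝ) := by
    rw [Nat.cast_list_sum, List.map_map]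
    push_cast
    refine le_trans (le_of_eq ?_) h4
    congr 1
  exact_mod_cast h5

end

theorem exists_test (hcl : Cls.Countable) {A B : ℕ → Bool} (hA : A ∈ Cls) (hH : HIF A)
    (hB : Nat.RecursiveIn {real A} (real B)) (μ : Measure (ℕ → Bool)) [IsProbabilityMeasure μ]
    [NullSingletonClass μ] {R : ℕ → Bool} {g : ℕ → ℕ} (hg : RT {real R} g)
    (hgμ : ∀ (σ : Str) (n : ℕ), |(g (encode (σ, n)) : ℝ) / 2 ^ n - μ.real (cyl σ)| ≤ (1 / 2) ^ n) :
    ∃ φ : ℕ →. ℕ, Nat.RecursiveIn {real R} φ ∧ (∀ n, μ.real (openOf φ n) ≤ (1 / 2) ^ n) ∧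
      ∀ n, B ∈ openOf φ n := by
  obtain ⟨F, hF⟩ := exists_rep hB
  obtain ⟨e, he⟩ := hF.exists_code
  set c := ofNat Code e with hc
  obtain ⟨h, hh, hh1⟩ := hH c (by
    intro n
    obtain ⟨k, hk⟩ := (hF.mem n (B n).toNat).1 (Part.mem_some _)
    refine ⟨k, ?_⟩
    rw [he]
    exact Part.dom_iff_mem.2 ⟨_, hk⟩)
  have hVB : ∀ n, V h c A n (B n).toNat := by
    intro n
    obtain ⟨k, hk⟩ := hh1 n
    obtain ⟨x, hx⟩ := Option.isSome_iff_exists.1 hk
    have h1 := evaln_sound (Option.mem_def.2 hx)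
    rw [he] at h1
    have h2 := (hF.mem n x).2 ⟨k, h1⟩
    have h3 : x = (B n).toNat := Part.mem_some_iff.1 h2
    exact ⟨k, h3 ▸ hx⟩
  have huniq : ∀ X n v v', V h c X n v → V h c X n v' → v = v' := by
    rintro X n v v' ⟨k, hk⟩ ⟨k', hk'⟩
    have h1 := evaln_sound (Option.mem_def.2 hk)
    have h2 := evaln_sound (Option.mem_def.2 hk')
    rw [he] at h1 h2
    exact Part.mem_unique (hF.mono _ _ _ _ (res_prefix X (le_max_left k k')) h1)
      (hF.mono _ _ _ _ (res_prefix X (le_max_right k k')) h2)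
  have hBU : ∀ N, B ∈ U h c N := fun N => ⟨A, hA _, fun n _ => hVB n⟩
  have hcount : (⋂ N, U h c N).Countable := by
    refine Set.Countable.mono (iInter_U_subset h c) (hcl.biUnion fun X _ => ?_)
    refine Set.Subsingleton.countable ?_
    intro Y hY Y' hY'
    funext n
    have h1 := huniq X n _ _ (hY n) (hY' n)
    cases h2 : Y n <;> cases h3 : Y' n <;> simp [h2, h3] at h1 ⊢
  have hzero : μ (⋂ N, U h c N) = 0 := hcount.measure_zero μ
  have htend : Tendsto (fun N => μ (U h c N)) atTop (𝓝 0) := by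
    rw [← hzero]
    refine tendsto_measure_iInter_atTop (fun N => (measurableSet_U h c N).nullMeasurableSet)
      (U_anti h c) ⟨0, measure_ne_top _ _⟩
  have hsmall : ∀ n, ∃ N, μ.real (U h c N) ≤ (1 / 2) ^ (n + 1) := by
    intro n
    have h1 : Tendsto (fun N => μ.real (U h c N)) atTop (𝓝 0) := by
      have h2 := (ENNReal.tendsto_toReal ENNReal.zero_ne_top).comp htend
      exact h2
    have h3 : (0 : ℝ) < (1 / 2) ^ (n + 1) := by positivity
    obtain ⟨N, hN⟩ := (h1.eventually (gt_mem_nhds h3)).exists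
    exact ⟨N, hN.le⟩
  obtain ⟨φ, hφ, hφ'⟩ := exists_phi h c g hh hg
  refine ⟨φ, hφ, fun n => ?_, fun n => ?_⟩
  · rw [openOf_phi h c g hφ']
    classical
    obtain ⟨N, hN⟩ := hsmall n
    have hex : ∃ N, Cert h c g N n := ⟨N, cert_of_measure hgμ hN⟩
    have h1 : {X | ∃ N, X ∈ U h c N ∧ Cert h c g N n} ⊆ U h c (Nat.find hex) := by
      rintro X ⟨N, hX, hN⟩
      exact U_anti h c (Nat.find_min' hex hN) hX
    exact (measureReal_mono h1).trans (measure_le_of_cert hgμ (Nat.find_spec hex))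
  · rw [openOf_phi h c g hφ']
    obtain ⟨N, hN⟩ := hsmall n
    exact ⟨N, hBU N, cert_of_measure hgμ hN⟩

end Pool.Agent.Lib.P2f7dfd
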